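import Pool.Agent.Helper57.UV.LawW

namespace Pool.Agent.Helper57.UV

open Set MeasureTheory Filter Topology
open Pool.Agent.Helper57.LH
open Pool.Agent.Helper57.Zeta
open Pool.Agent.Helper57.LS
open Pool.Agent.Helper57.US
open Pool.Agent.Helper57.PC (SN SN_pos mult nd)
open Pool.Agent.Helper4.PU (AT)

/-- The kernel law at all scales up to a power of `T`, with the exact prime term. -/
def ULawP (C : ℝ) : Prop := ∀ᶠ T : ℝ in atTop, ∀ B v : ℝ, 9600 ≤ B → B ≤ T ^ (1/100 : ℝ) → |v| ≤ T ^ (1/100 : ℝ) →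
    |WP T (fun u => Gm ((u - v) / B)) - SN T * (AT T * B + PXc (Real.log T / B) (2 * Real.pi * v / Real.log T) / B)| ≤ C * (SN T / B ^ 2)

theorem ULawP_holds : ∃ C : ℝ, 0 ≤ C ∧ ULawP C := by
  obtain ⟨C, hC, h⟩ := Y_corrV
  refine ⟨C, hC.le, ?_⟩
  unfold ULawP
  filter_upwards [h, eventually_ge_atTop 3] with T hT hT3 B v hB hBL hv
  have hT' := hT B v hB hBL hv
  have hB0 : 0 < B := by linarith
  have hLog := one_le_log hT3
  have hL0 : 0 < Real.log T := by linarith
  have hX0 : 0 < Real.log T / B := by positivity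
  have hpi := Real.pi_pos
  have hT0 : 0 < T := by linarith
  rw [Yf_corr_eq T _ hX0] at hT'
  have e1 : WP T (fun u => Gm ((u - v) / B)) =
      ∑ p ∈ Zf T ×ˢ Zf T, (mult p.1 : ℝ) * (mult p.2 : ℝ) * Gm (Real.log T / B / (2 * Real.pi) * (p.1.im - p.2.im + -(2 * Real.pi * v / Real.log T))) := by
    unfold WP
    refine Finset.sum_congr rfl fun p _ => ?_
    have e3 : (nd T p - v) / B = Real.log T / B / (2 * Real.pi) * (p.1.im - p.2.im + -(2 * Real.pi * v / Real.log T)) := by
      unfold nd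
      field_simp
      ring
    simp only [e3]
  rw [e1]
  set Sg := ∑ p ∈ Zf T ×ˢ Zf T, (mult p.1 : ℝ) * (mult p.2 : ℝ) * Gm (Real.log T / B / (2 * Real.pi) * (p.1.im - p.2.im + -(2 * Real.pi * v / Real.log T)))
  set P := PXc (Real.log T / B) (2 * Real.pi * v / Real.log T)
  have e2 : Sg - SN T * (AT T * B + P / B) = (Real.log T / B / (2 * Real.pi)) * (2 * Real.pi / (Real.log T / B) * Sg - T * (AT T * B ^ 2 + P)) := by
    unfold SN
    field_simp
  rw [e2, abs_mul, abs_of_pos (by positivity)]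
  calc Real.log T / B / (2 * Real.pi) * |2 * Real.pi / (Real.log T / B) * Sg - T * (AT T * B ^ 2 + P)|
      ≤ Real.log T / B / (2 * Real.pi) * (C * (T / B)) := by gcongr
    _ = C * (SN T / B ^ 2) := by
        unfold SN
        field_simp

end Pool.Agent.Helper57.UV
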