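import Pool.Agent.Helper57.UV.Ker

namespace Pool.Agent.Helper57.UV

open Set MeasureTheory Filter Topology
open Pool.Agent.Helper57.LH
open Pool.Agent.Helper57.Zeta
open Pool.Agent.Helper57.LS
open Pool.Agent.Helper57.US

/-- bound for the off-line contribution -/
noncomputable def RBq (T L B X q : ℝ) (Ψ : ℝ → ℝ) (t : ℝ) : ℝ :=
  3 * L / 2 * (Cv T X Ψ t + q * DC B L * t ^ (-(1/4) : ℝ))

lemma far_q {X q T t τ : ℝ} (hq1 : 1 ≤ q) (hqX : 1 ≤ q * X ^ 2) (ht : 20 ≤ t) (htT : t ≤ T) (hτ : τ ∉ RA T) :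
    Kd X (t - τ) * wg τ ≤ q * (16 * t ^ (-(1/4) : ℝ) * wf τ) := by
  have h1 := far_bound (X := 1) le_rfl ht htT hτ
  have hwg : 0 ≤ wg τ := le_trans zero_le_one (wg_one_le τ)
  calc Kd X (t - τ) * wg τ ≤ (q * Kd 1 (t - τ)) * wg τ := by
        gcongr
        exact Kd_q hq1 hqX
    _ = q * (Kd 1 (t - τ) * wg τ) := by ring
    _ ≤ _ := by gcongr

lemma finite_right_q {T L B X q t : ℝ} (hL : L = Real.log T) (hL40 : 40 ≤ L) (hB : 9600 ≤ B) (hX : X = L / B)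
    (hq1 : 1 ≤ q) (hqX : 1 ≤ q * X ^ 2)
    (ht : 20 ≤ t) (htT : t ≤ T) {Ψ : ℝ → ℝ} (hΨc : Continuous Ψ) (hΨ : DomPsi T B Ψ)
    (F : Finset ZS) (hF : ∀ ρ ∈ F, 1 / 2 ≤ (ρ:ℂ).re) :
    ∑ ρ ∈ F, qw B L ρ * Kd X (t - (ρ:ℂ).im) ≤ RBq T L B X q Ψ t := by
  classical
  have hL0 : 0 < L := by linarith
  have hB0 : 0 < B := by linarith
  have hX0 : 0 < X := by rw [hX]; positivity
  set Iρ : ZS → Set ℝ := fun ρ => Icc ((ρ:ℂ).im - 1 / L) ((ρ:ℂ).im + 1 / L) with hIρ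
  have hmemI : ∀ (ρ : ZS) (τ : ℝ), τ ∈ Iρ ρ ↔ |τ - (ρ:ℂ).im| ≤ 1 / L := by
    intro ρ τ
    rw [hIρ]
    simp only [mem_Icc, abs_le]
    constructor <;> rintro ⟨h1, h2⟩ <;> constructor <;> linarith
  have hKc : Continuous (fun τ => Kd X (t - τ)) := (Kd_cont X).comp (by fun_prop)
  have h1 : ∀ ρ : ZS, Kd X (t - (ρ:ℂ).im) ≤ 3 * L / 2 * ∫ τ in Iρ ρ, Kd X (t - τ) := by
    intro ρ
    have h2 : ∫ _ in Iρ ρ, Kd X (t - (ρ:ℂ).im) / 3 ≤ ∫ τ in Iρ ρ, Kd X (t - τ) := by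
      apply setIntegral_mono_on
      · exact continuous_const.continuousOn.integrableOn_compact isCompact_Icc
      · exact hKc.continuousOn.integrableOn_compact isCompact_Icc
      · exact measurableSet_Icc
      · intro τ hτ
        have := Kd_smooth (t := t) hL0 (by linarith : (1:ℝ) ≤ B) hX ((hmemI ρ τ).mp hτ)
        linarith
    rw [setIntegral_const, hIρ, Real.volume_real_Icc_of_le (by
      have : 0 < 1 / L := by positivity
      linarith), smul_eq_mul] at h2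
    have e : ((ρ:ℂ).im + 1 / L - ((ρ:ℂ).im - 1 / L)) * (Kd X (t - (ρ:ℂ).im) / 3) = 2 / (3 * L) * Kd X (t - (ρ:ℂ).im) := by
      field_simp
      ring
    rw [e] at h2
    calc Kd X (t - (ρ:ℂ).im) = 3 * L / 2 * (2 / (3 * L) * Kd X (t - (ρ:ℂ).im)) := by field_simp
      _ ≤ _ := by gcongr
  set h : ℝ → ℝ := fun τ => ∑ ρ ∈ F, qw B L ρ * (Iρ ρ).indicator (fun τ => Kd X (t - τ)) τ with hh
  have hint1 : ∀ ρ : ZS, Integrable ((Iρ ρ).indicator (fun τ => Kd X (t - τ))) := by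
    intro ρ
    rw [integrable_indicator_iff measurableSet_Icc]
    exact hKc.continuousOn.integrableOn_compact isCompact_Icc
  have hint : Integrable h := by
    rw [hh]
    exact integrable_finsetSum F fun ρ _ => (hint1 ρ).const_mul _
  have h2 : ∑ ρ ∈ F, qw B L ρ * Kd X (t - (ρ:ℂ).im) ≤ 3 * L / 2 * ∫ τ, h τ := by
    have e1 : ∫ τ, h τ = ∑ ρ ∈ F, qw B L ρ * ∫ τ in Iρ ρ, Kd X (t - τ) := by
      rw [hh, integral_finsetSum F fun ρ _ => (hint1 ρ).const_mul _]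
      refine Finset.sum_congr rfl fun ρ _ => ?_
      rw [integral_const_mul, integral_indicator measurableSet_Icc]
    rw [e1, Finset.mul_sum]
    refine Finset.sum_le_sum fun ρ _ => ?_
    calc qw B L ρ * Kd X (t - (ρ:ℂ).im) ≤ qw B L ρ * (3 * L / 2 * ∫ τ in Iρ ρ, Kd X (t - τ)) := by
          have := qw_nonneg B L ρ
          have := h1 ρ
          gcongr
      _ = _ := by ring
  refine h2.trans ?_
  unfold RBq
  have hL32 : 0 ≤ 3 * L / 2 := by positivity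
  apply mul_le_mul_of_nonneg_left _ hL32
  rw [← integral_add_compl (RA_meas T) hint]
  -- pointwise description of h
  have hpt : ∀ τ, h τ = Kd X (t - τ) * ∑ ρ ∈ F.filter (fun ρ => τ ∈ Iρ ρ), qw B L ρ := by
    intro τ
    rw [hh, Finset.sum_filter, Finset.mul_sum]
    refine Finset.sum_congr rfl fun ρ _ => ?_
    by_cases hm : τ ∈ Iρ ρ
    · rw [indicator_of_mem hm, if_pos hm]; ring
    · rw [indicator_of_notMem hm, if_neg hm]; ring
  have hCA := CA_nonneg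
  apply add_le_add
  · unfold Cv
    apply setIntegral_mono_on hint.integrableOn
    · exact (hKc.mul (Real.continuous_sqrt.comp hΨc)).continuousOn.integrableOn_compact (RA_compact T)
    · exact RA_meas T
    · intro τ hτ
      rw [hpt]
      have hK := (Kd_pos X (t - τ)).le
      apply mul_le_mul_of_nonneg_left _ hK
      apply Real.le_sqrt_of_sq_le
      have := hΨ τ hτ ((F.filter (fun ρ => τ ∈ Iρ ρ)).map (Function.Embedding.subtype _)) (by
        intro ρ hρ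
        rw [Finset.mem_map] at hρ
        obtain ⟨ρ', hρ', rfl⟩ := hρ
        rw [Finset.mem_filter] at hρ'
        refine ⟨ρ'.2, hF ρ' hρ'.1, ?_⟩
        have h3 := (hmemI ρ' τ).mp hρ'.2
        rw [abs_sub_comm] at h3
        simp only [Function.Embedding.subtype_apply]
        rw [← hL]
        calc L * |(ρ':ℂ).im - τ| ≤ L * (1 / L) := by gcongr
          _ = 1 := by field_simp)
      rw [Finset.sum_map] at this
      simp only [Function.Embedding.subtype_apply] at this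
      rw [← hL] at this
      exact this
  · have hWM : 0 ≤ WM B L := Wt_nonneg _ _
    have hb : ∀ τ ∈ (RA T)ᶜ, h τ ≤ WM B L * (5 / 2 * CA) * (q * (16 * t ^ (-(1/4) : ℝ))) * wf τ := by
      intro τ hτ
      rw [hpt]
      have h3 : ∑ ρ ∈ F.filter (fun ρ => τ ∈ Iρ ρ), qw B L ρ ≤ WM B L * (5 / 2 * Afun τ) := by
        have h4 := loc_count (F.filter (fun ρ => τ ∈ Iρ ρ)) τ (by
          intro ρ hρ
          rw [Finset.mem_filter] at hρ
          have h5 := (hmemI ρ τ).mp hρ.2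
          rw [abs_sub_comm] at h5
          have : 1 / L ≤ 1 := by rw [div_le_one hL0]; linarith
          linarith)
        calc ∑ ρ ∈ F.filter (fun ρ => τ ∈ Iρ ρ), qw B L ρ ≤ ∑ ρ ∈ F.filter (fun ρ => τ ∈ Iρ ρ), WM B L * mx ρ := by
              refine Finset.sum_le_sum fun ρ hρ => ?_
              rw [Finset.mem_filter] at hρ
              unfold qw WM
              rw [mul_comm]
              have hr := zs_re ρ
              have h6 := hF ρ hρ.1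
              have h7 : Wt B (L * ((ρ:ℂ).re - 1 / 2)) ≤ Wt B (L / 2) := by
                apply Wt_mono hB0
                · exact mul_nonneg hL0.le (by linarith)
                · nlinarith
              have := mx_nonneg (ρ:ℂ)
              gcongr
          _ = WM B L * ∑ ρ ∈ F.filter (fun ρ => τ ∈ Iρ ρ), mx ρ := by rw [Finset.mul_sum]
          _ ≤ _ := by gcongr
      have hA := Afun_bound τ
      have hA2 : Afun τ ≤ CA * wg τ := (le_abs_self _).trans hA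
      have hK := (Kd_pos X (t - τ)).le
      have hfar := far_q hq1 hqX ht htT hτ
      calc Kd X (t - τ) * ∑ ρ ∈ F.filter (fun ρ => τ ∈ Iρ ρ), qw B L ρ
          ≤ Kd X (t - τ) * (WM B L * (5 / 2 * (CA * wg τ))) := by
            gcongr
            exact h3.trans (by gcongr)
        _ = WM B L * (5 / 2 * CA) * (Kd X (t - τ) * wg τ) := by ring
        _ ≤ WM B L * (5 / 2 * CA) * (q * (16 * t ^ (-(1/4) : ℝ) * wf τ)) := by gcongr
        _ = _ := by ring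
    have hint2 : Integrable (fun τ => WM B L * (5 / 2 * CA) * (q * (16 * t ^ (-(1/4) : ℝ))) * wf τ) := wf_integrable.const_mul _
    calc ∫ τ in (RA T)ᶜ, h τ ≤ ∫ τ in (RA T)ᶜ, WM B L * (5 / 2 * CA) * (q * (16 * t ^ (-(1/4) : ℝ))) * wf τ := by
          apply setIntegral_mono_on hint.integrableOn hint2.integrableOn (RA_meas T).compl hb
      _ ≤ ∫ τ, WM B L * (5 / 2 * CA) * (q * (16 * t ^ (-(1/4) : ℝ))) * wf τ := by
          apply setIntegral_le_integral hint2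
          filter_upwards with τ
          have := wf_nonneg τ
          have ht0 : 0 < t := by linarith
          have hq0 : 0 < q := by linarith
          positivity
      _ = _ := by
          rw [integral_const_mul]
          unfold DC C1
          ring

lemma E1_q {T L B X q t : ℝ} (hL : L = Real.log T) (hL40 : 40 ≤ L) (hB : 9600 ≤ B) (hX : X = L / B)
    (hq1 : 1 ≤ q) (hqX : 1 ≤ q * X ^ 2)
    (ht : 20 ≤ t) (htT : t ≤ T) {Ψ : ℝ → ℝ} (hΨc : Continuous Ψ) (hΨ : DomPsi T B Ψ) (F : Finset ZS) :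
    ∑ ρ ∈ F, mx ρ * |gs X ((ρ:ℂ).re - 1 / 2) (t - (ρ:ℂ).im) - gs X 0 (t - (ρ:ℂ).im)| ≤ 16 * RBq T L B X q Ψ t := by
  classical
  have hL0 : 0 < L := by linarith
  have hB0 : 0 < B := by linarith
  have hX0 : 0 < X := by rw [hX]; positivity
  set f : ZS → ℝ := fun ρ => mx ρ * Wt B (L * |(ρ:ℂ).re - 1 / 2|) * Kd X (t - (ρ:ℂ).im) with hf
  have h1 : ∑ ρ ∈ F, mx ρ * |gs X ((ρ:ℂ).re - 1 / 2) (t - (ρ:ℂ).im) - gs X 0 (t - (ρ:ℂ).im)| ≤ 8 * ∑ ρ ∈ F, f ρ := by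
    rw [Finset.mul_sum]
    refine Finset.sum_le_sum fun ρ _ => ?_
    have h2 := gs_diff_bound hX0 ((ρ:ℂ).re - 1 / 2) (t - (ρ:ℂ).im)
    have h3 : (|(ρ:ℂ).re - 1 / 2| * X) ^ 2 * Real.exp (|(ρ:ℂ).re - 1 / 2| * X) = Wt B (L * |(ρ:ℂ).re - 1 / 2|) := by
      unfold Wt
      rw [hX]
      rw [show |(ρ:ℂ).re - 1 / 2| * (L / B) = L * |(ρ:ℂ).re - 1 / 2| / B by ring]
    rw [h3] at h2
    have hm := mx_nonneg (ρ:ℂ)
    calc mx ρ * |gs X ((ρ:ℂ).re - 1 / 2) (t - (ρ:ℂ).im) - gs X 0 (t - (ρ:ℂ).im)|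
        ≤ mx ρ * (8 * Wt B (L * |(ρ:ℂ).re - 1 / 2|) * Kd X (t - (ρ:ℂ).im)) := by gcongr
      _ = 8 * f ρ := by rw [hf]; ring
  refine h1.trans ?_
  rw [← Finset.sum_filter_add_sum_filter_not F (fun ρ : ZS => 1 / 2 ≤ (ρ:ℂ).re)]
  have hA : ∑ ρ ∈ F.filter (fun ρ : ZS => 1 / 2 ≤ (ρ:ℂ).re), f ρ ≤ RBq T L B X q Ψ t := by
    have h2 := finite_right_q hL hL40 hB hX hq1 hqX ht htT hΨc hΨ (F.filter (fun ρ : ZS => 1 / 2 ≤ (ρ:ℂ).re)) (by
      intro ρ hρ
      exact (Finset.mem_filter.mp hρ).2)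
    refine le_trans (le_of_eq ?_) h2
    refine Finset.sum_congr rfl fun ρ hρ => ?_
    have h3 := (Finset.mem_filter.mp hρ).2
    rw [hf]
    simp only
    unfold qw
    rw [abs_of_nonneg (by linarith)]
  have hBB : ∑ ρ ∈ F.filter (fun ρ : ZS => ¬ 1 / 2 ≤ (ρ:ℂ).re), f ρ ≤ RBq T L B X q Ψ t := by
    have h2 := finite_right_q hL hL40 hB hX hq1 hqX ht htT hΨc hΨ ((F.filter (fun ρ : ZS => ¬ 1 / 2 ≤ (ρ:ℂ).re)).map refl.toEmbedding) (by
      intro ρ hρ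
      rw [Finset.mem_map] at hρ
      obtain ⟨ρ', hρ', rfl⟩ := hρ
      have h3 := (Finset.mem_filter.mp hρ').2
      rw [Equiv.coe_toEmbedding, refl_re]
      push Not at h3
      linarith)
    refine le_trans (le_of_eq ?_) h2
    rw [Finset.sum_map]
    refine Finset.sum_congr rfl fun ρ hρ => ?_
    have h3 := (Finset.mem_filter.mp hρ).2
    push Not at h3
    rw [hf, Equiv.coe_toEmbedding, refl_im]
    simp only
    unfold qw
    rw [refl_re, refl_mx, abs_of_neg (by linarith)]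
    congr 3
    ring
  linarith

lemma RBq_nonneg {T L B X q : ℝ} (hL : 0 ≤ L) (hq : 0 ≤ q) (Ψ : ℝ → ℝ) {t : ℝ} (ht : 0 < t) : 0 ≤ RBq T L B X q Ψ t := by
  unfold RBq
  have := Cv_nonneg T X Ψ t
  have := DC_nonneg B L
  positivity

lemma RBq_contOn {T L B X q a : ℝ} (ha : 0 < a) {Ψ : ℝ → ℝ} (hΨc : Continuous Ψ) : ContinuousOn (RBq T L B X q Ψ) (Icc a T) := by
  unfold RBq
  apply continuousOn_const.mul
  apply (Cv_cont T X hΨc).continuousOn.add
  apply continuousOn_const.mul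
  apply ContinuousOn.rpow_const continuousOn_id
  intro t ht
  left
  have : a ≤ t := ht.1
  simp only [id]
  linarith

/-- L² bound of the off-line contribution -/
theorem RBq_sq {T L B X q a C : ℝ} (hL0 : 0 < L) (hB0 : 0 < B) (hX : X = L / B) (hq0 : 0 ≤ q) (ha1 : 1 ≤ a) (haT : a ≤ T) (haT2 : Real.sqrt T ≤ a)
    {Ψ : ℝ → ℝ} (hΨc : Continuous Ψ) (hΨ0 : ∀ τ, 0 ≤ Ψ τ) (hΨi : ∫ τ in RA T, Ψ τ ≤ C * (T / B ^ 4)) :
    ∫ t in Icc a T, (16 * RBq T L B X q Ψ t) ^ 2 ≤ 1152 * Real.pi ^ 2 * C * (T / B ^ 2) + 1152 * L ^ 2 * (q * DC B L) ^ 2 * T ^ (3/4 : ℝ) := by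
  have hX0 : 0 < X := by rw [hX]; positivity
  have hT0 : 0 < T := by linarith
  have hCv := Cv_int (T := T) (a := a) hX0 hΨc hΨ0
  have hcont1 : Continuous (fun t => 1152 * L ^ 2 * Cv T X Ψ t ^ 2) := continuous_const.mul ((Cv_cont T X hΨc).pow 2)
  have hcont2 : Continuous (fun _ : ℝ => 1152 * L ^ 2 * ((q * DC B L) ^ 2 * T ^ (-(1/4) : ℝ))) := continuous_const
  have h1 : ∫ t in Icc a T, (16 * RBq T L B X q Ψ t) ^ 2 ≤ ∫ t in Icc a T, (1152 * L ^ 2 * Cv T X Ψ t ^ 2 + 1152 * L ^ 2 * ((q * DC B L) ^ 2 * T ^ (-(1/4) : ℝ))) := by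
    apply setIntegral_mono_on
    · exact ((continuousOn_const.mul (RBq_contOn (by linarith) hΨc)).pow 2).integrableOn_compact isCompact_Icc
    · exact (hcont1.add hcont2).continuousOn.integrableOn_compact isCompact_Icc
    · exact measurableSet_Icc
    · intro t ht
      unfold RBq
      have ht0 : 0 < t := by have := ht.1; linarith
      have h2 : (t ^ (-(1/4) : ℝ)) ^ 2 ≤ T ^ (-(1/4) : ℝ) := by
        rw [← Real.rpow_natCast, ← Real.rpow_mul ht0.le]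
        have h3 : T ^ (-(1/4) : ℝ) = (Real.sqrt T) ^ (-(1/2) : ℝ) := by
          rw [Real.sqrt_eq_rpow, ← Real.rpow_mul hT0.le]
          norm_num
        rw [h3]
        have e4 : (-(1/4) : ℝ) * ((2:ℕ):ℝ) = -(1/2) := by norm_num
        rw [e4]
        exact Real.rpow_le_rpow_of_nonpos (Real.sqrt_pos.mpr hT0) (haT2.trans ht.1) (by norm_num)
      set x := Cv T X Ψ t
      set y := t ^ (-(1/4) : ℝ)
      set D := q * DC B L
      have h5 : (x + D * y) ^ 2 ≤ 2 * x ^ 2 + 2 * (D * y) ^ 2 := by nlinarith [sq_nonneg (x - D * y)]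
      calc (16 * (3 * L / 2 * (x + D * y))) ^ 2 = 576 * L ^ 2 * (x + D * y) ^ 2 := by ring
        _ ≤ 576 * L ^ 2 * (2 * x ^ 2 + 2 * (D * y) ^ 2) := by gcongr
        _ = 1152 * L ^ 2 * x ^ 2 + 1152 * L ^ 2 * (D ^ 2 * y ^ 2) := by ring
        _ ≤ _ := by gcongr
  refine h1.trans ?_
  rw [integral_add (hcont1.continuousOn.integrableOn_compact isCompact_Icc) (hcont2.continuousOn.integrableOn_compact isCompact_Icc),
    integral_const_mul, setIntegral_const, Real.volume_real_Icc_of_le haT, smul_eq_mul]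
  have hD := mul_nonneg hq0 (DC_nonneg B L)
  have hT34 : T * T ^ (-(1/4) : ℝ) = T ^ (3/4 : ℝ) := by
    nth_rewrite 1 [← Real.rpow_one T]
    rw [← Real.rpow_add hT0]
    norm_num
  have hTq : 0 < T ^ (-(1/4) : ℝ) := Real.rpow_pos_of_pos hT0 _
  calc 1152 * L ^ 2 * (∫ t in Icc a T, Cv T X Ψ t ^ 2) + (T - a) * (1152 * L ^ 2 * ((q * DC B L) ^ 2 * T ^ (-(1/4) : ℝ)))
      ≤ 1152 * L ^ 2 * ((Real.pi / X) ^ 2 * (C * (T / B ^ 4))) + T * (1152 * L ^ 2 * ((q * DC B L) ^ 2 * T ^ (-(1/4) : ℝ))) := by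
        gcongr
        · refine hCv.trans ?_
          gcongr
        · linarith
    _ = 1152 * Real.pi ^ 2 * C * (T / B ^ 2) + 1152 * L ^ 2 * (q * DC B L) ^ 2 * (T * T ^ (-(1/4) : ℝ)) := by
        rw [hX]
        field_simp
    _ = _ := by rw [hT34]

/-- two sided approximation of the Fejer sum over the zeros in `[0,T]`, away from the ends -/
theorem Y_far_q {T L B X q t : ℝ} (hL : L = Real.log T) (hL40 : 40 ≤ L) (hB : 9600 ≤ B) (hX : X = L / B)
    (hq1 : 1 ≤ q) (hqX : 1 ≤ q * X ^ 2)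
    (hT3 : 3 ≤ T) (ha : 20 ≤ T ^ (3/4 : ℝ)) (ht : T ^ (3/4 : ℝ) ≤ t) (htT : t ≤ T - T ^ (3/4 : ℝ)) {Ψ : ℝ → ℝ} (hΨc : Continuous Ψ) (hΨ : DomPsi T B Ψ) :
    |Yf (ZT T) X t - (MT X t / X - PS X t)| ≤ 16 * RBq T L B X q Ψ t + 5 * q * CT2 * T ^ (-(1/16) : ℝ) := by
  have hX0 : 0 < X := by rw [hX]; have : 0 < L := by linarith
                         have : 0 < B := by linarith
                         positivity
  have hT1 : 1 ≤ T := by linarith
  have ha0 : 0 < T ^ (3/4 : ℝ) := by positivity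
  have htT' : t ≤ T := by linarith
  set d : ZS → ℝ := fun ρ => mx ρ * |gs X ((ρ:ℂ).re - 1 / 2) (t - (ρ:ℂ).im) - gs X 0 (t - (ρ:ℂ).im)| with hd
  have hd0 : ∀ ρ, 0 ≤ d ρ := fun ρ => mul_nonneg (mx_nonneg _) (abs_nonneg _)
  have hfin := E1_q hL hL40 hB hX hq1 hqX (by linarith : 20 ≤ t) htT' hΨc hΨ
  have hds : Summable d := summable_of_sum_le hd0 (fun F => hfin F)
  have hdt : ∑' ρ, d ρ ≤ 16 * RBq T L B X q Ψ t := hds.tsum_le_of_sum_le (fun F => hfin F)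
  have hex := explicit hX0 t
  have hg0 : ∀ ρ : ZS, 0 ≤ mx ρ * gs X 0 (t - (ρ:ℂ).im) := fun ρ => mul_nonneg (mx_nonneg _) (gs_zero_nonneg hX0 _)
  have hle : ∀ ρ : ZS, mx ρ * gs X 0 (t - (ρ:ℂ).im) ≤ mx ρ * gs X ((ρ:ℂ).re - 1 / 2) (t - (ρ:ℂ).im) + d ρ := by
    intro ρ
    rw [hd]
    simp only
    rw [← mul_add]
    apply mul_le_mul_of_nonneg_left _ (mx_nonneg _)
    have := neg_abs_le (gs X ((ρ:ℂ).re - 1 / 2) (t - (ρ:ℂ).im) - gs X 0 (t - (ρ:ℂ).im))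
    linarith
  have hle2 : ∀ ρ : ZS, mx ρ * gs X ((ρ:ℂ).re - 1 / 2) (t - (ρ:ℂ).im) - d ρ ≤ mx ρ * gs X 0 (t - (ρ:ℂ).im) := by
    intro ρ
    rw [hd]
    simp only
    rw [← mul_sub]
    apply mul_le_mul_of_nonneg_left _ (mx_nonneg _)
    have := le_abs_self (gs X ((ρ:ℂ).re - 1 / 2) (t - (ρ:ℂ).im) - gs X 0 (t - (ρ:ℂ).im))
    linarith
  have hsum2 := hex.summable.add hds
  have hg0s : Summable (fun ρ : ZS => mx ρ * gs X 0 (t - (ρ:ℂ).im)) := Summable.of_nonneg_of_le hg0 hle hsum2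
  have hup : ∑' ρ : ZS, mx ρ * gs X 0 (t - (ρ:ℂ).im) ≤ (MT X t / X - PS X t) + 16 * RBq T L B X q Ψ t := by
    calc ∑' ρ : ZS, mx ρ * gs X 0 (t - (ρ:ℂ).im)
        ≤ ∑' ρ : ZS, (mx ρ * gs X ((ρ:ℂ).re - 1 / 2) (t - (ρ:ℂ).im) + d ρ) := hg0s.tsum_le_tsum hle hsum2
      _ = (MT X t / X - PS X t) + ∑' ρ, d ρ := by rw [hex.summable.tsum_add hds, hex.tsum_eq]
      _ ≤ _ := by linarith
  have hlo : (MT X t / X - PS X t) - 16 * RBq T L B X q Ψ t ≤ ∑' ρ : ZS, mx ρ * gs X 0 (t - (ρ:ℂ).im) := by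
    calc (MT X t / X - PS X t) - 16 * RBq T L B X q Ψ t ≤ (MT X t / X - PS X t) - ∑' ρ, d ρ := by linarith
      _ = ∑' ρ : ZS, (mx ρ * gs X ((ρ:ℂ).re - 1 / 2) (t - (ρ:ℂ).im) - d ρ) := by
          rw [hex.summable.tsum_sub hds, hex.tsum_eq]
      _ ≤ _ := (hex.summable.sub hds).tsum_le_tsum hle2 hg0s
  have hYle : Yf (ZT T) X t ≤ ∑' ρ : ZS, mx ρ * gs X 0 (t - (ρ:ℂ).im) := hg0s.sum_le_tsum (ZT T) (fun i _ => hg0 i)
  have hYge : (∑' ρ : ZS, mx ρ * gs X 0 (t - (ρ:ℂ).im)) ≤ Yf (ZT T) X t + 5 * q * CT2 * T ^ (-(1/16) : ℝ) := by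
    apply hg0s.tsum_le_of_sum_le
    intro F
    classical
    rw [← Finset.sum_filter_add_sum_filter_not F (fun ρ => ρ ∈ ZT T)]
    apply add_le_add
    · unfold Yf
      apply Finset.sum_le_sum_of_subset_of_nonneg
      · intro ρ hρ
        exact (Finset.mem_filter.mp hρ).2
      · intro ρ _ _
        exact hg0 ρ
    · have h1 := KS_tail hT1 (by linarith) ht htT (F.filter (fun ρ => ρ ∉ ZT T)) (by
        intro ρ hρ
        exact (Finset.mem_filter.mp hρ).2)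
      have h2 : ∑ ρ ∈ F.filter (fun ρ => ρ ∉ ZT T), mx ρ * gs X 0 (t - (ρ:ℂ).im) ≤ 5 * q * KS (F.filter (fun ρ => ρ ∉ ZT T)) t := by
        unfold KS
        rw [Finset.mul_sum]
        refine Finset.sum_le_sum fun ρ _ => ?_
        have hm := mx_nonneg (ρ:ℂ)
        calc mx ρ * gs X 0 (t - (ρ:ℂ).im) ≤ mx ρ * (5 * (q * Kd 1 (t - (ρ:ℂ).im))) := by
              gcongr
              exact (gs_zero_decay hX0 _).trans (by gcongr; exact Kd_q hq1 hqX)
          _ = _ := by ring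
      calc ∑ ρ ∈ F.filter (fun ρ => ρ ∉ ZT T), mx ρ * gs X 0 (t - (ρ:ℂ).im) ≤ 5 * q * KS (F.filter (fun ρ => ρ ∉ ZT T)) t := h2
        _ ≤ 5 * q * (CT2 * T ^ (-(1/16) : ℝ)) := by gcongr
        _ = _ := by ring
  have hRB : 0 ≤ 5 * q * CT2 * T ^ (-(1/16) : ℝ) := by
    have := CT2_nonneg
    have hq0 : 0 ≤ q := by linarith
    positivity
  rw [abs_le]
  constructor <;> linarith

end Pool.Agent.Helper57.UV
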