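import Pool.Agent.Helper57.UV.Lin
import Pool.Agent.Helper57.LS.Corr

namespace Pool.Agent.Helper57.UV

open Set MeasureTheory Filter Topology
open Pool.Agent.Helper57.LH
open Pool.Agent.Helper57.Zeta
open Pool.Agent.Helper57.LS
open Pool.Agent.Helper57.US

/-- The L² comparison for correlations, variable mean. -/
lemma cross_l2v {Y P c : ℝ → ℝ} (hY : Continuous Y) (hP : Continuous P) (hc : Continuous c) {a b δ η p : ℝ}
    (hE : ∫ t in Icc a b, (Y t - c t + P t) ^ 2 ≤ η) (hp : ∫ t in Icc a b, P t ^ 2 ≤ p) :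
    |(∫ t in Icc (a + |δ|) (b - |δ|), Y t * Y (t + δ)) - (∫ t in Icc (a + |δ|) (b - |δ|), P t * P (t + δ)) -
      ((∫ t in Icc (a + |δ|) (b - |δ|), Y t * c (t + δ)) + ∫ t in Icc (a + |δ|) (b - |δ|), Y (t + δ) * c t) +
      ∫ t in Icc (a + |δ|) (b - |δ|), c t * c (t + δ)| ≤
      2 * (Real.sqrt η * Real.sqrt p) + η := by
  set E : ℝ → ℝ := fun t => Y t - c t + P t with hEd
  have hEc : Continuous E := (hY.sub hc).add hP
  set I := Icc (a + |δ|) (b - |δ|) with hI
  have hδ := abs_nonneg δ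
  have hδ1 := le_abs_self δ
  have hδ2 := neg_abs_le δ
  have hs : Continuous (fun t : ℝ => t + δ) := by fun_prop
  have hEd : Continuous (fun t => E (t + δ)) := hEc.comp hs
  have hPd : Continuous (fun t => P (t + δ)) := hP.comp hs
  have hYd : Continuous (fun t => Y (t + δ)) := hY.comp hs
  have hcd : Continuous (fun t => c (t + δ)) := hc.comp hs
  -- pointwise identity
  have hpt : ∀ t, Y t * Y (t + δ) = (P t * P (t + δ)) + (Y t * c (t + δ) + (Y (t + δ) * c t + (-(c t * c (t + δ)) + (-(P t * E (t + δ)) + (-(E t * P (t + δ)) + E t * E (t + δ)))))) := by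
    intro t
    simp only [E]
    ring
  have i1 : IntegrableOn (fun t => P t * P (t + δ)) I := ioc (hP.mul hPd) _ _
  have i2 : IntegrableOn (fun t => Y t * c (t + δ)) I := ioc (hY.mul hcd) _ _
  have i3 : IntegrableOn (fun t => Y (t + δ) * c t) I := ioc (hYd.mul hc) _ _
  have i4 : IntegrableOn (fun t => -(c t * c (t + δ))) I := ioc (hc.mul hcd).neg _ _
  have i5 : IntegrableOn (fun t => -(P t * E (t + δ))) I := ioc (hP.mul hEd).neg _ _
  have i6 : IntegrableOn (fun t => -(E t * P (t + δ))) I := ioc (hEc.mul hPd).neg _ _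
  have i7 : IntegrableOn (fun t => E t * E (t + δ)) I := ioc (hEc.mul hEd) _ _
  have hsum : ∫ t in I, Y t * Y (t + δ) = (∫ t in I, P t * P (t + δ)) + ((∫ t in I, Y t * c (t + δ)) + ((∫ t in I, Y (t + δ) * c t) +
      (-(∫ t in I, c t * c (t + δ)) + (-(∫ t in I, P t * E (t + δ)) + (-(∫ t in I, E t * P (t + δ)) + ∫ t in I, E t * E (t + δ)))))) := by
    simp_rw [hpt]
    have e1 := integral_add (μ := volume.restrict I) i1 (i2.add (i3.add (i4.add (i5.add (i6.add i7)))))
    have e2 := integral_add (μ := volume.restrict I) i2 (i3.add (i4.add (i5.add (i6.add i7))))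
    have e3 := integral_add (μ := volume.restrict I) i3 (i4.add (i5.add (i6.add i7)))
    have e4 := integral_add (μ := volume.restrict I) i4 (i5.add (i6.add i7))
    have e5 := integral_add (μ := volume.restrict I) i5 (i6.add i7)
    have e6 := integral_add (μ := volume.restrict I) i6 i7
    simp only [Pi.add_apply] at e1 e2 e3 e4 e5 e6
    rw [e1, e2, e3, e4, e5, e6, integral_neg, integral_neg, integral_neg]
  have hη : ∫ t in I, E t ^ 2 ≤ η := by
    refine le_trans ?_ hE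
    apply setIntegral_mono_set (ioc (hEc.pow 2) _ _)
    · exact Eventually.of_forall fun t => sq_nonneg _
    · exact (Icc_subset_Icc (by linarith) (by linarith)).eventuallyLE
  have hη' : ∫ t in I, E (t + δ) ^ 2 ≤ η := by
    refine le_trans ?_ hE
    exact shift_int (f := fun t => E t ^ 2) (hEc.pow 2) (fun t => sq_nonneg _) (by linarith) (by linarith)
  have hp1 : ∫ t in I, P t ^ 2 ≤ p := by
    refine le_trans ?_ hp
    apply setIntegral_mono_set (ioc (hP.pow 2) _ _)
    · exact Eventually.of_forall fun t => sq_nonneg _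
    · exact (Icc_subset_Icc (by linarith) (by linarith)).eventuallyLE
  have hp2 : ∫ t in I, P (t + δ) ^ 2 ≤ p := by
    refine le_trans ?_ hp
    exact shift_int (f := fun t => P t ^ 2) (hP.pow 2) (fun t => sq_nonneg _) (by linarith) (by linarith)
  have hη0 : 0 ≤ η := le_trans (integral_nonneg fun t => sq_nonneg _) hE
  have c1 := cs_icc hP hEd (a + |δ|) (b - |δ|)
  have c2 := cs_icc hEc hPd (a + |δ|) (b - |δ|)
  have c3 := cs_icc hEc hEd (a + |δ|) (b - |δ|)
  rw [← hI] at c1 c2 c3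
  have d1 : |∫ t in I, P t * E (t + δ)| ≤ Real.sqrt p * Real.sqrt η := c1.trans (by gcongr)
  have d2 : |∫ t in I, E t * P (t + δ)| ≤ Real.sqrt η * Real.sqrt p := c2.trans (by gcongr)
  have d3 : |∫ t in I, E t * E (t + δ)| ≤ η := by
    calc |∫ t in I, E t * E (t + δ)| ≤ Real.sqrt η * Real.sqrt η := c3.trans (by gcongr)
      _ = η := Real.mul_self_sqrt hη0
  rw [hsum]
  have e : (∫ t in I, P t * P (t + δ)) + ((∫ t in I, Y t * c (t + δ)) + ((∫ t in I, Y (t + δ) * c t) +
      (-(∫ t in I, c t * c (t + δ)) + (-(∫ t in I, P t * E (t + δ)) + (-(∫ t in I, E t * P (t + δ)) + ∫ t in I, E t * E (t + δ)))))) -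
      (∫ t in I, P t * P (t + δ)) - ((∫ t in I, Y t * c (t + δ)) + ∫ t in I, Y (t + δ) * c t) + ∫ t in I, c t * c (t + δ) =
      -(∫ t in I, P t * E (t + δ)) + (-(∫ t in I, E t * P (t + δ)) + ∫ t in I, E t * E (t + δ)) := by ring
  rw [e]
  have a1 := abs_le.mp d1
  have a2 := abs_le.mp d2
  have a3 := abs_le.mp d3
  have hcomm : Real.sqrt p * Real.sqrt η = Real.sqrt η * Real.sqrt p := mul_comm _ _
  rw [hcomm] at a1
  rw [abs_le]
  constructor <;> linarith [a1.1, a1.2, a2.1, a2.2, a3.1, a3.2]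

/-- translation of a set integral -/
lemma icc_shift (f : ℝ → ℝ) (a b δ : ℝ) : ∫ t in Icc a b, f (t + δ) = ∫ t in Icc (a + δ) (b + δ), f t := by
  have h2 : ∫ t, (Icc (a + δ) (b + δ)).indicator f (t + δ) = ∫ t, (Icc (a + δ) (b + δ)).indicator f t :=
    integral_add_right_eq_self _ δ
  rw [← integral_indicator measurableSet_Icc, ← integral_indicator measurableSet_Icc, ← h2]
  congr 1
  funext t
  by_cases h : t ∈ Icc a b
  · have h' : t + δ ∈ Icc (a + δ) (b + δ) := ⟨by linarith [h.1], by linarith [h.2]⟩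
    rw [indicator_of_mem h, indicator_of_mem h']
  · have h' : t + δ ∉ Icc (a + δ) (b + δ) := fun h' => h ⟨by linarith [h'.1], by linarith [h'.2]⟩
    rw [indicator_of_notMem h, indicator_of_notMem h']

lemma Yf_q {F : Finset ZS} {X q : ℝ} (hX : 0 < X) (hq1 : 1 ≤ q) (hqX : 1 ≤ q * X ^ 2) (t : ℝ) : Yf F X t ≤ 5 * q * KS F t := by
  unfold Yf KS
  rw [Finset.mul_sum]
  refine Finset.sum_le_sum fun ρ _ => ?_
  have hm := mx_nonneg (ρ:ℂ)
  calc mx ρ * gs X 0 (t - (ρ:ℂ).im) ≤ mx ρ * (5 * (q * Kd 1 (t - (ρ:ℂ).im))) := by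
        gcongr
        exact (gs_zero_decay hX _).trans (by gcongr; exact Kd_q hq1 hqX)
    _ = _ := by ring

/-- the correlation integral, deterministic form -/
lemma corr_v {T X q a b δ η p lam kc Y0 : ℝ} (hX : 0 < X) (hq1 : 1 ≤ q) (hqX : 1 ≤ q * X ^ 2) (hT : 0 < T)
    (hE : ∫ t in Icc a b, (Yf (ZT T) X t - bt T X t + PS X t) ^ 2 ≤ η) (hp : ∫ t in Icc a b, PS X t ^ 2 ≤ p)
    (hl1 : |(∫ t in Icc (a + |δ|) (b - |δ|), Yf (ZT T) X t * bt T X (t + δ)) - ∫ t in Icc (a + |δ|) (b - |δ|), bt T X t * bt T X (t + δ)| ≤ lam)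
    (hl2 : |(∫ t in Icc (a + |δ| + δ) (b - |δ| + δ), Yf (ZT T) X t * bt T X (t + -δ)) -
      ∫ t in Icc (a + |δ| + δ) (b - |δ| + δ), bt T X t * bt T X (t + -δ)| ≤ lam)
    (hkc : ∫ t in (Icc (a + |δ|) (b - |δ|))ᶜ, KS (ZT T) t ≤ kc) (hY0 : ∀ t, Yf (ZT T) X t ≤ Y0) :
    |(∫ t, Yf (ZT T) X t * Yf (ZT T) X (t + δ)) - ((∫ t in Icc (a + |δ|) (b - |δ|), bt T X t * bt T X (t + δ)) +
      ∫ t in Icc (a + |δ|) (b - |δ|), PS X t * PS X (t + δ))| ≤
      2 * (Real.sqrt η * Real.sqrt p) + η + 2 * lam + Y0 * (5 * q * kc) := by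
  set Y : ℝ → ℝ := Yf (ZT T) X with hY
  have hYc : Continuous Y := Yf_cont _ _
  have hYn : ∀ t, 0 ≤ Y t := Yf_nonneg _ hX
  have hYi : Integrable Y := Yf_integrable _ hX
  have hcb := bt_cont hT X
  have hs : Continuous (fun t : ℝ => t + δ) := by fun_prop
  have hY00 : 0 ≤ Y0 := (hYn 0).trans (hY0 0)
  have hYY : Integrable (fun t => Y t * Y (t + δ)) := by
    refine (hYi.const_mul Y0).mono' (hYc.mul (hYc.comp hs)).aestronglyMeasurable ?_
    filter_upwards with t
    rw [Real.norm_of_nonneg (mul_nonneg (hYn _) (hYn _)), mul_comm]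
    exact mul_le_mul_of_nonneg_right (hY0 _) (hYn _)
  set J := Icc (a + |δ|) (b - |δ|) with hJ
  have hJm : MeasurableSet J := measurableSet_Icc
  have s1 := integral_add_compl (μ := volume) hJm hYY
  have hA0 : 0 ≤ ∫ t in Jᶜ, Y t * Y (t + δ) := integral_nonneg fun t => mul_nonneg (hYn t) (hYn _)
  have iKS : Integrable (KS (ZT T)) := KS_integrable _
  have hA1 : ∫ t in Jᶜ, Y t * Y (t + δ) ≤ Y0 * (5 * q * kc) := by
    have h1 : ∫ t in Jᶜ, Y t * Y (t + δ) ≤ ∫ t in Jᶜ, Y0 * (5 * q * KS (ZT T) t) := by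
      apply setIntegral_mono_on hYY.integrableOn ((iKS.const_mul (5 * q)).const_mul Y0).integrableOn hJm.compl
      intro t _
      have h2 := Yf_q (F := ZT T) hX hq1 hqX t
      rw [← hY] at h2
      rw [mul_comm]
      exact mul_le_mul (hY0 _) h2 (hYn _) hY00
    rw [integral_const_mul, integral_const_mul] at h1
    refine h1.trans ?_
    have hq0 : 0 ≤ q := by linarith
    gcongr
  have hcr := cross_l2v (Y := Y) (P := PS X) (c := bt T X) hYc (PS_cont hX) hcb (δ := δ) hE hp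
  rw [← hJ] at hcr
  have e2 : ∫ t in J, Y (t + δ) * bt T X t = ∫ t in Icc (a + |δ| + δ) (b - |δ| + δ), Y t * bt T X (t + -δ) := by
    rw [hJ, ← icc_shift (fun t => Y t * bt T X (t + -δ)) (a + |δ|) (b - |δ|) δ]
    congr 1
    funext t
    rw [add_neg_cancel_right]
  have e3 : ∫ t in J, bt T X t * bt T X (t + δ) = ∫ t in Icc (a + |δ| + δ) (b - |δ| + δ), bt T X t * bt T X (t + -δ) := by
    rw [hJ, ← icc_shift (fun t => bt T X t * bt T X (t + -δ)) (a + |δ|) (b - |δ|) δ]
    congr 1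
    funext t
    rw [add_neg_cancel_right, mul_comm]
  rw [← e2, ← e3] at hl2
  rw [← s1]
  set A := ∫ t in J, Y t * Y (t + δ)
  set A' := ∫ t in Jᶜ, Y t * Y (t + δ)
  set Q := ∫ t in J, bt T X t * bt T X (t + δ)
  set PP := ∫ t in J, PS X t * PS X (t + δ)
  set u1 := ∫ t in J, Y t * bt T X (t + δ)
  set u2 := ∫ t in J, Y (t + δ) * bt T X t
  have a1 := abs_le.mp hcr
  have a2 := abs_le.mp hl1
  have a3 := abs_le.mp hl2
  rw [abs_le]
  constructor <;> linarith [a1.1, a1.2, a2.1, a2.2, a3.1, a3.2]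

/-- the density integral -/
lemma btbt {T X L B δ : ℝ} (hT : 1 ≤ T) (ha : 8 ≤ T ^ (3/4 : ℝ)) (hL : L = Real.log T) (hL1 : 1 ≤ L) (hB0 : 0 < B) (hX : X = L / B)
    (hδ : T ^ (3/4 : ℝ) + |δ| ≤ T - T ^ (3/4 : ℝ) - |δ|) :
    |(∫ t in Icc (T ^ (3/4 : ℝ) + |δ|) (T - T ^ (3/4 : ℝ) - |δ|), bt T X t * bt T X (t + δ)) -
      (1 / X ^ 2) * (T * ((L - Real.log (2 * Real.pi)) ^ 2 - 2 * (L - Real.log (2 * Real.pi)) + 2))| ≤
      B * (|δ| / (T ^ (3/4 : ℝ) * X)) * T + 12 * B ^ 2 * (T ^ (3/4 : ℝ) + |δ|) := by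
  have hT0 : 0 < T := by linarith
  have hL0 : 0 < L := by linarith
  have hX0 : 0 < X := by rw [hX]; positivity
  have hpi := Real.pi_pos
  have hδ0 := abs_nonneg δ
  have hδ1 := le_abs_self δ
  have hδ2 := neg_abs_le δ
  obtain ⟨a, ha'⟩ : ∃ a, a = T ^ (3/4 : ℝ) := ⟨_, rfl⟩
  have hbb := bt_bound hT ha hL hB0 hL0 hX
  have hlip := bt_lip hT0 hX0
  rw [← ha'] at hlip hδ ha ⊢
  obtain ⟨α, hα⟩ : ∃ α, α = a + |δ| := ⟨_, rfl⟩
  obtain ⟨β, hβ⟩ : ∃ β, β = T - a - |δ| := ⟨_, rfl⟩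
  rw [← hα, ← hβ] at hδ ⊢
  have hα0 : 0 < α := by rw [hα]; linarith
  have hcb := bt_cont hT0 X
  have hs : Continuous (fun t : ℝ => t + δ) := by fun_prop
  -- step 1: replace the shifted density
  have h1 : |(∫ t in Icc α β, bt T X t * bt T X (t + δ)) - ∫ t in Icc α β, bt T X t * bt T X t| ≤ B * (|δ| / (a * X)) * T := by
    have i1 : IntegrableOn (fun t => bt T X t * bt T X (t + δ)) (Icc α β) := ioc (hcb.mul (hcb.comp hs)) _ _
    have i2 : IntegrableOn (fun t => bt T X t * bt T X t) (Icc α β) := ioc (hcb.mul hcb) _ _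
    rw [← integral_sub i1 i2]
    have h := norm_setIntegral_le_of_norm_le_const (μ := volume) (s := Icc α β) (f := fun t => bt T X t * bt T X (t + δ) - bt T X t * bt T X t) (C := B * (|δ| / (a * X)))
      (by rw [Real.volume_Icc]; exact ENNReal.ofReal_lt_top) (by
        intro t _
        have e : bt T X t * bt T X (t + δ) - bt T X t * bt T X t = bt T X t * (bt T X (t + δ) - bt T X t) := by ring
        rw [e, norm_mul, Real.norm_eq_abs, Real.norm_eq_abs]
        have h2 := hlip (t + δ) t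
        rw [add_sub_cancel_left] at h2
        gcongr
        exact hbb t)
    rw [Real.norm_eq_abs, Real.volume_real_Icc_of_le hδ] at h
    refine h.trans ?_
    gcongr
    rw [hβ]
    linarith
  -- step 2: evaluate
  have hF : ∀ x y : ℝ, 0 < x → x ≤ y → ∫ t in x..y, Real.log (t / (2 * Real.pi)) ^ 2 =
      y * (Real.log (y / (2 * Real.pi)) ^ 2 - 2 * Real.log (y / (2 * Real.pi)) + 2) - x * (Real.log (x / (2 * Real.pi)) ^ 2 - 2 * Real.log (x / (2 * Real.pi)) + 2) := by
    intro x y hx hxy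
    apply intervalIntegral.integral_eq_sub_of_hasDerivAt (f := fun t => t * (Real.log (t / (2 * Real.pi)) ^ 2 - 2 * Real.log (t / (2 * Real.pi)) + 2))
    · intro t ht
      rw [uIcc_of_le hxy] at ht
      have ht0 : 0 < t := by linarith [ht.1]
      have h2 : HasDerivAt (fun t : ℝ => t / (2 * Real.pi)) (1 / (2 * Real.pi)) t := (hasDerivAt_id t).div_const _
      have h3 := h2.log (by positivity)
      have h4 := (hasDerivAt_id t).mul (((h3.pow 2).sub (h3.const_mul 2)).add_const 2)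
      refine h4.congr_deriv ?_
      simp only [id, Pi.sub_apply, Pi.pow_apply]
      field_simp
      ring
    · apply ContinuousOn.intervalIntegrable
      rw [uIcc_of_le hxy]
      apply ContinuousOn.pow
      apply ContinuousOn.log (by fun_prop)
      intro t ht
      have : 0 < t := by linarith [ht.1]
      positivity
  have h2 : ∫ t in Icc α β, bt T X t * bt T X t = (1 / X ^ 2) * ∫ t in α..β, Real.log (t / (2 * Real.pi)) ^ 2 := by
    rw [← intervalIntegral.integral_const_mul, intervalIntegral.integral_of_le hδ, ← integral_Icc_eq_integral_Ioc]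
    apply setIntegral_congr_fun measurableSet_Icc
    intro t ht
    simp only
    unfold bt
    rw [cl_eq (by rw [← ha']; linarith [ht.1]) (by linarith [ht.2])]
    field_simp
  have hl0 : ∀ t : ℝ, 8 ≤ t → t ≤ T → 0 ≤ Real.log (t / (2 * Real.pi)) ∧ Real.log (t / (2 * Real.pi)) ≤ L := by
    intro t ht htT
    have hpi4 := Real.pi_lt_four
    constructor
    · apply Real.log_nonneg
      rw [le_div_iff₀ (by positivity)]
      linarith
    · rw [hL]
      apply Real.log_le_log (by positivity)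
      calc t / (2 * Real.pi) ≤ t / 1 := by
            apply div_le_div_of_nonneg_left (by linarith) one_pos
            linarith [Real.pi_gt_three]
        _ ≤ T := by rw [div_one]; exact htT
  have hTlog : Real.log (T / (2 * Real.pi)) = L - Real.log (2 * Real.pi) := by
    rw [Real.log_div hT0.ne' (by positivity), hL]
  have h3 := hF α β hα0 hδ
  have h4 := hF β T (by linarith) (by linarith)
  have h5 : |∫ t in β..T, Real.log (t / (2 * Real.pi)) ^ 2| ≤ L ^ 2 * (a + |δ|) := by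
    have h := intervalIntegral.norm_integral_le_of_norm_le_const (a := β) (b := T) (C := L ^ 2) (f := fun t => Real.log (t / (2 * Real.pi)) ^ 2) (by
      intro t ht
      rw [uIoc_of_le (by linarith)] at ht
      rw [Real.norm_eq_abs, abs_of_nonneg (sq_nonneg _)]
      obtain ⟨h6, h7⟩ := hl0 t (by linarith [ht.1]) ht.2
      gcongr)
    rw [Real.norm_eq_abs, abs_of_nonneg (by linarith : 0 ≤ T - β)] at h
    refine h.trans ?_
    apply mul_le_mul_of_nonneg_left _ (by positivity)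
    rw [hβ]
    linarith
  have h6 : |α * (Real.log (α / (2 * Real.pi)) ^ 2 - 2 * Real.log (α / (2 * Real.pi)) + 2)| ≤ 5 * L ^ 2 * (a + |δ|) := by
    obtain ⟨h7, h8⟩ := hl0 α (by linarith) (by linarith)
    set u := Real.log (α / (2 * Real.pi))
    rw [abs_mul, abs_of_pos hα0, mul_comm]
    rw [← hα]
    have h9 : |u ^ 2 - 2 * u + 2| ≤ 5 * L ^ 2 := by
      rw [abs_le]
      constructor <;> nlinarith
    gcongr
  rw [hTlog] at h4
  set J1 := ∫ t in α..β, Real.log (t / (2 * Real.pi)) ^ 2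
  set J2 := ∫ t in β..T, Real.log (t / (2 * Real.pi)) ^ 2
  set M := T * ((L - Real.log (2 * Real.pi)) ^ 2 - 2 * (L - Real.log (2 * Real.pi)) + 2)
  have h7 : |J1 - M| ≤ 6 * L ^ 2 * (a + |δ|) := by
    have e : J1 - M = -J2 - α * (Real.log (α / (2 * Real.pi)) ^ 2 - 2 * Real.log (α / (2 * Real.pi)) + 2) := by linarith
    rw [e]
    refine (abs_sub _ _).trans ?_
    rw [abs_neg]
    linarith
  have h8 : |(1 / X ^ 2) * J1 - (1 / X ^ 2) * M| ≤ 6 * B ^ 2 * (a + |δ|) := by
    rw [← mul_sub, abs_mul, abs_of_pos (by positivity)]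
    calc 1 / X ^ 2 * |J1 - M| ≤ 1 / X ^ 2 * (6 * L ^ 2 * (a + |δ|)) := by gcongr
      _ = 6 * B ^ 2 * (a + |δ|) := by
          rw [hX]
          field_simp
  rw [h2] at h1
  have hx : 0 ≤ 6 * B ^ 2 * (a + |δ|) := by
    have : 0 ≤ a := by linarith
    positivity
  rw [← hα] at h8 hx
  have a1 := abs_le.mp h1
  have a2 := abs_le.mp h8
  rw [abs_le]
  constructor <;> linarith [a1.1, a1.2, a2.1, a2.2]

end Pool.Agent.Helper57.UV
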