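import Pool.Agent.Helper57.US.Dig

namespace Pool.Agent.Helper57.UV

open Complex Set MeasureTheory Filter Topology
open Pool.Agent.Helper57.Zeta
open Pool.Agent.Helper57.LH
open Pool.Agent.Helper57.US

/-- difference of the two main sums, termwise, all scales -/
lemma term_diff_r {X r t : ℝ} (hX0 : 0 < X) (hr : 1 ≤ r) (hrX : 1 ≤ r * X) (ht : 1 ≤ t) (n : ℕ) :
    |(1 / ((n:ℝ) + 1) - 2 * (JJ X ((3 / 2 - 2 * ((n:ℝ) + 1) : ℝ) + t * I)).re) - Dn n t| ≤ 7 * r * (1 / ((n:ℝ) ^ 2 + t ^ 2)) := by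
  have hn0 : (0:ℝ) ≤ n := Nat.cast_nonneg n
  have hr0 : 0 < r := by linarith
  set b : ℝ := 2 * ((n:ℝ) + 1) - 3 / 2 with hb
  have hb0 : 0 < b := by rw [hb]; linarith
  have hz : (((3 / 2 - 2 * ((n:ℝ) + 1) : ℝ) : ℂ) + t * I) = ((-b : ℝ) : ℂ) + t * I := by
    congr 2; rw [hb]; ring
  rw [hz]
  have hz0 : ((-b : ℝ) : ℂ) + t * I ≠ 0 := z_ne (by linarith) t
  rw [JJ_eq hX0 hz0, Complex.add_re, Complex.neg_re, one_div, one_div, Complex.inv_re, normSq_z]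
  have e1 : (((-b : ℝ) : ℂ) + t * I).re = -b := by simp
  rw [e1]
  set q := ((cexp ((((-b : ℝ) : ℂ) + t * I) * X) - 1) / (X * (((-b : ℝ) : ℂ) + t * I) ^ 2)).re with hq
  have hq1 : |q| ≤ 2 * r / (b ^ 2 + t ^ 2) := by
    rw [hq]
    refine (Complex.abs_re_le_norm _).trans ?_
    rw [norm_div, norm_mul, norm_pow, Complex.norm_real, Real.norm_of_nonneg hX0.le, ← Complex.normSq_eq_norm_sq, normSq_z, neg_sq]
    have h1 : ‖cexp ((((-b : ℝ) : ℂ) + t * I) * X) - 1‖ ≤ 2 := by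
      refine (norm_sub_le _ _).trans ?_
      rw [Complex.norm_exp, norm_one]
      have : ((((-b : ℝ) : ℂ) + t * I) * X).re ≤ 0 := by
        simp
        positivity
      have := Real.exp_le_one_iff.mpr this
      linarith
    have hP : 0 < b ^ 2 + t ^ 2 := by positivity
    calc ‖cexp ((((-b : ℝ) : ℂ) + t * I) * X) - 1‖ / (X * (b ^ 2 + t ^ 2)) ≤ 2 / (X * (b ^ 2 + t ^ 2)) := by gcongr
      _ ≤ 2 * r / (b ^ 2 + t ^ 2) := by
          rw [div_le_div_iff₀ (by positivity) hP]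
          have h2 : 2 * (b ^ 2 + t ^ 2) * 1 ≤ 2 * (b ^ 2 + t ^ 2) * (r * X) := by gcongr
          linarith
  unfold Dn
  have hab : 2 * ((n:ℝ) + 1) = b + 3 / 2 := by rw [hb]; ring
  rw [hab]
  have e2 : (((n:ℝ) + 1)⁻¹ - 2 * (-(-b / ((-b) ^ 2 + t ^ 2)) + q)) - (1 / ((n:ℝ) + 1) - 2 * ((b + 3 / 2) / ((b + 3 / 2) ^ 2 + t ^ 2))) =
      -(3 * (b * (b + 3 / 2) - t ^ 2) / ((b ^ 2 + t ^ 2) * ((b + 3 / 2) ^ 2 + t ^ 2))) - 2 * q := by
    field_simp
    ring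
  rw [e2]
  have h3 : |3 * (b * (b + 3 / 2) - t ^ 2) / ((b ^ 2 + t ^ 2) * ((b + 3 / 2) ^ 2 + t ^ 2))| ≤ 3 / (b ^ 2 + t ^ 2) := by
    rw [abs_div, abs_of_pos (by positivity : 0 < (b ^ 2 + t ^ 2) * ((b + 3 / 2) ^ 2 + t ^ 2)), div_le_div_iff₀ (by positivity) (by positivity), abs_mul,
      abs_of_pos (by norm_num : (0:ℝ) < 3)]
    have h4 : |b * (b + 3 / 2) - t ^ 2| ≤ (b + 3 / 2) ^ 2 + t ^ 2 := by
      rw [abs_le]
      constructor <;> nlinarith [sq_nonneg t, mul_pos hb0 hb0]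
    calc 3 * |b * (b + 3 / 2) - t ^ 2| * (b ^ 2 + t ^ 2) ≤ 3 * ((b + 3 / 2) ^ 2 + t ^ 2) * (b ^ 2 + t ^ 2) := by gcongr
      _ = _ := by ring
  have h5 : 7 * r / (b ^ 2 + t ^ 2) ≤ 7 * r * (1 / ((n:ℝ) ^ 2 + t ^ 2)) := by
    rw [mul_one_div]
    gcongr
    rw [hb]; linarith
  have hD : 0 < b ^ 2 + t ^ 2 := by positivity
  calc |-(3 * (b * (b + 3 / 2) - t ^ 2) / ((b ^ 2 + t ^ 2) * ((b + 3 / 2) ^ 2 + t ^ 2))) - 2 * q|
      ≤ |-(3 * (b * (b + 3 / 2) - t ^ 2) / ((b ^ 2 + t ^ 2) * ((b + 3 / 2) ^ 2 + t ^ 2)))| + |2 * q| := abs_sub _ _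
    _ ≤ 3 * r / (b ^ 2 + t ^ 2) + 2 * (2 * r / (b ^ 2 + t ^ 2)) := by
        rw [abs_neg, abs_mul, abs_of_pos (by norm_num : (0:ℝ) < 2)]
        gcongr
        refine h3.trans ?_
        gcongr
        linarith
    _ = 7 * r / (b ^ 2 + t ^ 2) := by ring
    _ ≤ _ := h5

/-- the archimedean main term at all scales -/
theorem MT_asym_r {X r t : ℝ} (hX0 : 0 < X) (hr : 1 ≤ r) (hrX : 1 ≤ r * X) (ht : 2 ≤ t) (hXt : Real.exp (X / 2) ≤ t) :
    |MT X t - Real.log (t / (2 * Real.pi))| ≤ 50 * r / t := by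
  have ht0 : 0 < t := by linarith
  have hr0 : 0 < r := by linarith
  have hpi := Real.pi_pos
  have hXr : 1 / X ≤ r := by rw [div_le_iff₀ hX0]; exact hrX
  have hJ1 : |(JJ X ((3 / 2 - 2 : ℝ) + t * I)).re| ≤ 3 * r / t := by
    have h := JJ_re_le hX0 (z_ne (a := 3/2 - 2) (by norm_num) t)
    rw [normSq_z] at h
    refine h.trans ?_
    have e1 : (((3 / 2 - 2 : ℝ) : ℂ) + t * I).re = -(1/2) := by simp; norm_num
    rw [e1]
    have h2 : Real.exp (-(1/2) * X) ≤ 1 := Real.exp_le_one_iff.mpr (by linarith)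
    have h3 : (Real.exp (-(1/2) * X) + 1) / X ≤ 2 * r := by
      calc (Real.exp (-(1/2) * X) + 1) / X ≤ (1 + 1) / X := by gcongr
        _ = 2 * (1 / X) := by ring
        _ ≤ 2 * r := by gcongr
    rw [abs_neg, abs_of_pos (by norm_num : (0:ℝ) < 1/2), div_le_div_iff₀ (by positivity) ht0]
    calc (1 / 2 + (Real.exp (-(1/2) * X) + 1) / X) * t ≤ (1 / 2 + 2 * r) * t := by gcongr
      _ ≤ 3 * r * t := by
          apply mul_le_mul_of_nonneg_right _ ht0.le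
          linarith
      _ ≤ 3 * r * ((3 / 2 - 2) ^ 2 + t ^ 2) := by
          apply mul_le_mul_of_nonneg_left _ (by positivity)
          nlinarith
  have hJ2 : |(JJ X ((3 / 2 - 1 : ℝ) + t * I)).re| ≤ 4 * r / t := by
    have h := JJ_re_le hX0 (z_ne (a := 3/2 - 1) (by norm_num) t)
    rw [normSq_z] at h
    refine h.trans ?_
    have e1 : (((3 / 2 - 1 : ℝ) : ℂ) + t * I).re = 1/2 := by simp; norm_num
    rw [e1]
    have h2 : Real.exp (1/2 * X) ≤ t := by rw [show 1/2 * X = X / 2 by ring]; exact hXt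
    have h3 : (Real.exp (1/2 * X) + 1) / X ≤ (t + 1) * r := by
      calc (Real.exp (1/2 * X) + 1) / X ≤ (t + 1) / X := by gcongr
        _ = (t + 1) * (1 / X) := by ring
        _ ≤ (t + 1) * r := by gcongr
    rw [abs_of_pos (by norm_num : (0:ℝ) < 1/2), div_le_div_iff₀ (by positivity) ht0]
    calc (1 / 2 + (Real.exp (1/2 * X) + 1) / X) * t ≤ (1 / 2 + (t + 1) * r) * t := by gcongr
      _ ≤ (4 * r * t) * t := by
          apply mul_le_mul_of_nonneg_right _ ht0.le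
          nlinarith
      _ = 4 * r * t ^ 2 := by ring
      _ ≤ 4 * r * ((3 / 2 - 1) ^ 2 + t ^ 2) := by
          apply mul_le_mul_of_nonneg_left _ (by positivity)
          nlinarith
  -- the sum
  set Tn : ℕ → ℝ := fun n => 1 / ((n:ℝ) + 1) - 2 * (JJ X ((3 / 2 - 2 * ((n:ℝ) + 1) : ℝ) + t * I)).re with hTn
  have hs0 : ∀ K : ℕ, ∑ n ∈ Finset.range K, 7 * r * (1 / ((n:ℝ) ^ 2 + t ^ 2)) ≤ 28 * r / t := by
    intro K
    rw [← Finset.mul_sum]
    have := sum_inv_add_sq (w := t) (by linarith) K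
    calc 7 * r * ∑ n ∈ Finset.range K, 1 / ((n:ℝ) ^ 2 + t ^ 2) ≤ 7 * r * (4 / t) := by gcongr
      _ = _ := by ring
  have hs : Summable (fun n : ℕ => 7 * r * (1 / ((n:ℝ) ^ 2 + t ^ 2))) :=
    summable_of_sum_range_le (fun n => by positivity) hs0
  have hs28 : ∑' n : ℕ, 7 * r * (1 / ((n:ℝ) ^ 2 + t ^ 2)) ≤ 28 * r / t := Real.tsum_le_of_sum_range_le (fun n => by positivity) hs0
  have hd : Summable (fun n => Tn n - Dn n t) := Summable.of_norm_bounded hs (fun n => by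
    rw [Real.norm_eq_abs]; exact term_diff_r hX0 hr hrX (by linarith) n)
  have hTs : Summable Tn := by
    have := hd.add (Dn_summable t)
    refine this.congr fun n => by ring
  have h1 : |∑' n, Tn n - ∑' n, Dn n t| ≤ 28 * r / t := by
    rw [← hTs.tsum_sub (Dn_summable t), ← Real.norm_eq_abs]
    refine (tsum_of_norm_bounded hs.hasSum (fun n => ?_)).trans hs28
    rw [Real.norm_eq_abs]; exact term_diff_r hX0 hr hrX (by linarith) n
  have h2 := Dn_sum_asym ht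
  have hlog : Real.log (t / (2 * Real.pi)) = Real.log (t / 2) - Real.log Real.pi := by
    rw [← Real.log_div (by positivity) hpi.ne']
    congr 1
    field_simp
  unfold MT
  rw [hlog]
  have e : (2 * (JJ X ((3 / 2 - 2 : ℝ) + t * I)).re + 2 * (JJ X ((3 / 2 - 1 : ℝ) + t * I)).re -
      (Real.log Real.pi + Real.eulerMascheroniConstant) + ∑' n, Tn n) - (Real.log (t / 2) - Real.log Real.pi) =
      2 * (JJ X ((3 / 2 - 2 : ℝ) + t * I)).re + 2 * (JJ X ((3 / 2 - 1 : ℝ) + t * I)).re +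
      (∑' n, Tn n - ∑' n, Dn n t) + (∑' n, Dn n t - (Real.eulerMascheroniConstant + Real.log (t / 2))) := by ring
  have hTT : (∑' n : ℕ, (1 / ((n:ℝ) + 1) - 2 * (JJ X ((3 / 2 - 2 * ((n:ℝ) + 1) : ℝ) + t * I)).re)) = ∑' n, Tn n := rfl
  rw [hTT, e]
  set A1 := (JJ X ((3 / 2 - 2 : ℝ) + t * I)).re
  set A2 := (JJ X ((3 / 2 - 1 : ℝ) + t * I)).re
  have h8 : 8 / t ≤ 8 * r / t := by
    gcongr
    linarith
  have g1 := abs_le.mp hJ1
  have g2 := abs_le.mp hJ2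
  have g5 := abs_le.mp h1
  have g6 := abs_le.mp (h2.trans h8)
  have e3 : 3 * r / t = 3 * (r / t) := by ring
  have e4 : 4 * r / t = 4 * (r / t) := by ring
  have e28 : 28 * r / t = 28 * (r / t) := by ring
  have e8 : 8 * r / t = 8 * (r / t) := by ring
  have e50 : 50 * r / t = 50 * (r / t) := by ring
  rw [e3] at g1
  rw [e4] at g2
  rw [e28] at g5
  rw [e8] at g6
  rw [e50]
  rw [abs_le]
  constructor <;> linarith [g1.1, g1.2, g2.1, g2.2, g5.1, g5.2, g6.1, g6.2]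

end Pool.Agent.Helper57.UV
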