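import Pool.Agent.Helper57.UV.Approx
import Pool.Agent.Helper57.UV.MTq
import Pool.Agent.Helper57.LS.EL2

namespace Pool.Agent.Helper57.UV

open Set MeasureTheory Filter Topology
open Pool.Agent.Helper57.LH
open Pool.Agent.Helper57.Zeta
open Pool.Agent.Helper57.LS
open Pool.Agent.Helper57.US

/-- clamped ordinate -/
noncomputable def cl (T t : ℝ) : ℝ := max (T ^ (3/4 : ℝ)) (min t T)

/-- the density of zeros at scale `X`, clamped -/
noncomputable def bt (T X t : ℝ) : ℝ := Real.log (cl T t / (2 * Real.pi)) / X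

lemma cl_cont (T : ℝ) : Continuous (cl T) := by unfold cl; fun_prop

lemma cl_ge (T t : ℝ) : T ^ (3/4 : ℝ) ≤ cl T t := le_max_left _ _

lemma cl_le {T : ℝ} (hT : 1 ≤ T) (t : ℝ) : cl T t ≤ T := by
  unfold cl
  apply max_le _ (min_le_right _ _)
  calc T ^ (3/4 : ℝ) ≤ T ^ (1:ℝ) := Real.rpow_le_rpow_of_exponent_le hT (by norm_num)
    _ = T := Real.rpow_one T

lemma cl_eq {T t : ℝ} (h1 : T ^ (3/4 : ℝ) ≤ t) (h2 : t ≤ T) : cl T t = t := by
  unfold cl
  rw [min_eq_left h2, max_eq_right h1]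

lemma cl_lip (T s t : ℝ) : |cl T s - cl T t| ≤ |s - t| := by
  unfold cl
  have h1 := abs_max_sub_max_le_abs (min s T) (min t T) (T ^ (3/4 : ℝ))
  have h2 := abs_min_sub_min_le_max s T t T
  rw [sub_self, abs_zero, max_eq_left (abs_nonneg _)] at h2
  rw [max_comm (T ^ (3/4 : ℝ)), max_comm (T ^ (3/4 : ℝ))]
  exact h1.trans h2

lemma bt_cont {T : ℝ} (hT : 0 < T) (X : ℝ) : Continuous (bt T X) := by
  unfold bt
  have hpi := Real.pi_pos
  have hp : 0 < T ^ (3/4 : ℝ) := Real.rpow_pos_of_pos hT _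
  apply Continuous.div_const
  apply Continuous.log
  · exact (cl_cont T).div_const _
  · intro t
    have := cl_ge T t
    have : 0 < cl T t := by linarith
    positivity

lemma bt_bound {T X L B : ℝ} (hT : 1 ≤ T) (ha : 8 ≤ T ^ (3/4 : ℝ)) (hL : L = Real.log T) (hB0 : 0 < B) (hL0 : 0 < L) (hX : X = L / B) (t : ℝ) :
    |bt T X t| ≤ B := by
  unfold bt
  have hpi := Real.pi_pos
  have hpi4 := Real.pi_lt_four
  have h1 := cl_ge T t
  have h2 := cl_le hT t
  have hX0 : 0 < X := by rw [hX]; positivity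
  have hc : 0 < cl T t := by linarith
  have h3 : 0 ≤ Real.log (cl T t / (2 * Real.pi)) := by
    apply Real.log_nonneg
    rw [le_div_iff₀ (by positivity)]
    linarith
  have h4 : Real.log (cl T t / (2 * Real.pi)) ≤ L := by
    rw [hL]
    apply Real.log_le_log (by positivity)
    calc cl T t / (2 * Real.pi) ≤ cl T t / 1 := by
          apply div_le_div_of_nonneg_left hc.le one_pos
          linarith [Real.pi_gt_three]
      _ ≤ T := by rw [div_one]; exact h2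
  rw [abs_of_nonneg (by positivity), div_le_iff₀ hX0, hX]
  have : B * (L / B) = L := by field_simp
  linarith

lemma bt_lip {T X : ℝ} (hT : 0 < T) (hX0 : 0 < X) (s t : ℝ) : |bt T X s - bt T X t| ≤ |s - t| / (T ^ (3/4 : ℝ) * X) := by
  unfold bt
  have hpi := Real.pi_pos
  have ha : 0 < T ^ (3/4 : ℝ) := Real.rpow_pos_of_pos hT _
  have key : ∀ x y : ℝ, 0 < x → 0 < y → T ^ (3/4 : ℝ) ≤ y → Real.log x - Real.log y ≤ |x - y| / T ^ (3/4 : ℝ) := by
    intro x y hx hy hya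
    have h1 : Real.log x - Real.log y = Real.log (x / y) := (Real.log_div hx.ne' hy.ne').symm
    have h2 := Real.log_le_sub_one_of_pos (div_pos hx hy)
    have h3 : x / y - 1 = (x - y) / y := by field_simp
    rw [h1]
    calc Real.log (x / y) ≤ (x - y) / y := by rw [← h3]; exact h2
      _ ≤ |x - y| / y := by
          gcongr
          exact le_abs_self _
      _ ≤ |x - y| / T ^ (3/4 : ℝ) := by gcongr
  have hs := cl_ge T s
  have ht := cl_ge T t
  have hs0 : 0 < cl T s := by linarith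
  have ht0 : 0 < cl T t := by linarith
  rw [Real.log_div hs0.ne' (by positivity), Real.log_div ht0.ne' (by positivity)]
  have e : (Real.log (cl T s) - Real.log (2 * Real.pi)) / X - (Real.log (cl T t) - Real.log (2 * Real.pi)) / X = (Real.log (cl T s) - Real.log (cl T t)) / X := by ring
  rw [e, abs_div, abs_of_pos hX0, div_le_div_iff₀ hX0 (by positivity)]
  have h5 : |Real.log (cl T s) - Real.log (cl T t)| ≤ |s - t| / T ^ (3/4 : ℝ) := by
    have hl := cl_lip T s t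
    rw [abs_le]
    constructor
    · have h6 := key (cl T t) (cl T s) ht0 hs0 hs
      rw [abs_sub_comm (cl T t)] at h6
      have h7 : |cl T s - cl T t| / T ^ (3/4 : ℝ) ≤ |s - t| / T ^ (3/4 : ℝ) := by gcongr
      linarith
    · have h6 := key (cl T s) (cl T t) hs0 ht0 ht
      have h7 : |cl T s - cl T t| / T ^ (3/4 : ℝ) ≤ |s - t| / T ^ (3/4 : ℝ) := by gcongr
      linarith
  rw [le_div_iff₀ ha] at h5
  nlinarith

lemma pow_small {T c s : ℝ} (hT : 1 ≤ T) (h : c * Real.log T ^ 0 * T ^ s ≤ T) : c * T ^ (s - 1) ≤ 1 := by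
  have hT0 : 0 < T := by linarith
  rw [pow_zero, mul_one] at h
  have e : T ^ (s - 1) = T ^ s / T := by rw [Real.rpow_sub hT0, Real.rpow_one]
  rw [e, ← mul_div_assoc, div_le_one hT0]
  exact h

/-- basic facts about the scale parameters -/
lemma scale_facts {T L B X : ℝ} (hT1 : 1 ≤ T) (hL1 : 1 ≤ L) (hB0 : 0 < B) (hBT : B ≤ T ^ (1/100 : ℝ)) (hX : X = L / B) :
    1 ≤ T ^ (1/100 : ℝ) * X ∧ 1 ≤ T ^ (1/50 : ℝ) * X ^ 2 := by
  have hT0 : 0 < T := by linarith
  have h1 : 1 ≤ T ^ (1/100 : ℝ) * X := by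
    rw [hX, ← mul_div_assoc, le_div_iff₀ hB0, one_mul]
    calc B ≤ T ^ (1/100 : ℝ) := hBT
      _ = T ^ (1/100 : ℝ) * 1 := (mul_one _).symm
      _ ≤ T ^ (1/100 : ℝ) * L := by gcongr
  refine ⟨h1, ?_⟩
  have e0 : (T ^ (1/100 : ℝ)) ^ 2 = T ^ (1/50 : ℝ) := by
    rw [← Real.rpow_natCast, ← Real.rpow_mul hT0.le]
    norm_num
  have e : T ^ (1/50 : ℝ) * X ^ 2 = (T ^ (1/100 : ℝ) * X) ^ 2 := by
    rw [mul_pow, e0]
  rw [e]
  exact one_le_pow₀ h1

lemma inv16' {B : ℝ} (hB : 1 ≤ B) : (1:ℝ) / (16 * B ^ 2) ≤ 1 := by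
  rw [div_le_one (by positivity)]
  nlinarith

lemma sq2' (R i : ℝ) : (R + 2 * i) ^ 2 ≤ 2 * R ^ 2 + 8 * i ^ 2 := by nlinarith [sq_nonneg (R - 2 * i)]

/-- L² approximation, with the variable density, at all scales up to a power of `T`. -/
theorem E_l2V : ∃ K : ℝ, 0 < K ∧ ∀ᶠ T : ℝ in atTop, ∀ B : ℝ, 9600 ≤ B → B ≤ T ^ (1/100 : ℝ) →
    ∫ t in Icc (T ^ (3/4 : ℝ)) (T - T ^ (3/4 : ℝ)), (Yf (ZT T) (Real.log T / B) t - bt T (Real.log T / B) t + PS (Real.log T / B) t) ^ 2 ≤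
      K * (T / B ^ 2) := by
  obtain ⟨CQ, hCQ, T0, hT0, hQ⟩ := Qbound
  set K : ℝ := 1152 * Real.pi ^ 2 * CQ + 1 with hK
  have hK0 : 0 < K := by rw [hK]; positivity
  refine ⟨2 * K + 8, by positivity, ?_⟩
  have hl := Real.tendsto_log_atTop
  have hC1 := C1_nonneg
  have hCA := CA_nonneg
  have hCT := CT2_nonneg
  filter_upwards [eventually_ge_atTop T0, eventually_ge_atTop (400:ℝ), hl.eventually_ge_atTop 40,
    log_pow_le 2 0 (s := 3/4) (by norm_num), log_pow_le (1152 * (40 * CA * C1) ^ 2) 6 (s := 1/25 + 1/9600 + 3/4) (by norm_num),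
    log_pow_le (5 * CT2) 0 (s := 1/50 + 1/100 + 15/16) (by norm_num), log_pow_le 50 0 (s := 1/50 + 1/100 + 1/4) (by norm_num)] with T g1 g2 g3 g4 g9 g10 g11 B hB hBT
  have hT0' : 0 < T := by linarith
  have hT1 : 1 ≤ T := by linarith
  have hB0 : 0 < B := by linarith
  have g10' := pow_small hT1 g10
  have g11' := pow_small hT1 g11
  have e7 : Real.exp (Real.log T / B) = T ^ (1 / B) := by
    rw [Real.rpow_def_of_pos hT0']; congr 1; ring
  obtain ⟨L, hL⟩ : ∃ L, L = Real.log T := ⟨_, rfl⟩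
  obtain ⟨X, hX⟩ : ∃ X, X = L / B := ⟨_, rfl⟩
  rw [← hL, ← hX] at e7
  rw [← hL] at g3 g4 g9 ⊢
  rw [← hX]
  have hL0 : 0 < L := by linarith
  have hX0 : 0 < X := by rw [hX]; positivity
  obtain ⟨hrX, hqX⟩ := scale_facts (T := T) (L := L) (B := B) (X := X) hT1 (by linarith) hB0 hBT hX
  have hr1 : 1 ≤ T ^ (1/100 : ℝ) := Real.one_le_rpow hT1 (by norm_num)
  have hq1 : 1 ≤ T ^ (1/50 : ℝ) := Real.one_le_rpow hT1 (by norm_num)
  obtain ⟨q, hq⟩ : ∃ q, q = T ^ (1/50 : ℝ) := ⟨_, rfl⟩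
  obtain ⟨r, hr⟩ : ∃ r, r = T ^ (1/100 : ℝ) := ⟨_, rfl⟩
  rw [← hq] at hqX hq1
  rw [← hr] at hrX hr1 hBT
  obtain ⟨a, ha⟩ : ∃ a, a = T ^ (3/4 : ℝ) := ⟨_, rfl⟩
  rw [← ha]
  have hsT : Real.sqrt T = T ^ (1/2 : ℝ) := Real.sqrt_eq_rpow T
  have hsT20 : 20 ≤ Real.sqrt T := by
    rw [Real.le_sqrt (by norm_num) hT0'.le]
    linarith
  have haT2 : Real.sqrt T ≤ a := by
    rw [hsT, ha]
    exact Real.rpow_le_rpow_of_exponent_le (by linarith) (by norm_num)
  have ha20 : 20 ≤ a := hsT20.trans haT2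
  have ha2T : 2 * a ≤ T := by rw [ha]; simpa using g4
  obtain ⟨Ψ, hΨc, hΨ0, hΨi, hΨd⟩ := hQ T g1 B hB
  have hdom : DomPsi T B Ψ := hΨd
  have hRB := RBq_sq (T := T) (L := L) (B := B) (X := X) (q := q) (a := a) (C := CQ) hL0 hB0 hX (by linarith) (by linarith) (by linarith) haT2 hΨc hΨ0 hΨi
  have hDC : 1152 * L ^ 2 * (q * DC B L) ^ 2 * T ^ (3/4 : ℝ) ≤ T / B ^ 2 := by
    have e1 : DC B L ^ 2 = L ^ 4 * (40 * CA * C1) ^ 2 / (16 * B ^ 4) * T ^ (1 / B) := by
      unfold DC WM Wt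
      have e2 : Real.exp (L / 2 / B) ^ 2 = T ^ (1 / B) := by
        rw [← e7, ← Real.exp_nat_mul, hX]
        congr 1
        push_cast
        ring
      rw [← e2]
      field_simp
      ring
    have e3 : q ^ 2 = T ^ (1/25 : ℝ) := by
      rw [hq, ← Real.rpow_natCast, ← Real.rpow_mul hT0'.le]; norm_num
    rw [mul_pow, e1, e3, le_div_iff₀ (by positivity)]
    have h1 : T ^ (1 / B) ≤ T ^ (1 / 9600 : ℝ) :=
      Real.rpow_le_rpow_of_exponent_le (by linarith) (one_div_le_one_div_of_le (by norm_num) hB)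
    have h2 : (1:ℝ) / (16 * B ^ 2) ≤ 1 := inv16' (by linarith)
    have hTp : 0 < T ^ (3/4 : ℝ) := by positivity
    have hTp2 : 0 < T ^ (1/25 : ℝ) := by positivity
    calc 1152 * L ^ 2 * (T ^ (1/25 : ℝ) * (L ^ 4 * (40 * CA * C1) ^ 2 / (16 * B ^ 4) * T ^ (1 / B))) * T ^ (3 / 4 : ℝ) * B ^ 2
        = (1152 * (40 * CA * C1) ^ 2 * L ^ 6) * (1 / (16 * B ^ 2)) * T ^ (1/25 : ℝ) * T ^ (1 / B) * T ^ (3/4 : ℝ) := by
          field_simp
      _ ≤ (1152 * (40 * CA * C1) ^ 2 * L ^ 6) * 1 * T ^ (1/25 : ℝ) * T ^ (1 / 9600 : ℝ) * T ^ (3/4 : ℝ) := by gcongr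
      _ = 1152 * (40 * CA * C1) ^ 2 * L ^ 6 * T ^ (1/25 + 1/9600 + 3/4 : ℝ) := by
          rw [Real.rpow_add hT0', Real.rpow_add hT0']; ring
      _ ≤ T := g9
  have hRc : ContinuousOn (fun t => (16 * RBq T L B X q Ψ t) ^ 2) (Icc a T) :=
    (continuousOn_const.mul (RBq_contOn (by linarith) hΨc)).pow 2
  have hsub : Icc a (T - a) ⊆ Icc a T := Icc_subset_Icc le_rfl (by linarith)
  have iR : IntegrableOn (fun t => (16 * RBq T L B X q Ψ t) ^ 2) (Icc a T) := hRc.integrableOn_compact isCompact_Icc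
  have hW : ∫ t in Icc a (T - a), (16 * RBq T L B X q Ψ t) ^ 2 ≤ K * (T / B ^ 2) := by
    have h1 : ∫ t in Icc a (T - a), (16 * RBq T L B X q Ψ t) ^ 2 ≤ ∫ t in Icc a T, (16 * RBq T L B X q Ψ t) ^ 2 := by
      apply setIntegral_mono_set iR
      · exact Eventually.of_forall fun t => sq_nonneg _
      · exact hsub.eventuallyLE
    refine h1.trans (hRB.trans ?_)
    rw [hK]
    linarith
  have htail : 5 * q * CT2 * T ^ (-(1/16) : ℝ) ≤ 1 / B := by
    rw [le_div_iff₀ hB0]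
    calc 5 * q * CT2 * T ^ (-(1/16) : ℝ) * B ≤ 5 * q * CT2 * T ^ (-(1/16) : ℝ) * r := by gcongr
      _ = 5 * CT2 * (q * r * T ^ (-(1/16) : ℝ)) := by ring
      _ = 5 * CT2 * T ^ (1/50 + 1/100 + 15/16 - 1 : ℝ) := by
          rw [hq, hr, ← Real.rpow_add hT0', ← Real.rpow_add hT0']
          norm_num
      _ ≤ 1 := g10'
  have hMT : ∀ t ∈ Icc a (T - a), |MT X t / X - bt T X t| ≤ 1 / B := by
    intro t ht
    have ht1 : T ^ (3/4 : ℝ) ≤ t := by rw [← ha]; exact ht.1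
    have htT : t ≤ T := by linarith [ht.2]
    have ht0 : 0 < t := by linarith [ht.1]
    have hexp : Real.exp (X / 2) ≤ t := by
      have h1 : Real.exp (X / 2) ≤ Real.exp X := Real.exp_le_exp.mpr (by linarith)
      have h2 : T ^ (1 / B) ≤ T ^ (3/4 : ℝ) := by
        apply Real.rpow_le_rpow_of_exponent_le hT1
        have : 1 / B ≤ 1 / 9600 := one_div_le_one_div_of_le (by norm_num) hB
        linarith
      rw [e7] at h1
      linarith
    have h1 := MT_asym_r (X := X) (r := r) (t := t) hX0 hr1 hrX (by linarith [ht.1]) hexp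
    unfold bt
    rw [cl_eq ht1 htT]
    have e : MT X t / X - Real.log (t / (2 * Real.pi)) / X = (MT X t - Real.log (t / (2 * Real.pi))) / X := by ring
    rw [e, abs_div, abs_of_pos hX0, div_le_div_iff₀ hX0 hB0]
    have h2 : 50 * r / t ≤ 50 * r / a := by
      apply div_le_div_of_nonneg_left (by positivity) (by linarith) ht.1
    have h3 : 50 * r / a * B ≤ 1 * X := by
      have h4 : 50 * r / a * B ≤ 50 * r / a * r := by gcongr
      have h5 : 50 * (r * r * r) / a ≤ 1 := by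
        have e5 : 50 * (r * r * r) / a = 50 * T ^ (1/50 + 1/100 + 1/4 - 1 : ℝ) := by
          rw [hr, ha, mul_div_assoc, ← Real.rpow_add hT0', ← Real.rpow_add hT0', ← Real.rpow_sub hT0']
          norm_num
        rw [e5]
        exact g11'
      have h6 : 50 * r / a * r ≤ 1 / r := by
        rw [le_div_iff₀ (by linarith)]
        calc 50 * r / a * r * r = 50 * (r * r * r) / a := by ring
          _ ≤ 1 := h5
      have h7 : 1 / r ≤ X := by
        rw [div_le_iff₀ (by linarith)]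
        linarith
      linarith
    calc |MT X t - Real.log (t / (2 * Real.pi))| * B ≤ (50 * r / a) * B := by
          gcongr
          exact h1.trans h2
      _ ≤ 1 * X := h3
  have hpt : ∀ t ∈ Icc a (T - a), (Yf (ZT T) X t - bt T X t + PS X t) ^ 2 ≤ 2 * (16 * RBq T L B X q Ψ t) ^ 2 + 8 / B ^ 2 := by
    intro t ht
    have h1 := Y_far_q (t := t) hL g3 hB hX hq1 hqX (by linarith) (by rw [← ha]; exact ha20) (by rw [← ha]; exact ht.1) (by rw [← ha]; exact ht.2) hΨc hdom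
    have h2 := hMT t ht
    set R := 16 * RBq T L B X q Ψ t with hR
    have h4 : 0 ≤ R := by
      have := RBq_nonneg (T := T) (L := L) (B := B) (X := X) (q := q) hL0.le (by linarith) Ψ (t := t) (by have := ht.1; linarith)
      rw [hR]; linarith
    have h3 : |Yf (ZT T) X t - (MT X t / X - PS X t)| ≤ R + 1 / B := h1.trans (by linarith)
    have e : Yf (ZT T) X t - bt T X t + PS X t = (Yf (ZT T) X t - (MT X t / X - PS X t)) + (MT X t / X - bt T X t) := by ring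
    have hiB : 0 < 1 / B := by positivity
    have h6 : |Yf (ZT T) X t - bt T X t + PS X t| ≤ R + 2 * (1 / B) := by
      rw [e]
      refine (abs_add_le _ _).trans ?_
      linarith
    have h8 : (8:ℝ) / B ^ 2 = 8 * (1 / B) ^ 2 := by field_simp
    rw [h8]
    obtain ⟨i, hi⟩ : ∃ i, i = 1 / B := ⟨_, rfl⟩
    rw [← hi] at h6 hiB ⊢
    generalize Yf (ZT T) X t - bt T X t + PS X t = p at h6 ⊢
    calc p ^ 2 = |p| ^ 2 := (sq_abs _).symm
      _ ≤ (R + 2 * i) ^ 2 := by gcongr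
      _ ≤ 2 * R ^ 2 + 8 * i ^ 2 := sq2' R i
  have hcE : Continuous (fun t => (Yf (ZT T) X t - bt T X t + PS X t) ^ 2) :=
    (((Yf_cont _ X).sub (bt_cont hT0' X)).add (PS_cont hX0)).pow 2
  have iR' : IntegrableOn (fun t => (16 * RBq T L B X q Ψ t) ^ 2) (Icc a (T - a)) := iR.mono_set hsub
  have haa : a ≤ T - a := by linarith
  calc ∫ t in Icc a (T - a), (Yf (ZT T) X t - bt T X t + PS X t) ^ 2
      ≤ ∫ t in Icc a (T - a), (2 * (16 * RBq T L B X q Ψ t) ^ 2 + 8 / B ^ 2) := by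
        apply setIntegral_mono_on (ioc hcE _ _) ((iR'.const_mul 2).add (ioc continuous_const _ _)) measurableSet_Icc hpt
    _ = 2 * (∫ t in Icc a (T - a), (16 * RBq T L B X q Ψ t) ^ 2) + (T - a - a) * (8 / B ^ 2) := by
        rw [integral_add (iR'.const_mul 2) (ioc continuous_const _ _), integral_const_mul, setIntegral_const,
          Real.volume_real_Icc_of_le haa, smul_eq_mul]
    _ ≤ 2 * (K * (T / B ^ 2)) + T * (8 / B ^ 2) := by
        gcongr
        linarith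
    _ = (2 * K + 8) * (T / B ^ 2) := by ring

end Pool.Agent.Helper57.UV
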