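import Pool.Agent.Helper57.LS.GmFT
import Pool.Agent.Helper57.LH.VOne

namespace Pool.Agent.Helper57.UV

open Set MeasureTheory Filter Topology
open Pool.Agent.Helper57.LH
open Pool.Agent.Helper57.Zeta
open Pool.Agent.Helper57.LS

/-- the even function whose cosine transform is the difference -/
noncomputable def fD (X v x : ℝ) : ℝ := max 0 (1 - |x| / X) * (Real.cosh (v * x) - 1)

lemma fD_cont (X v : ℝ) : Continuous (fD X v) := by unfold fD; fun_prop

lemma fD_even (X v x : ℝ) : fD X v (-x) = fD X v x := by
  unfold fD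
  rw [abs_neg, mul_neg, Real.cosh_neg]

lemma fD_zero_out {X v x : ℝ} (hX : 0 < X) (hx : X ≤ |x|) : fD X v x = 0 := by
  unfold fD
  have : 1 - |x| / X ≤ 0 := by
    have : 1 ≤ |x| / X := by rw [le_div_iff₀ hX]; linarith
    linarith
  rw [max_eq_left this, zero_mul]

lemma fD_supp {X : ℝ} (hX : 0 < X) (v : ℝ) {f : ℝ → ℝ} (hf : Continuous f) :
    Integrable (fun x => fD X v x * f x) ∧ ∫ x, fD X v x * f x = ∫ x in (-X)..X, fD X v x * f x := by
  have h0 : ∀ x ∉ Icc (-X) X, fD X v x * f x = 0 := by
    intro x hx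
    rw [fD_zero_out hX, zero_mul]
    rw [mem_Icc, not_and_or, not_le, not_le] at hx
    rw [le_abs]
    rcases hx with h | h
    · right; linarith
    · left; linarith
  have hc : Continuous (fun x => fD X v x * f x) := (fD_cont X v).mul hf
  have hi : IntegrableOn (fun x => fD X v x * f x) (Icc (-X) X) := hc.continuousOn.integrableOn_compact isCompact_Icc
  refine ⟨?_, ?_⟩
  · exact (integrableOn_iff_integrable_of_support_subset (fun x hx => by
      by_contra hn
      exact hx (h0 x hn))).mp hi
  · rw [intervalIntegral.integral_of_le (by linarith), ← integral_Icc_eq_integral_Ioc]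
    exact (setIntegral_eq_integral_of_forall_compl_eq_zero h0).symm

lemma gs_even (X v w : ℝ) : gs X v (-w) = gs X v w := by
  rw [gs_eq, gs_eq]
  congr 1
  apply intervalIntegral.integral_congr
  intro x _
  simp only
  rw [neg_mul, Real.cos_neg]

lemma fD_FT {X : ℝ} (hX : 0 < X) (v w : ℝ) : ∫ x, fD X v x * Real.cos (2 * Real.pi * w * x) = X * (gs X v (2 * Real.pi * w) - gs X 0 (2 * Real.pi * w)) := by
  have hc : Continuous (fun x : ℝ => Real.cos (2 * Real.pi * w * x)) := by fun_prop
  rw [(fD_supp hX v hc).2]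
  have hcc : Continuous (fun x => fD X v x * Real.cos (2 * Real.pi * w * x)) := (fD_cont X v).mul hc
  have h1 : ∫ x in (-X)..0, fD X v x * Real.cos (2 * Real.pi * w * x) = ∫ x in (0:ℝ)..X, fD X v x * Real.cos (2 * Real.pi * w * x) := by
    have h2 := intervalIntegral.integral_comp_neg (a := 0) (b := X) (fun x => fD X v x * Real.cos (2 * Real.pi * w * x))
    rw [neg_zero] at h2
    rw [← h2]
    apply intervalIntegral.integral_congr
    intro x _
    simp only
    rw [fD_even, mul_neg, Real.cos_neg]
  rw [← intervalIntegral.integral_add_adjacent_intervals (hcc.intervalIntegrable _ _) (hcc.intervalIntegrable (0:ℝ) _), h1, gs_diff]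
  have h3 : ∫ x in (0:ℝ)..X, fD X v x * Real.cos (2 * Real.pi * w * x) =
      ∫ x in (0:ℝ)..X, (1 - x / X) * (Real.cosh (v * x) - 1) * Real.cos (2 * Real.pi * w * x) := by
    apply intervalIntegral.integral_congr
    intro x hx
    rw [uIcc_of_le hX.le] at hx
    simp only
    unfold fD
    rw [abs_of_nonneg hx.1, max_eq_right]
    have : x / X ≤ 1 := by rw [div_le_one hX]; exact hx.2
    linarith
  rw [h3]
  generalize (∫ x in (0:ℝ)..X, (1 - x / X) * (Real.cosh (v * x) - 1) * Real.cos (2 * Real.pi * w * x)) = J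
  field_simp
  ring

lemma gsD_integrable {X : ℝ} (hX : 0 < X) (v : ℝ) : Integrable (fun w => gs X v w - gs X 0 w) := by
  refine ((Kd_integrable hX).const_mul (8 * ((|v| * X) ^ 2 * Real.exp (|v| * X)))).mono' ((gs_cont X v).sub (gs_cont X 0)).aestronglyMeasurable ?_
  filter_upwards with w
  rw [Real.norm_eq_abs]
  exact gs_diff_bound hX v w

/-- the kernel for zeros off the line has the same integral -/
theorem gsD_integral {X : ℝ} (hX : 0 < X) (v : ℝ) : ∫ w, (gs X v w - gs X 0 w) = 0 := by
  have hpi := Real.pi_pos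
  have hf : Integrable (fD X v) := by
    have h := (fD_supp hX v (f := fun _ => (1:ℝ)) continuous_const).1
    simpa using h
  have hg : Integrable (fun w => X * (gs X v (2 * Real.pi * w) - gs X 0 (2 * Real.pi * w))) := by
    apply Integrable.const_mul
    exact (gsD_integrable hX v).comp_mul_left' (by positivity)
  have h := inv_even (f := fD X v) (g := fun w => X * (gs X v (2 * Real.pi * w) - gs X 0 (2 * Real.pi * w))) hf (fD_cont X v) (fD_even X v) hg
    (by intro w; simp only [mul_neg, gs_even]) (fD_FT hX v) 0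
  simp only [mul_zero, zero_mul, Real.cos_zero, mul_one] at h
  rw [integral_const_mul, Measure.integral_comp_mul_left (fun w => gs X v w - gs X 0 w) (2 * Real.pi)] at h
  have h0 : fD X v 0 = 0 := by unfold fD; simp
  rw [h0, smul_eq_mul, mul_eq_zero, mul_eq_zero] at h
  rcases h with h | h | h
  · exact absurd h hX.ne'
  · exfalso
    rw [abs_eq_zero, inv_eq_zero] at h
    linarith
  · exact h

end Pool.Agent.Helper57.UV
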