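import Pool.Agent.Helper57.UV.Full
import Pool.Agent.Helper4.PF.Pack

namespace Pool.Agent.Helper57.UV

open Set MeasureTheory Filter Topology
open Pool.Agent.Helper57.LH
open Pool.Agent.Helper57.Zeta
open Pool.Agent.Helper57.LS
open Pool.Agent.Helper57.US
open Pool.Agent.Helper57.PC (SN SN_pos mult nd)
open Pool.Agent.Helper4.PU (AT)
open Pool.Agent.Helper4.PF (ULP NLP NT_mono')

/-- central kernels -/
theorem ULP_holds : ∃ C : ℝ, 0 ≤ C ∧ ULP (1/100) C := by
  obtain ⟨C, hC, h⟩ := ULawP_holds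
  refine ⟨C + 4, by linarith, ?_⟩
  unfold ULP
  unfold ULawP at h
  filter_upwards [h, eventually_ge_atTop 3] with T hT hT3 B hB hBT
  have hS := SN_pos (T := T) (by linarith)
  have hB0 : 0 < B := by linarith
  have hL := one_le_log hT3
  have h1 := hT B 0 hB hBT (by rw [abs_zero]; positivity)
  have h2 := PXc_abs (X := Real.log T / B) (by positivity) (2 * Real.pi * 0 / Real.log T)
  have e1 : (fun u => Gm ((u - 0) / B)) = gB B := by
    funext u
    unfold gB
    rw [sub_zero]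
  rw [e1] at h1
  set P := PXc (Real.log T / B) (2 * Real.pi * 0 / Real.log T)
  have e : WP T (gB B) - SN T * (AT T * B) = (WP T (gB B) - SN T * (AT T * B + P / B)) + SN T * (P / B) := by ring
  rw [e]
  refine (abs_add_le _ _).trans ?_
  rw [abs_mul, abs_of_pos hS, abs_div, abs_of_pos hB0]
  have h3 : SN T / B ^ 2 ≤ SN T / B := div_le_div_of_nonneg_left hS.le hB0 (le_self_pow₀ (by linarith) (by norm_num))
  have h4 : SN T * (|P| / B) ≤ 4 * (SN T / B) := by
    calc SN T * (|P| / B) ≤ SN T * (4 / B) := by gcongr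
      _ = _ := by ring
  have h5 : C * (SN T / B ^ 2) ≤ C * (SN T / B) := by gcongr
  linarith

/-- Riemann-von Mangoldt with a power saving, for large heights -/
theorem NL_ex : ∃ C : ℝ, 0 ≤ C ∧ ∀ᶠ T : ℝ in atTop, |NT T - T / (2 * Real.pi) * (Real.log (T / (2 * Real.pi)) - 1)| ≤ C * T ^ (15/16 : ℝ) := by
  have hCLA := CLA_pos
  have hC1 := C1_nonneg
  have hCT := CT2_nonneg
  have hpi := Real.pi_pos
  have hA1 := AX_nonneg 1
  obtain ⟨Ck, hCk⟩ : ∃ Ck, Ck = 24 * CLA + 4 * C1 := ⟨_, rfl⟩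
  have hCk0 : 0 ≤ Ck := by rw [hCk]; positivity
  refine ⟨40 * Real.exp 1 + (50 + (5 + 8 * AX 1) * CT2) + 8 * AX 1 * Ck + 5 * Ck + 6, by positivity, ?_⟩
  have hl := Real.tendsto_log_atTop
  filter_upwards [eventually_ge_atTop (1600:ℝ), hl.eventually_ge_atTop 40, NT_le_ev, log_pow_le 4 0 (s := 3/4) (by norm_num),
    log_pow_le 1 1 (s := 13/16) (by norm_num)] with T g2 g3 g4 g6 g7
  have hT0 : 0 < T := by linarith
  have hT1 : 1 ≤ T := by linarith
  have hT3 : 3 ≤ T := by linarith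
  obtain ⟨pw1, pw2, pw3, pw4, pw5, pw6, pw7, pw8, pw9, pw10, pw11⟩ := powers hT1
  have hD1 : 1 ≤ T ^ (15/16 : ℝ) := Real.one_le_rpow hT1 (by norm_num)
  have hLa : Real.log T * T ^ (3/4 : ℝ) ≤ T ^ (15/16 : ℝ) := by
    have h1 : Real.log T * T ^ (13/16 : ℝ) ≤ T := by simpa using g7
    have e1 : T ^ (13/16 : ℝ) = T ^ (3/4 : ℝ) * T ^ (1/16 : ℝ) := by rw [← Real.rpow_add hT0]; norm_num
    have e2 : T = T ^ (15/16 : ℝ) * T ^ (1/16 : ℝ) := by rw [← Real.rpow_add hT0]; norm_num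
    have hp : 0 < T ^ (1/16 : ℝ) := by positivity
    have h3 : Real.log T * T ^ (3/4 : ℝ) * T ^ (1/16 : ℝ) ≤ T ^ (15/16 : ℝ) * T ^ (1/16 : ℝ) := by
      rw [← e2, mul_assoc, ← e1]
      exact h1
    exact le_of_mul_le_mul_right h3 hp
  obtain ⟨L, hL⟩ : ∃ L, L = Real.log T := ⟨_, rfl⟩
  rw [← hL] at g3 g4 hLa
  rw [pow_zero, mul_one] at g6
  have hL1 : 1 ≤ L := by linarith
  have hL0 : 0 < L := by linarith
  obtain ⟨a, ha⟩ : ∃ a, a = T ^ (3/4 : ℝ) := ⟨_, rfl⟩
  obtain ⟨D, hD⟩ : ∃ D, D = T ^ (15/16 : ℝ) := ⟨_, rfl⟩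
  rw [← ha] at g6 pw1 pw2 pw3 pw6 pw8 pw9 hLa
  rw [← hD] at pw1 pw2 pw4 pw10 hD1 hLa ⊢
  have hsT20 : 40 ≤ Real.sqrt T := by
    rw [Real.le_sqrt (by norm_num) hT0.le]
    linarith
  have ha40 : 40 ≤ a := hsT20.trans pw8
  have ha0 : 0 < a := by linarith
  have hmid : a ≤ T - a := by linarith
  have hNT0 : 0 ≤ NT T := by
    rw [← sum_ZT_mx]
    exact Finset.sum_nonneg fun ρ _ => mx_nonneg _
  have hZT : ∀ ρ ∈ ZT T, 0 ≤ (ρ:ℂ).im ∧ (ρ:ℂ).im ≤ T := fun ρ hρ => mem_ZT.mp hρ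
  obtain ⟨kc, hkc⟩ : ∃ kc, kc = (4 * CLA * L) * (2 * a + 2 * |(0:ℝ)| + 2 * Real.sqrt T) + 4 * (Real.sqrt T) ^ (-(3/4) : ℝ) * NT T * C1 := ⟨_, rfl⟩
  have hk1 : ∫ t in (Icc a (T - a))ᶜ, KS (ZT T) t ≤ kc := by
    refine (KS_compl hT3 (by linarith : 1 ≤ Real.sqrt T) (by linarith) (by linarith) hZT).trans (le_of_eq ?_)
    rw [sum_ZT_mx, ← hL, hkc, abs_zero]
    ring
  have hkcb : kc ≤ Ck * L * a := by
    rw [hkc, hCk]
    apply kc_bd hL0.le hC1 hCLA.le pw8 (by rw [abs_zero]; linarith) _ g4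
    rw [pw7, pw5]
    exact pw6
  have hkcD : kc ≤ Ck * D := by
    refine hkcb.trans ?_
    calc Ck * L * a = Ck * (L * a) := by ring
      _ ≤ Ck * D := by gcongr
  obtain ⟨w, hw⟩ : ∃ w, w = 50 * 1 ^ 2 / a + (5 + 8 * AX 1) * 1 * (CT2 * T ^ (-(1/16) : ℝ)) := ⟨_, rfl⟩
  have hpt : ∀ t ∈ Icc a (T - a), |bt T 1 t - PS 1 t - Yv T 1 t| ≤ w := by
    intro t ht
    have hexpt : Real.exp (1 / 2) ≤ t := by
      have h1 : Real.exp (1 / 2) ≤ Real.exp 1 := Real.exp_le_exp.mpr (by norm_num)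
      have := Real.exp_one_lt_d9
      linarith [ht.1]
    have h1 := MT_bt (T := T) (X := 1) (r := 1) (t := t) one_pos le_rfl (by norm_num) (by rw [← ha]; linarith) (by rw [← ha]; exact ht.1) (by linarith [ht.2]) hexpt
    have h2 := Yv_approx (T := T) (X := 1) (q := 1) (t := t) hT1 (by rw [← ha]; linarith) one_pos le_rfl (by norm_num) (by rw [← ha]; exact ht.1) (by rw [← ha]; exact ht.2)
    rw [← ha] at h1
    have e : bt T 1 t - PS 1 t - Yv T 1 t = -(MT 1 t / 1 - bt T 1 t) + (MT 1 t / 1 - PS 1 t - Yv T 1 t) := by ring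
    rw [e, hw]
    refine (abs_add_le _ _).trans ?_
    rw [abs_neg]
    exact add_le_add h1 h2
  have hls := lin_stat (T := T) (X := 1) (q := 1) (α := a) (β := T - a) (w0 := w) (G := 1) (l := 0) (kc := kc) (g := fun _ => 1)
    one_pos le_rfl (by norm_num) hT0 hmid continuous_const (fun t => by norm_num) (fun s t => by norm_num) le_rfl hpt hk1
  simp only [mul_one, zero_mul, mul_zero, Real.sqrt_zero, zero_add, add_zero] at hls
  -- the density integral
  have hI : ∫ t in Icc a (T - a), bt T 1 t = ((T - a) * Real.log ((T - a) / (2 * Real.pi)) - (T - a)) - (a * Real.log (a / (2 * Real.pi)) - a) := by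
    rw [← int_log2pi ha0 hmid, intervalIntegral.integral_of_le hmid, ← integral_Icc_eq_integral_Ioc]
    apply setIntegral_congr_fun measurableSet_Icc
    intro t ht
    simp only
    unfold bt
    rw [cl_eq (by rw [← ha]; exact ht.1) (by linarith [ht.2]), div_one]
  have hF := int_log2pi (a := T - a) (b := T) (by linarith) (by linarith)
  have hF2 : |∫ t in (T - a)..T, Real.log (t / (2 * Real.pi))| ≤ L * a := by
    have h := intervalIntegral.norm_integral_le_of_norm_le_const (a := T - a) (b := T) (C := L) (f := fun t => Real.log (t / (2 * Real.pi))) (by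
      intro t ht
      rw [uIoc_of_le (by linarith)] at ht
      rw [Real.norm_eq_abs]
      exact log2pi_abs hL (by linarith) (by linarith [ht.1]) ht.2)
    rw [Real.norm_eq_abs, sub_sub_cancel, abs_of_pos ha0] at h
    exact h
  have ha2 : |a * Real.log (a / (2 * Real.pi)) - a| ≤ 2 * (L * a) := by
    have h1 := log2pi_abs (T := T) (L := L) (t := a) hL (by linarith) (by linarith) (by linarith)
    have e : a * Real.log (a / (2 * Real.pi)) - a = a * (Real.log (a / (2 * Real.pi)) - 1) := by ring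
    rw [e, abs_mul, abs_of_pos ha0]
    have h2 : |Real.log (a / (2 * Real.pi)) - 1| ≤ 2 * L := by
      refine (abs_sub _ _).trans ?_
      rw [abs_one]
      linarith
    calc a * |Real.log (a / (2 * Real.pi)) - 1| ≤ a * (2 * L) := by gcongr
      _ = _ := by ring
  -- total mass
  have hYi : Integrable (Yf (ZT T) 1) := Yf_integrable _ one_pos
  have s1 := integral_add_compl (μ := volume) (s := Icc a (T - a)) measurableSet_Icc hYi
  have htot : ∫ t, Yf (ZT T) 1 t = 2 * Real.pi / 1 * NT T := Yf_integral T one_pos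
  rw [htot, div_one] at s1
  have hYn : ∀ t, 0 ≤ Yf (ZT T) 1 t := Yf_nonneg _ one_pos
  have hc0 : 0 ≤ ∫ t in (Icc a (T - a))ᶜ, Yf (ZT T) 1 t := integral_nonneg fun t => hYn t
  have hc1 : ∫ t in (Icc a (T - a))ᶜ, Yf (ZT T) 1 t ≤ 5 * kc := by
    have h1 : ∫ t in (Icc a (T - a))ᶜ, Yf (ZT T) 1 t ≤ ∫ t in (Icc a (T - a))ᶜ, 5 * KS (ZT T) t := by
      apply setIntegral_mono_on hYi.integrableOn ((KS_integrable _).const_mul 5).integrableOn measurableSet_Icc.compl
      intro t _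
      have := Yf_q (F := ZT T) (X := 1) (q := 1) one_pos le_rfl (by norm_num) t
      linarith
    rw [integral_const_mul] at h1
    linarith
  rw [hI] at hls
  have hwT : w * (T - a - a) ≤ (50 + (5 + 8 * AX 1) * CT2) * D := by
    have hTm : 0 < T ^ (-(1/16) : ℝ) := Real.rpow_pos_of_pos hT0 _
    have hw0 : 0 ≤ w := by rw [hw]; positivity
    calc w * (T - a - a) ≤ w * T := by
          gcongr
          linarith
      _ = 50 * (T / a) + (5 + 8 * AX 1) * (CT2 * (T ^ (-(1/16) : ℝ) * T)) := by rw [hw]; ring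
      _ ≤ 50 * D + (5 + 8 * AX 1) * (CT2 * D) := by rw [pw4]; gcongr
      _ = _ := by ring
  have hk5 : 5 * kc ≤ 5 * Ck * D := by linarith
  have hk8 : 8 * AX 1 * kc ≤ 8 * AX 1 * Ck * D := by
    calc 8 * AX 1 * kc ≤ 8 * AX 1 * (Ck * D) := by gcongr
      _ = _ := by ring
  have hE1 : 40 * Real.exp 1 ≤ 40 * Real.exp 1 * D := le_mul_of_one_le_right (by positivity) hD1
  set Y1 := ∫ t in Icc a (T - a), Yf (ZT T) 1 t
  set Y2 := ∫ t in (Icc a (T - a))ᶜ, Yf (ZT T) 1 t
  have b1 := abs_le.mp hls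
  have b2 := abs_le.mp hF2
  have b3 := abs_le.mp ha2
  rw [hF] at b2
  have hmain : |2 * Real.pi * NT T - T * (Real.log (T / (2 * Real.pi)) - 1)| ≤
      (40 * Real.exp 1 + (50 + (5 + 8 * AX 1) * CT2) + 8 * AX 1 * Ck + 5 * Ck + 6) * D := by
    have e : (40 * Real.exp 1 + (50 + (5 + 8 * AX 1) * CT2) + 8 * AX 1 * Ck + 5 * Ck + 6) * D = 40 * Real.exp 1 * D + (50 + (5 + 8 * AX 1) * CT2) * D +
      8 * AX 1 * Ck * D + 5 * Ck * D + 6 * D := by ring
    rw [e]
    have e2 : T * (Real.log (T / (2 * Real.pi)) - 1) = T * Real.log (T / (2 * Real.pi)) - T := by ring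
    rw [e2, ← s1, abs_le]
    constructor <;> linarith [b1.1, b1.2, b2.1, b2.2, b3.1, b3.2]
  have e : NT T - T / (2 * Real.pi) * (Real.log (T / (2 * Real.pi)) - 1) = (2 * Real.pi * NT T - T * (Real.log (T / (2 * Real.pi)) - 1)) / (2 * Real.pi) := by
    field_simp
  rw [e, abs_div, abs_of_pos (by positivity : 0 < 2 * Real.pi)]
  refine le_trans ?_ hmain
  apply div_le_self (abs_nonneg _)
  linarith [Real.pi_gt_three]

theorem NLP_holds : ∃ C : ℝ, 0 ≤ C ∧ NLP (15/16) C := by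
  obtain ⟨C, hC, h⟩ := NL_ex
  obtain ⟨T0, hT0⟩ := eventually_atTop.mp h
  have hpi := Real.pi_pos
  obtain ⟨M, hM⟩ : ∃ M, M = max T0 3 := ⟨_, rfl⟩
  have hM0 : T0 ≤ M := by rw [hM]; exact le_max_left _ _
  have hM3 : 3 ≤ M := by rw [hM]; exact le_max_right _ _
  have hNn : ∀ t, 0 ≤ NT t := fun t => by
    rw [← sum_ZT_mx]
    exact Finset.sum_nonneg fun ρ _ => mx_nonneg _
  have hN0 := hNn M
  refine ⟨C + NT M + M * (M + 1), by positivity, ?_⟩
  intro t ht
  have ht0 : 0 < t := by linarith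
  have hp : 1 ≤ t ^ (15/16 : ℝ) := Real.one_le_rpow (by linarith) (by norm_num)
  rcases le_total M t with hMt | hMt
  · refine (hT0 t (by linarith)).trans ?_
    have h1 : 0 ≤ NT M + M * (M + 1) := by positivity
    have h2 : 0 ≤ (NT M + M * (M + 1)) * t ^ (15/16 : ℝ) := by positivity
    linarith
  · have h1 : NT t ≤ NT M := NT_mono' hMt
    have h2 := hNn t
    have h3 : |t / (2 * Real.pi) * (Real.log (t / (2 * Real.pi)) - 1)| ≤ M * (M + 1) := by
      rw [abs_mul, abs_of_pos (by positivity : 0 < t / (2 * Real.pi))]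
      have h4 : t / (2 * Real.pi) ≤ M := by
        rw [div_le_iff₀ (by positivity)]
        nlinarith [Real.pi_gt_three]
      have h5 : |Real.log (t / (2 * Real.pi)) - 1| ≤ M + 1 := by
        have h6 : Real.log (t / (2 * Real.pi)) ≤ t / (2 * Real.pi) - 1 := Real.log_le_sub_one_of_pos (by positivity)
        have h7 : -(2 * Real.pi / t - 1) ≤ Real.log (t / (2 * Real.pi)) := by
          have h8 : Real.log (2 * Real.pi / t) ≤ 2 * Real.pi / t - 1 := Real.log_le_sub_one_of_pos (by positivity)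
          have h9 : Real.log (t / (2 * Real.pi)) = -Real.log (2 * Real.pi / t) := by
            rw [← Real.log_inv, inv_div]
          linarith
        have h10 : 2 * Real.pi / t ≤ 3 := by
          rw [div_le_iff₀ ht0]
          nlinarith [Real.pi_lt_four]
        rw [abs_le]
        constructor <;> linarith
      gcongr
    have h4 : |NT t - t / (2 * Real.pi) * (Real.log (t / (2 * Real.pi)) - 1)| ≤ NT M + M * (M + 1) := by
      refine (abs_sub _ _).trans ?_
      rw [abs_of_nonneg h2]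
      linarith
    refine h4.trans ?_
    have h5 : 0 ≤ NT M + M * (M + 1) := by positivity
    calc NT M + M * (M + 1) ≤ (C + NT M + M * (M + 1)) * 1 := by linarith
      _ ≤ _ := by gcongr

end Pool.Agent.Helper57.UV
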