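import Pool.Agent.Helper57.US.Tail

namespace Pool.Agent.Helper57.UV

open Set MeasureTheory Filter Topology
open Pool.Agent.Helper57.LH
open Pool.Agent.Helper57.Zeta
open Pool.Agent.Helper57.LS
open Pool.Agent.Helper57.US

/-- comparison with the kernel of scale one -/
lemma Kd_q {X q w : ℝ} (hq1 : 1 ≤ q) (hqX : 1 ≤ q * X ^ 2) : Kd X w ≤ q * Kd 1 w := by
  unfold Kd
  rw [one_mul, ← div_eq_mul_inv, inv_eq_one_div, div_le_div_iff₀ (by positivity) (by positivity)]
  have h1 := mul_nonneg (by linarith : 0 ≤ q * X ^ 2 - 1) (sq_nonneg w)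
  rw [mul_pow]
  have e : (q * X ^ 2 - 1) * w ^ 2 = q * (X ^ 2 * w ^ 2) - w ^ 2 := by ring
  have e2 : q * (1 + X ^ 2 * w ^ 2) = q + q * (X ^ 2 * w ^ 2) := by ring
  rw [e] at h1
  rw [e2]
  linarith

/-- kernel sum over a finite set of zeros -/
noncomputable def KS (F : Finset ZS) (t : ℝ) : ℝ := ∑ ρ ∈ F, mx ρ * Kd 1 (t - (ρ:ℂ).im)

lemma KS_cont (F : Finset ZS) : Continuous (KS F) := by
  unfold KS
  apply continuous_finsetSum
  intro ρ _
  exact continuous_const.mul ((Kd_cont 1).comp (by fun_prop))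

lemma KS_nonneg (F : Finset ZS) (t : ℝ) : 0 ≤ KS F t := by
  unfold KS
  exact Finset.sum_nonneg fun ρ _ => mul_nonneg (mx_nonneg _) (Kd_pos _ _).le

lemma KS_integrable (F : Finset ZS) : Integrable (KS F) := by
  unfold KS
  apply integrable_finsetSum
  intro ρ _
  exact ((Kd_integrable one_pos).comp_sub_right _).const_mul _

lemma KS_le_log {F : Finset ZS} {T : ℝ} (hT : 3 ≤ T) (hF : ∀ ρ ∈ F, 0 ≤ (ρ:ℂ).im ∧ (ρ:ℂ).im ≤ T) (t : ℝ) :
    KS F t ≤ 4 * CLA * Real.log T := by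
  set s := max 0 (min t T) with hs
  have hs0 : 0 ≤ s := le_max_left _ _
  have hsT : s ≤ T := max_le (by linarith) (min_le_right _ _)
  have hA := Afun_log hT hs0 hsT
  have h1 : ∑ ρ ∈ F, fz ρ s ≤ Afun s := sum_le_hasSum F (fun i _ => fz_nonneg i s) (fz_hasSum s)
  have h2 : KS F t ≤ ∑ ρ ∈ F, 4 * fz ρ s := by
    unfold KS
    refine Finset.sum_le_sum fun ρ hρ => ?_
    have hr := zs_re ρ
    obtain ⟨hg0, hgT⟩ := hF ρ hρ
    have hm := mx_nonneg (ρ:ℂ)
    have h3 : Kd 1 (t - (ρ:ℂ).im) ≤ (1 + (t - (ρ:ℂ).im) ^ 2)⁻¹ := Kd_le_one le_rfl _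
    have h4 : (s - (ρ:ℂ).im) ^ 2 ≤ (t - (ρ:ℂ).im) ^ 2 := by
      rw [sq_le_sq]
      rcases le_total t 0 with h | h
      · have e1 : s = 0 := by
          rw [hs, min_eq_left (by linarith), max_eq_left h]
        rw [e1, abs_of_nonpos (by linarith), abs_of_nonpos (by linarith)]
        linarith
      · rcases le_total t T with h' | h'
        · have e1 : s = t := by
            rw [hs, min_eq_left h', max_eq_right h]
          rw [e1]
        · have e1 : s = T := by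
            rw [hs, min_eq_right h', max_eq_right (by linarith)]
          rw [e1, abs_of_nonneg (by linarith), abs_of_nonneg (by linarith)]
          linarith
    have h5 : (1 + (t - (ρ:ℂ).im) ^ 2)⁻¹ ≤ (1 + (s - (ρ:ℂ).im) ^ 2)⁻¹ := by gcongr
    unfold fz
    set a := 2 - (ρ:ℂ).re with ha
    have ha1 : 1 < a := by rw [ha]; linarith
    have ha2 : a < 2 := by rw [ha]; linarith
    set w := s - (ρ:ℂ).im with hw
    have h6 : (1 + w ^ 2)⁻¹ ≤ 4 * (a / (a ^ 2 + w ^ 2)) := by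
      rw [inv_eq_one_div, ← mul_div_assoc, div_le_div_iff₀ (by positivity) (by positivity)]
      nlinarith [sq_nonneg w]
    calc mx ρ * Kd 1 (t - (ρ:ℂ).im) ≤ mx ρ * (4 * (a / (a ^ 2 + w ^ 2))) := by
          gcongr
          exact h3.trans (h5.trans h6)
      _ = _ := by ring
  rw [← Finset.mul_sum] at h2
  nlinarith

/-- integral outside an interval -/
lemma KS_compl {T a b M : ℝ} (hT : 3 ≤ T) (hM : 1 ≤ M) (ha : 0 ≤ a) (hbT : b ≤ T) {F : Finset ZS}
    (hF : ∀ ρ ∈ F, 0 ≤ (ρ:ℂ).im ∧ (ρ:ℂ).im ≤ T) :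
    ∫ t in (Icc a b)ᶜ, KS F t ≤ (4 * CLA * Real.log T) * (a + (T - b) + 2 * M) +
      4 * M ^ (-(3/4) : ℝ) * (∑ ρ ∈ F, mx ρ) * C1 := by
  have hCLA := CLA_pos
  have hL := one_le_log hT
  set c := 4 * CLA * Real.log T with hc
  have hc0 : 0 < c := by rw [hc]; positivity
  set S : Set ℝ := Icc (-M) a ∪ Icc b (T + M) with hS
  have hSm : MeasurableSet S := measurableSet_Icc.union measurableSet_Icc
  have hSv : volume S < ⊤ := by
    refine (measure_union_le _ _).trans_lt ?_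
    rw [Real.volume_Icc, Real.volume_Icc]
    exact ENNReal.add_lt_top.mpr ⟨ENNReal.ofReal_lt_top, ENNReal.ofReal_lt_top⟩
  set G1 : ℝ → ℝ := S.indicator (fun _ => c) with hG1
  set G2 : ℝ → ℝ := fun t => ∑ ρ ∈ F, ((4 * M ^ (-(3/4) : ℝ)) * mx ρ) * wf (t - (ρ:ℂ).im) with hG2
  have iG1 : Integrable G1 := by
    rw [hG1, integrable_indicator_iff hSm]
    exact integrableOn_const hSv.ne
  have iG2 : Integrable G2 := by
    apply integrable_finsetSum
    intro ρ _
    exact (wf_integrable.comp_sub_right _).const_mul _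
  have hMp : 0 < M ^ (-(3/4) : ℝ) := Real.rpow_pos_of_pos (by linarith) _
  have hG10 : ∀ t, 0 ≤ G1 t := fun t => by
    rw [hG1]
    exact indicator_nonneg (fun _ _ => by positivity) t
  have hG20 : ∀ t, 0 ≤ G2 t := fun t => by
    rw [hG2]
    refine Finset.sum_nonneg fun ρ _ => ?_
    have := mx_nonneg (ρ:ℂ)
    have := wf_nonneg (t - (ρ:ℂ).im)
    positivity
  have hpt : ∀ t ∈ (Icc a b)ᶜ, KS F t ≤ G1 t + G2 t := by
    intro t ht
    have hy := KS_le_log hT hF t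
    have hy0 := KS_nonneg F t
    by_cases htS : t ∈ S
    · have e1 : G1 t = c := by rw [hG1]; exact indicator_of_mem htS _
      rw [e1]
      linarith [hG20 t]
    · have h3 : KS F t ≤ G2 t := by
        unfold KS
        rw [hG2]
        simp only
        refine Finset.sum_le_sum fun ρ hρ => ?_
        obtain ⟨hg0, hgT⟩ := hF ρ hρ
        have hfar : M ≤ |t - (ρ:ℂ).im| := by
          rw [hS, mem_union, not_or] at htS
          obtain ⟨h4, h5⟩ := htS
          simp only [mem_Icc, not_and_or, not_le] at h4 h5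
          rw [mem_compl_iff, mem_Icc, not_and_or, not_le, not_le] at ht
          rw [le_abs]
          rcases ht with h | h
          · right
            rcases h4 with h4 | h4
            · linarith
            · linarith
          · left
            rcases h5 with h5 | h5
            · linarith
            · linarith
        have h7 := Kd_far (X := 1) le_rfl hM hfar
        have := mx_nonneg (ρ:ℂ)
        calc mx ρ * Kd 1 (t - (ρ:ℂ).im) ≤ mx ρ * (4 * M ^ (-(3/4) : ℝ) * wf (t - (ρ:ℂ).im)) := by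
              gcongr
          _ = _ := by ring
      linarith [hG10 t]
  have h1 : ∫ t in (Icc a b)ᶜ, KS F t ≤ ∫ t in (Icc a b)ᶜ, (G1 t + G2 t) := by
    apply setIntegral_mono_on (KS_integrable F).integrableOn (iG1.add iG2).integrableOn measurableSet_Icc.compl hpt
  have h2 : ∫ t in (Icc a b)ᶜ, (G1 t + G2 t) ≤ ∫ t, (G1 t + G2 t) :=
    setIntegral_le_integral (iG1.add iG2) (Eventually.of_forall fun t => add_nonneg (hG10 t) (hG20 t))
  have h3 : ∫ t, (G1 t + G2 t) = (∫ t, G1 t) + ∫ t, G2 t := integral_add iG1 iG2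
  have h4 : ∫ t, G1 t ≤ c * (a + (T - b) + 2 * M) := by
    rw [hG1, integral_indicator hSm, setIntegral_const, smul_eq_mul, mul_comm]
    have h5 : volume.real S ≤ a + (T - b) + 2 * M := by
      rw [hS]
      refine (measureReal_union_le _ _).trans ?_
      rw [Real.volume_real_Icc_of_le (by linarith), Real.volume_real_Icc_of_le (by linarith)]
      linarith
    gcongr
  have h5 : ∫ t, G2 t = 4 * M ^ (-(3/4) : ℝ) * (∑ ρ ∈ F, mx ρ) * C1 := by
    rw [hG2, integral_finsetSum]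
    · have e1 : ∀ ρ : ZS, ∫ t, ((4 * M ^ (-(3/4) : ℝ)) * mx ρ) * wf (t - (ρ:ℂ).im) = ((4 * M ^ (-(3/4) : ℝ)) * C1) * mx ρ := by
        intro ρ
        rw [integral_const_mul]
        have e2 : ∫ t, wf (t - (ρ:ℂ).im) = C1 := integral_sub_right_eq_self wf (ρ:ℂ).im
        rw [e2]
        ring
      simp_rw [e1]
      rw [← Finset.mul_sum]
      ring
    · intro ρ _
      exact (wf_integrable.comp_sub_right _).const_mul _
  linarith

/-- constant for the tail -/
noncomputable def CT2 : ℝ := (3 / 2) * (5 / 2 * CA) * 2056 * C1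

lemma CT2_nonneg : 0 ≤ CT2 := by
  have := CA_nonneg
  have := C1_nonneg
  unfold CT2; positivity

/-- tail of zeros outside `[0,T]` seen from well inside -/
lemma KS_tail {T t : ℝ} (hT : 1 ≤ T) (ha4 : 4 ≤ T ^ (3/4 : ℝ)) (ht : T ^ (3/4 : ℝ) ≤ t) (htT : t ≤ T - T ^ (3/4 : ℝ))
    (F : Finset ZS) (hF : ∀ ρ ∈ F, ρ ∉ ZT T) :
    KS F t ≤ CT2 * T ^ (-(1/16) : ℝ) := by
  classical
  obtain ⟨a, ha⟩ : ∃ a, a = T ^ (3/4 : ℝ) := ⟨_, rfl⟩
  rw [← ha] at ha4 ht htT
  have hfar : ∀ ρ ∈ F, a ≤ |t - (ρ:ℂ).im| := by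
    intro ρ hρ
    have hn := hF ρ hρ
    rw [mem_ZT, not_and_or, not_le, not_le] at hn
    rw [le_abs]
    rcases hn with h | h
    · left; linarith
    · right; linarith
  set Iρ : ZS → Set ℝ := fun ρ => Icc ((ρ:ℂ).im - 1) ((ρ:ℂ).im + 1) with hIρ
  have hmemI : ∀ (ρ : ZS) (τ : ℝ), τ ∈ Iρ ρ ↔ |τ - (ρ:ℂ).im| ≤ 1 := by
    intro ρ τ
    rw [hIρ]
    simp only [mem_Icc, abs_le]
    constructor <;> rintro ⟨h1, h2⟩ <;> constructor <;> linarith
  have hKc : Continuous (fun τ => Kd 1 (t - τ)) := (Kd_cont 1).comp (by fun_prop)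
  have h1 : ∀ ρ : ZS, Kd 1 (t - (ρ:ℂ).im) ≤ (3 / 2) * ∫ τ in Iρ ρ, Kd 1 (t - τ) := by
    intro ρ
    have h2 : ∫ _ in Iρ ρ, Kd 1 (t - (ρ:ℂ).im) / 3 ≤ ∫ τ in Iρ ρ, Kd 1 (t - τ) := by
      apply setIntegral_mono_on
      · exact continuous_const.continuousOn.integrableOn_compact isCompact_Icc
      · exact hKc.continuousOn.integrableOn_compact isCompact_Icc
      · exact measurableSet_Icc
      · intro τ hτ
        have := Kd_smooth (L := 1) (B := 1) (X := 1) (t := t) (τ := τ) (γ := (ρ:ℂ).im) one_pos le_rfl (by norm_num) (by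
          rw [div_one]; exact (hmemI ρ τ).mp hτ)
        linarith
    rw [setIntegral_const, hIρ, Real.volume_real_Icc_of_le (by linarith), smul_eq_mul] at h2
    have e : ((ρ:ℂ).im + 1 - ((ρ:ℂ).im - 1)) * (Kd 1 (t - (ρ:ℂ).im) / 3) = 2 / 3 * Kd 1 (t - (ρ:ℂ).im) := by ring
    rw [e] at h2
    linarith
  set h : ℝ → ℝ := fun τ => ∑ ρ ∈ F, mx ρ * (Iρ ρ).indicator (fun τ => Kd 1 (t - τ)) τ with hh
  have hint1 : ∀ ρ : ZS, Integrable ((Iρ ρ).indicator (fun τ => Kd 1 (t - τ))) := by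
    intro ρ
    rw [integrable_indicator_iff measurableSet_Icc]
    exact hKc.continuousOn.integrableOn_compact isCompact_Icc
  have hint : Integrable h := by
    rw [hh]
    exact integrable_finsetSum F fun ρ _ => (hint1 ρ).const_mul _
  have h2 : KS F t ≤ (3 / 2) * ∫ τ, h τ := by
    have e1 : ∫ τ, h τ = ∑ ρ ∈ F, mx ρ * ∫ τ in Iρ ρ, Kd 1 (t - τ) := by
      rw [hh, integral_finsetSum F fun ρ _ => (hint1 ρ).const_mul _]
      refine Finset.sum_congr rfl fun ρ _ => ?_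
      rw [integral_const_mul, integral_indicator measurableSet_Icc]
    rw [e1, Finset.mul_sum]
    unfold KS
    refine Finset.sum_le_sum fun ρ _ => ?_
    have := mx_nonneg (ρ:ℂ)
    calc mx ρ * Kd 1 (t - (ρ:ℂ).im) ≤ mx ρ * ((3 / 2) * ∫ τ in Iρ ρ, Kd 1 (t - τ)) := by
          have := h1 ρ
          gcongr
      _ = _ := by ring
  have hpt : ∀ τ, h τ = Kd 1 (t - τ) * ∑ ρ ∈ F.filter (fun ρ => τ ∈ Iρ ρ), mx ρ := by
    intro τ
    rw [hh, Finset.sum_filter, Finset.mul_sum]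
    refine Finset.sum_congr rfl fun ρ _ => ?_
    by_cases hm : τ ∈ Iρ ρ
    · rw [indicator_of_mem hm, if_pos hm]; ring
    · rw [indicator_of_notMem hm, if_neg hm]; ring
  have hCA := CA_nonneg
  have hTp : 0 < T ^ (-(1/16) : ℝ) := Real.rpow_pos_of_pos (by linarith) _
  have hb : ∀ τ, h τ ≤ 5 / 2 * CA * (2056 * T ^ (-(1/16) : ℝ)) * wf (t - τ) := by
    intro τ
    rw [hpt]
    have hwf := wf_nonneg (t - τ)
    rcases (F.filter (fun ρ => τ ∈ Iρ ρ)).eq_empty_or_nonempty with he | ⟨ρ, hρ⟩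
    · rw [he, Finset.sum_empty, mul_zero]; positivity
    · rw [Finset.mem_filter] at hρ
      have h5 := (hmemI ρ τ).mp hρ.2
      have h6 := hfar ρ hρ.1
      have h7 : a - 1 ≤ |t - τ| := by
        have := abs_sub_le t τ (ρ:ℂ).im
        linarith
      have h3 : ∑ ρ ∈ F.filter (fun ρ => τ ∈ Iρ ρ), mx ρ ≤ 5 / 2 * Afun τ := loc_count _ τ (by
        intro ρ' hρ'
        rw [Finset.mem_filter] at hρ'
        rw [abs_sub_comm]
        exact (hmemI ρ' τ).mp hρ'.2)
      have hA2 : Afun τ ≤ CA * wg τ := (le_abs_self _).trans (Afun_bound τ)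
      have hK := (Kd_pos 1 (t - τ)).le
      have hkw := Kd_wg (T := T) (t := t) (τ := τ) hT (by linarith) (by linarith) (by linarith) (by rw [← ha]; linarith)
      calc Kd 1 (t - τ) * ∑ ρ ∈ F.filter (fun ρ => τ ∈ Iρ ρ), mx ρ ≤ Kd 1 (t - τ) * (5 / 2 * (CA * wg τ)) := by
            gcongr
            exact h3.trans (by gcongr)
        _ = 5 / 2 * CA * (Kd 1 (t - τ) * wg τ) := by ring
        _ ≤ 5 / 2 * CA * (2056 * T ^ (-(1/16) : ℝ) * wf (t - τ)) := by gcongr
        _ = _ := by ring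
  have hI : ∫ τ, h τ ≤ 5 / 2 * CA * (2056 * T ^ (-(1/16) : ℝ)) * C1 := by
    have e : ∫ τ, 5 / 2 * CA * (2056 * T ^ (-(1/16) : ℝ)) * wf (t - τ) = 5 / 2 * CA * (2056 * T ^ (-(1/16) : ℝ)) * C1 := by
      rw [integral_const_mul]
      congr 1
      exact integral_sub_left_eq_self wf volume t
    rw [← e]
    exact integral_mono hint ((wf_integrable.comp_sub_left t).const_mul _) hb
  calc KS F t ≤ (3 / 2) * ∫ τ, h τ := h2
    _ ≤ (3 / 2) * (5 / 2 * CA * (2056 * T ^ (-(1/16) : ℝ)) * C1) := by gcongr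
    _ = _ := by unfold CT2; ring

end Pool.Agent.Helper57.UV
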