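import Pool.Agent.Helper57.UV.CorrV
import Pool.Agent.Helper57.US.ULaw

namespace Pool.Agent.Helper57.UV

open Set MeasureTheory Filter Topology
open Pool.Agent.Helper57.LH
open Pool.Agent.Helper57.Zeta
open Pool.Agent.Helper57.LS
open Pool.Agent.Helper57.US
open Pool.Agent.Helper57.PC (SN SN_pos)

/-- diagonal prime term -/
noncomputable def PXc (X δ : ℝ) : ℝ := 1 / 2 * ∑ n ∈ Finset.range (NX X + 1), ap X n ^ 2 * Real.cos (δ * Real.log n)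

lemma PXc_abs {X : ℝ} (hX : 0 < X) (δ : ℝ) : |PXc X δ| ≤ 4 := by
  unfold PXc
  rw [abs_mul, abs_of_pos (by norm_num : (0:ℝ) < 1/2)]
  have h1 : |∑ n ∈ Finset.range (NX X + 1), ap X n ^ 2 * Real.cos (δ * Real.log n)| ≤ ∑ n ∈ Finset.range (NX X + 1), ap X n ^ 2 := by
    refine (Finset.abs_sum_le_sum_abs _ _).trans ?_
    refine Finset.sum_le_sum fun n _ => ?_
    rw [abs_mul, abs_of_nonneg (sq_nonneg _)]
    calc ap X n ^ 2 * |Real.cos (δ * Real.log n)| ≤ ap X n ^ 2 * 1 := by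
          gcongr
          exact Real.abs_cos_le_one _
      _ = _ := mul_one _
  have h2 := sum_ap_sq hX
  linarith

/-- approximation of the archimedean term by the clamped density -/
lemma MT_bt {T X r t : ℝ} (hX0 : 0 < X) (hr : 1 ≤ r) (hrX : 1 ≤ r * X) (ha : 2 ≤ T ^ (3/4 : ℝ)) (ht : T ^ (3/4 : ℝ) ≤ t) (htT : t ≤ T)
    (hXt : Real.exp (X / 2) ≤ t) : |MT X t / X - bt T X t| ≤ 50 * r ^ 2 / T ^ (3/4 : ℝ) := by
  have h1 := MT_asym_r (X := X) (r := r) (t := t) hX0 hr hrX (by linarith) hXt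
  unfold bt
  rw [cl_eq ht htT]
  have e : MT X t / X - Real.log (t / (2 * Real.pi)) / X = (MT X t - Real.log (t / (2 * Real.pi))) / X := by ring
  rw [e, abs_div, abs_of_pos hX0, div_le_iff₀ hX0]
  have h2 : 50 * r / t ≤ 50 * r / T ^ (3/4 : ℝ) := by
    apply div_le_div_of_nonneg_left (by positivity) (by linarith) ht
  have ha0 : 0 < T ^ (3/4 : ℝ) := by linarith
  calc |MT X t - Real.log (t / (2 * Real.pi))| ≤ 50 * r / T ^ (3/4 : ℝ) := h1.trans h2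
    _ = 50 * r / T ^ (3/4 : ℝ) * 1 := (mul_one _).symm
    _ ≤ 50 * r / T ^ (3/4 : ℝ) * (r * X) := by gcongr
    _ = _ := by ring

/-- bookkeeping of the small errors, part 1 -/
lemma small1 {L y D B E w G l q A S C N kc Ck a T : ℝ} (hL : 1 ≤ L) (hy : 1 ≤ y) (hB0 : 0 ≤ B) (hB : B ≤ y) (hE : E ≤ y)
    (hG : G = B) (hl0 : 0 ≤ l * T) (hl : l * T ≤ y * D) (hq : q = y ^ 2) (hA0 : 0 ≤ A) (hA : A ≤ L ^ 2 * y) (hC : 0 ≤ C)
    (hSN0 : 0 ≤ S * N) (hSN : S * N ≤ 2 * L * y * D) (hk0 : 0 ≤ kc) (hkc : kc ≤ Ck * L * a) (haD : a ≤ D) (hCk : 0 ≤ Ck) (hD1 : 1 ≤ D)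
    (hw : w * T ≤ 50 * y ^ 2 * D + (5 + 8 * A) * y ^ 2 * (C * D)) :
    (40 * E * (l * T + G) + w * G * T + 16 * A * q * S * C * N + 8 * A * q * G * kc) * B ≤
      (80 + 50 + 13 * C + 32 * C + 8 * Ck) * (L ^ 3 * y ^ 5 * D) := by
  subst hG hq
  have hL3 : 1 ≤ L ^ 3 := one_le_pow₀ hL
  have hL0 : 0 ≤ L := by linarith
  have hy0 : 0 ≤ y := by linarith
  have hy2 : 1 ≤ y ^ 2 := one_le_pow₀ hy
  have hy5 : 1 ≤ y ^ 5 := one_le_pow₀ hy
  have key : ∀ {c : ℝ} {m k : ℕ}, 0 ≤ c → m ≤ 3 → k ≤ 5 → c * (L ^ m * y ^ k * D) ≤ c * (L ^ 3 * y ^ 5 * D) := by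
    intro c m k hc hm hk
    have h1 : L ^ m ≤ L ^ 3 := pow_le_pow_right₀ hL hm
    have h2 : y ^ k ≤ y ^ 5 := pow_le_pow_right₀ hy hk
    gcongr
  have t1 : 40 * E * (l * T + G) * G ≤ 80 * (L ^ 3 * y ^ 5 * D) := by
    have h1 : l * T + G ≤ 2 * (y * D) := by
      have : G ≤ y * D := hB.trans (le_mul_of_one_le_right hy0 hD1)
      linarith
    calc 40 * E * (l * T + G) * G ≤ 40 * y * (2 * (y * D)) * y := by gcongr
      _ = 80 * (L ^ 0 * y ^ 3 * D) := by ring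
      _ ≤ 80 * (L ^ 3 * y ^ 5 * D) := key (by norm_num) (by norm_num) (by norm_num)
  have t2 : w * G * T * G ≤ (50 + 13 * C) * (L ^ 3 * y ^ 5 * D) := by
    have h1 : (5 + 8 * A) ≤ 13 * (L ^ 2 * y) := by
      have : 1 ≤ L ^ 2 * y := one_le_mul_of_one_le_of_one_le (one_le_pow₀ hL) hy
      linarith
    calc w * G * T * G = (w * T) * (G * G) := by ring
      _ ≤ (50 * y ^ 2 * D + (5 + 8 * A) * y ^ 2 * (C * D)) * (y * y) := by gcongr
      _ ≤ (50 * y ^ 2 * D + (13 * (L ^ 2 * y)) * y ^ 2 * (C * D)) * (y * y) := by gcongr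
      _ = 50 * (L ^ 0 * y ^ 4 * D) + 13 * C * (L ^ 2 * y ^ 5 * D) := by ring
      _ ≤ 50 * (L ^ 3 * y ^ 5 * D) + 13 * C * (L ^ 3 * y ^ 5 * D) :=
          add_le_add (key (by norm_num) (by norm_num) (by norm_num)) (key (by positivity) (by norm_num) le_rfl)
      _ = _ := by ring
  have t3 : 16 * A * y ^ 2 * S * C * N * G ≤ 32 * C * (L ^ 3 * y ^ 5 * D) := by
    calc 16 * A * y ^ 2 * S * C * N * G = 16 * A * y ^ 2 * C * (S * N) * G := by ring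
      _ ≤ 16 * (L ^ 2 * y) * y ^ 2 * C * (2 * L * y * D) * y := by gcongr
      _ = 32 * C * (L ^ 3 * y ^ 5 * D) := by ring
  have t4 : 8 * A * y ^ 2 * G * kc * G ≤ 8 * Ck * (L ^ 3 * y ^ 5 * D) := by
    calc 8 * A * y ^ 2 * G * kc * G ≤ 8 * (L ^ 2 * y) * y ^ 2 * y * (Ck * L * D) * y := by
          gcongr
          exact hkc.trans (by gcongr)
      _ = 8 * Ck * (L ^ 3 * y ^ 5 * D) := by ring
  have e : (40 * E * (l * T + G) + w * G * T + 16 * A * y ^ 2 * S * C * N + 8 * A * y ^ 2 * G * kc) * G =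
      40 * E * (l * T + G) * G + w * G * T * G + 16 * A * y ^ 2 * S * C * N * G + 8 * A * y ^ 2 * G * kc * G := by ring
  rw [e]
  linarith

/-- bookkeeping of the small errors, part 2 -/
lemma small2 {L y D B q kc Ck a X δ T Cl : ℝ} (hL : 1 ≤ L) (hy : 1 ≤ y) (hD1 : 1 ≤ D) (hB0 : 0 ≤ B) (hB : B ≤ y)
    (hq : q = y ^ 2) (hkc : kc ≤ Ck * L * a) (haD : a ≤ D) (hCk : 0 ≤ Ck) (hCl : 0 ≤ Cl)
    (hX0 : 0 < X) (ha0 : 0 < a) (hX : 1 / X ≤ y) (hδ : |δ| ≤ y) (hTa : T / a ≤ D) (hT : 0 ≤ T) (hya : y ≤ a) :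
    ((5 * q * (4 * Cl * L)) * (5 * q * kc) + (B * (|δ| / (a * X)) * T + 12 * B ^ 2 * (a + |δ|)) + 40 * y + 8 * (a + |δ|)) * B ≤
      (100 * Cl * Ck + 81) * (L ^ 3 * y ^ 5 * D) := by
  subst hq
  have hL0 : 0 ≤ L := by linarith
  have hy0 : 0 ≤ y := by linarith
  have hD0 : 0 ≤ D := by linarith
  have hδ0 := abs_nonneg δ
  have hya2 : a + |δ| ≤ 2 * D := by linarith
  have key : ∀ {c : ℝ} {m k : ℕ}, 0 ≤ c → m ≤ 3 → k ≤ 5 → c * (L ^ m * y ^ k * D) ≤ c * (L ^ 3 * y ^ 5 * D) := by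
    intro c m k hc hm hk
    have h1 : L ^ m ≤ L ^ 3 := pow_le_pow_right₀ hL hm
    have h2 : y ^ k ≤ y ^ 5 := pow_le_pow_right₀ hy hk
    gcongr
  have t1 : (5 * y ^ 2 * (4 * Cl * L)) * (5 * y ^ 2 * kc) * B ≤ 100 * Cl * Ck * (L ^ 3 * y ^ 5 * D) := by
    calc (5 * y ^ 2 * (4 * Cl * L)) * (5 * y ^ 2 * kc) * B ≤ (5 * y ^ 2 * (4 * Cl * L)) * (5 * y ^ 2 * (Ck * L * D)) * y := by
          gcongr
          exact hkc.trans (by gcongr)
      _ = 100 * Cl * Ck * (L ^ 2 * y ^ 5 * D) := by ring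
      _ ≤ _ := key (by positivity) (by norm_num) le_rfl
  have t2 : B * (|δ| / (a * X)) * T * B ≤ 1 * (L ^ 3 * y ^ 5 * D) := by
    have e : B * (|δ| / (a * X)) * T * B = B * B * |δ| * (1 / X) * (T / a) := by field_simp
    rw [e]
    calc B * B * |δ| * (1 / X) * (T / a) ≤ y * y * y * y * D := by gcongr
      _ = 1 * (L ^ 0 * y ^ 4 * D) := by ring
      _ ≤ _ := key (by norm_num) (by norm_num) (by norm_num)
  have t3 : 12 * B ^ 2 * (a + |δ|) * B ≤ 24 * (L ^ 3 * y ^ 5 * D) := by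
    calc 12 * B ^ 2 * (a + |δ|) * B ≤ 12 * y ^ 2 * (2 * D) * y := by gcongr
      _ = 24 * (L ^ 0 * y ^ 3 * D) := by ring
      _ ≤ _ := key (by norm_num) (by norm_num) (by norm_num)
  have t4 : 40 * y * B ≤ 40 * (L ^ 3 * y ^ 5 * D) := by
    calc 40 * y * B ≤ 40 * y * y * D := by
          calc 40 * y * B ≤ 40 * y * y := by gcongr
            _ ≤ 40 * y * y * D := le_mul_of_one_le_right (by positivity) hD1
      _ = 40 * (L ^ 0 * y ^ 2 * D) := by ring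
      _ ≤ _ := key (by norm_num) (by norm_num) (by norm_num)
  have t5 : 8 * (a + |δ|) * B ≤ 16 * (L ^ 3 * y ^ 5 * D) := by
    calc 8 * (a + |δ|) * B ≤ 8 * (2 * D) * y := by gcongr
      _ = 16 * (L ^ 0 * y ^ 1 * D) := by ring
      _ ≤ _ := key (by norm_num) (by norm_num) (by norm_num)
  have e : ((5 * y ^ 2 * (4 * Cl * L)) * (5 * y ^ 2 * kc) + (B * (|δ| / (a * X)) * T + 12 * B ^ 2 * (a + |δ|)) + 40 * y + 8 * (a + |δ|)) * B =
      (5 * y ^ 2 * (4 * Cl * L)) * (5 * y ^ 2 * kc) * B + B * (|δ| / (a * X)) * T * B + 12 * B ^ 2 * (a + |δ|) * B + 40 * y * B + 8 * (a + |δ|) * B := by ring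
  rw [e]
  linarith

end Pool.Agent.Helper57.UV
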