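import Pool.Agent.Helper57.UV.LawV

namespace Pool.Agent.Helper57.UV

open Set MeasureTheory Filter Topology
open Pool.Agent.Helper57.LH
open Pool.Agent.Helper57.Zeta
open Pool.Agent.Helper57.LS
open Pool.Agent.Helper57.US
open Pool.Agent.Helper57.PC (SN SN_pos)
open Pool.Agent.Helper4.PU (AT)

/-- powers of `T` used below -/
lemma powers {T : ℝ} (hT : 1 ≤ T) : T ^ (3/4 : ℝ) ≤ T ^ (15/16 : ℝ) ∧ T / T ^ (3/4 : ℝ) ≤ T ^ (15/16 : ℝ) ∧ T ^ (1/100 : ℝ) ≤ T ^ (3/4 : ℝ) ∧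
    T ^ (-(1/16) : ℝ) * T = T ^ (15/16 : ℝ) ∧ T ^ (-(3/8) : ℝ) * T = T ^ (5/8 : ℝ) ∧ T ^ (5/8 : ℝ) ≤ T ^ (3/4 : ℝ) ∧
    (Real.sqrt T) ^ (-(3/4) : ℝ) = T ^ (-(3/8) : ℝ) ∧ Real.sqrt T ≤ T ^ (3/4 : ℝ) ∧ (T ^ (-(3/8) : ℝ)) ^ 2 * T ^ (3/4 : ℝ) = 1 ∧
    (T ^ (1/100 : ℝ)) ^ 5 * T ^ (15/16 : ℝ) = T ^ (79/80 : ℝ) ∧ (T ^ (1/100 : ℝ)) ^ 2 = T ^ (1/50 : ℝ) := by
  have hT0 : 0 < T := by linarith
  have hmono : ∀ {s t : ℝ}, s ≤ t → T ^ s ≤ T ^ t := fun h => Real.rpow_le_rpow_of_exponent_le hT h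
  refine ⟨hmono (by norm_num), ?_, hmono (by norm_num), ?_, ?_, hmono (by norm_num), ?_, ?_, ?_, ?_, ?_⟩
  · nth_rewrite 1 [← Real.rpow_one T]
    rw [← Real.rpow_sub hT0]
    exact hmono (by norm_num)
  · nth_rewrite 2 [← Real.rpow_one T]
    rw [← Real.rpow_add hT0]; norm_num
  · nth_rewrite 2 [← Real.rpow_one T]
    rw [← Real.rpow_add hT0]; norm_num
  · rw [Real.sqrt_eq_rpow, ← Real.rpow_mul hT0.le]; norm_num
  · rw [Real.sqrt_eq_rpow]; exact hmono (by norm_num)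
  · rw [← Real.rpow_natCast, ← Real.rpow_mul hT0.le, ← Real.rpow_add hT0]; norm_num
  · rw [← Real.rpow_natCast, ← Real.rpow_mul hT0.le, ← Real.rpow_add hT0]; norm_num
  · rw [← Real.rpow_natCast, ← Real.rpow_mul hT0.le]; norm_num

lemma kc_bd {T L a δ C Cl N : ℝ} (hL0 : 0 ≤ L) (hC : 0 ≤ C) (hCl : 0 ≤ Cl)
    (hs : Real.sqrt T ≤ a) (hδ : |δ| ≤ a) (hp : (Real.sqrt T) ^ (-(3/4) : ℝ) * T ≤ a) (hN : N ≤ T * L) :
    (4 * Cl * L) * (2 * a + 2 * |δ| + 2 * Real.sqrt T) + 4 * (Real.sqrt T) ^ (-(3/4) : ℝ) * N * C ≤ (24 * Cl + 4 * C) * L * a := by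
  have h1 : (4 * Cl * L) * (2 * a + 2 * |δ| + 2 * Real.sqrt T) ≤ (4 * Cl * L) * (6 * a) := by
    gcongr
    linarith
  have h2 : 4 * (Real.sqrt T) ^ (-(3/4) : ℝ) * N * C ≤ 4 * C * L * a := by
    calc 4 * (Real.sqrt T) ^ (-(3/4) : ℝ) * N * C ≤ 4 * (Real.sqrt T) ^ (-(3/4) : ℝ) * (T * L) * C := by gcongr
      _ = 4 * C * L * ((Real.sqrt T) ^ (-(3/4) : ℝ) * T) := by ring
      _ ≤ 4 * C * L * a := by gcongr
  linarith

lemma SN_bd {T L y B X a D N : ℝ} (hB0 : 0 < B) (hB : B ≤ y) (hX0 : 0 < X) (hX : 1 / X ≤ y) (hT0 : 0 < T) (ha0 : 0 < a) (hy : 0 ≤ y)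
    (hpa : (T ^ (-(3/8) : ℝ)) ^ 2 * a = 1) (hpT : T ^ (-(3/8) : ℝ) * T ≤ D) (hN0 : 0 ≤ N) (hN : N ≤ T * L) :
    Real.sqrt (2 * B * (1 / (a * X))) * N ≤ 2 * L * y * D := by
  have hp : 0 < T ^ (-(3/8) : ℝ) := Real.rpow_pos_of_pos hT0 _
  have h1 : Real.sqrt (2 * B * (1 / (a * X))) ≤ 2 * y * T ^ (-(3/8) : ℝ) := by
    apply Real.sqrt_le_iff.mpr
    refine ⟨by positivity, ?_⟩
    have e1 : 2 * B * (1 / (a * X)) = 2 * B * (1 / X) * (1 / a) := by field_simp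
    have e2 : 1 / a = (T ^ (-(3/8) : ℝ)) ^ 2 := by rw [div_eq_iff ha0.ne']; exact hpa.symm
    rw [e1, e2]
    calc 2 * B * (1 / X) * (T ^ (-(3/8) : ℝ)) ^ 2 ≤ 2 * y * y * (T ^ (-(3/8) : ℝ)) ^ 2 := by gcongr
      _ ≤ (2 * y * T ^ (-(3/8) : ℝ)) ^ 2 := by
          have : 0 ≤ y * y * (T ^ (-(3/8) : ℝ)) ^ 2 := by positivity
          have e3 : (2 * y * T ^ (-(3/8) : ℝ)) ^ 2 = 2 * y * y * (T ^ (-(3/8) : ℝ)) ^ 2 + 2 * (y * y * (T ^ (-(3/8) : ℝ)) ^ 2) := by ring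
          linarith
  calc Real.sqrt (2 * B * (1 / (a * X))) * N ≤ (2 * y * T ^ (-(3/8) : ℝ)) * (T * L) := by
        exact mul_le_mul h1 hN hN0 (by positivity)
    _ = 2 * L * y * (T ^ (-(3/8) : ℝ) * T) := by ring
    _ ≤ 2 * L * y * D := by
        have hL : 0 ≤ L := by
          have : 0 ≤ T * L := hN0.trans hN
          exact nonneg_of_mul_nonneg_right this hT0
        gcongr

lemma lam_mono {E l G T w A q S N C kc β α C' : ℝ} (hE : 0 ≤ E) (hl : 0 ≤ l) (hβα : β - α ≤ T) (hw : 0 ≤ w) (hG : 0 ≤ G) (hA : 0 ≤ A) (hq : 0 ≤ q)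
    (hS : 0 ≤ S) (hC : C ≤ C') (hN : 0 ≤ N) :
    40 * E * (l * (β - α) + G) + w * G * (β - α) + 16 * A * q * S * C * N + 8 * A * q * G * kc ≤
      40 * E * (l * T + G) + w * G * T + 16 * A * q * S * C' * N + 8 * A * q * G * kc := by
  gcongr

lemma sqrt_KT {K T B : ℝ} (hK : 0 ≤ K) (hT : 0 ≤ T) (hB : 1 ≤ B) :
    2 * (Real.sqrt (K * (T / B ^ 2)) * Real.sqrt (9 * T)) + K * (T / B ^ 2) ≤ (6 * Real.sqrt K + K) * (T / B) := by
  have hB0 : 0 < B := by linarith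
  have h1 : Real.sqrt (K * (T / B ^ 2)) * Real.sqrt (9 * T) = 3 * Real.sqrt K * (T / B) := by
    rw [← Real.sqrt_mul (by positivity)]
    have e : K * (T / B ^ 2) * (9 * T) = K * (3 * (T / B)) ^ 2 := by field_simp; ring
    rw [e, Real.sqrt_mul hK, Real.sqrt_sq (by positivity)]
    ring
  have h2 : T / B ^ 2 ≤ T / B := div_le_div_of_nonneg_left hT hB0 (le_self_pow₀ hB (by norm_num))
  rw [h1]
  have h3 : K * (T / B ^ 2) ≤ K * (T / B) := by gcongr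
  linarith

theorem Y_corrV : ∃ C : ℝ, 0 < C ∧ ∀ᶠ T : ℝ in atTop, ∀ B v : ℝ, 9600 ≤ B → B ≤ T ^ (1/100 : ℝ) → |v| ≤ T ^ (1/100 : ℝ) →
    |(∫ t, Yf (ZT T) (Real.log T / B) t * Yf (ZT T) (Real.log T / B) (t + -(2 * Real.pi * v / Real.log T))) -
      T * (AT T * B ^ 2 + PXc (Real.log T / B) (2 * Real.pi * v / Real.log T))| ≤ C * (T / B) := by
  obtain ⟨K, hK, hE2⟩ := E_l2V
  have hCLA := CLA_pos
  have hC1 := C1_nonneg
  have hCT := CT2_nonneg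
  have hpi := Real.pi_pos
  obtain ⟨Cc, hCc⟩ : ∃ Cc, Cc = CT2 + C1 := ⟨_, rfl⟩
  obtain ⟨Ck, hCk⟩ : ∃ Ck, Ck = 24 * CLA + 4 * C1 := ⟨_, rfl⟩
  have hCc0 : 0 ≤ Cc := by rw [hCc]; positivity
  have hCk0 : 0 ≤ Ck := by rw [hCk]; positivity
  obtain ⟨M0, hM0⟩ : ∃ M0, M0 = 2 * (80 + 50 + 13 * Cc + 32 * Cc + 8 * Ck) + (100 * CLA * Ck + 81) := ⟨_, rfl⟩
  refine ⟨6 * Real.sqrt K + K + 1, by positivity, ?_⟩
  have hl := Real.tendsto_log_atTop
  filter_upwards [hE2, eventually_ge_atTop (1600:ℝ), hl.eventually_ge_atTop 40, NT_le_ev, log_pow_le M0 3 (s := 79/80) (by norm_num),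
    log_pow_le 8 0 (s := 3/4) (by norm_num), log_pow_le 32 0 (s := 1/100) (by norm_num)] with T g1 g2 g3 g4 g5 g6 g7 B v hB hBy hvy
  have hT0 : 0 < T := by linarith
  have hT1 : 1 ≤ T := by linarith
  have hT3 : 3 ≤ T := by linarith
  have hB0 : 0 < B := by linarith
  have g1' := g1 B hB hBy
  have e7 : Real.exp (Real.log T / B) = T ^ (1 / B) := by
    rw [Real.rpow_def_of_pos hT0]; congr 1; ring
  have e8 : Real.exp (3 * (Real.log T / B)) = T ^ (3 / B) := by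
    rw [Real.rpow_def_of_pos hT0]; congr 1; ring
  have hATd : AT T = ((Real.log T - Real.log (2 * Real.pi)) ^ 2 - 2 * (Real.log T - Real.log (2 * Real.pi)) + 2) / Real.log T ^ 2 := rfl
  obtain ⟨pw1, pw2, pw3, pw4, pw5, pw6, pw7, pw8, pw9, pw10, pw11⟩ := powers hT1
  have hD1 : 1 ≤ T ^ (15/16 : ℝ) := Real.one_le_rpow hT1 (by norm_num)
  have hy1 : 1 ≤ T ^ (1/100 : ℝ) := Real.one_le_rpow hT1 (by norm_num)
  obtain ⟨L, hL⟩ : ∃ L, L = Real.log T := ⟨_, rfl⟩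
  obtain ⟨X, hX⟩ : ∃ X, X = L / B := ⟨_, rfl⟩
  rw [← hL] at g1' g3 g4 g5 hATd ⊢
  rw [← hX] at g1' ⊢
  rw [← hL, ← hX] at e7 e8
  rw [pow_zero, mul_one] at g6 g7
  have hL1 : 1 ≤ L := by linarith
  have hL0 : 0 < L := by linarith
  have hX0 : 0 < X := by rw [hX]; positivity
  obtain ⟨hrX, hqX⟩ := scale_facts (T := T) (L := L) (B := B) (X := X) hT1 hL1 hB0 hBy hX
  have hexpX : Real.exp X ≤ T ^ (1/100 : ℝ) := by
    rw [e7]
    apply Real.rpow_le_rpow_of_exponent_le hT1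
    have : 1 / B ≤ 1 / 9600 := one_div_le_one_div_of_le (by norm_num) hB
    linarith
  have hexp3X : Real.exp (3 * X) ≤ T ^ (1/100 : ℝ) := by
    rw [e8]
    apply Real.rpow_le_rpow_of_exponent_le hT1
    have : 3 / B ≤ 3 / 9600 := by gcongr
    linarith
  obtain ⟨a, ha⟩ : ∃ a, a = T ^ (3/4 : ℝ) := ⟨_, rfl⟩
  obtain ⟨y, hy⟩ : ∃ y, y = T ^ (1/100 : ℝ) := ⟨_, rfl⟩
  obtain ⟨D, hD⟩ : ∃ D, D = T ^ (15/16 : ℝ) := ⟨_, rfl⟩
  obtain ⟨q, hq⟩ : ∃ q, q = T ^ (1/50 : ℝ) := ⟨_, rfl⟩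
  rw [← ha] at g1' g6 pw1 pw2 pw3 pw6 pw8 pw9
  rw [← hy] at hBy hvy pw3 pw10 pw11 hy1 hrX hexpX hexp3X g7
  rw [← hD] at pw1 pw2 pw4 pw10 hD1
  rw [← hq] at hqX pw11
  have hq1 : 1 ≤ q := by rw [← pw11]; exact one_le_pow₀ hy1
  have hsT20 : 40 ≤ Real.sqrt T := by
    rw [Real.le_sqrt (by norm_num) hT0.le]
    linarith
  have ha40 : 40 ≤ a := hsT20.trans pw8
  have ha0 : 0 < a := by linarith
  have hXy : 1 / X ≤ y := by rw [div_le_iff₀ hX0]; exact hrX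
  obtain ⟨δ, hδ⟩ : ∃ δ : ℝ, δ = -(2 * Real.pi * v / L) := ⟨_, rfl⟩
  have hδ' : 2 * Real.pi * v / L = -δ := by rw [hδ]; ring
  rw [hδ', neg_neg]
  have hδabs : |δ| ≤ y := by
    rw [hδ, abs_neg, abs_div, abs_mul, abs_of_pos (by positivity : 0 < 2 * Real.pi), abs_of_pos hL0, div_le_iff₀ hL0]
    have h2 : 2 * Real.pi ≤ 40 := by linarith [Real.pi_lt_four]
    calc 2 * Real.pi * |v| ≤ 40 * y := by gcongr
      _ = y * 40 := by ring
      _ ≤ y * L := by gcongr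
  have hδa : |δ| ≤ a := hδabs.trans pw3
  have hδ0 := abs_nonneg δ
  have hδ1 := le_abs_self δ
  have hδ2 := neg_abs_le δ
  have h8a : 8 * a ≤ T := g6
  have hmid : a + |δ| ≤ T - a - |δ| := by linarith
  have hNT0 : 0 ≤ NT T := by
    rw [← sum_ZT_mx]
    exact Finset.sum_nonneg fun ρ _ => mx_nonneg _
  -- prime sum
  have hPS : ∫ t in Icc a (T - a), PS X t ^ 2 ≤ 9 * T := by
    rw [integral_Icc_eq_integral_Ioc, ← intervalIntegral.integral_of_le (by linarith : a ≤ T - a)]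
    refine (PS_sq hX0 (by linarith)).trans ?_
    have : 32 * Real.exp (3 * X) ≤ T := by
      calc 32 * Real.exp (3 * X) ≤ 32 * y := by gcongr
        _ ≤ T := g7
    linarith
  -- complement mass
  obtain ⟨kc, hkc⟩ : ∃ kc, kc = (4 * CLA * L) * (2 * a + 2 * |δ| + 2 * Real.sqrt T) + 4 * (Real.sqrt T) ^ (-(3/4) : ℝ) * NT T * C1 := ⟨_, rfl⟩
  have hZT : ∀ ρ ∈ ZT T, 0 ≤ (ρ:ℂ).im ∧ (ρ:ℂ).im ≤ T := fun ρ hρ => mem_ZT.mp hρ
  have hk1 : ∫ t in (Icc (a + |δ|) (T - a - |δ|))ᶜ, KS (ZT T) t ≤ kc := by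
    refine (KS_compl hT3 (by linarith : 1 ≤ Real.sqrt T) (by linarith) (by linarith) hZT).trans (le_of_eq ?_)
    rw [sum_ZT_mx, ← hL, hkc]
    ring
  have hk2 : ∫ t in (Icc (a + |δ| + δ) (T - a - |δ| + δ))ᶜ, KS (ZT T) t ≤ kc := by
    refine (KS_compl hT3 (by linarith : 1 ≤ Real.sqrt T) (by linarith) (by linarith) hZT).trans (le_of_eq ?_)
    rw [sum_ZT_mx, ← hL, hkc]
    ring
  have hkc0 : 0 ≤ kc := (integral_nonneg fun t => KS_nonneg _ _).trans hk1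
  have hkcb : kc ≤ Ck * L * a := by
    rw [hkc, hCk]
    apply kc_bd hL0.le hC1 hCLA.le pw8 hδa _ g4
    rw [pw7, pw5]
    exact pw6
  -- pointwise bound for the linear statistics
  obtain ⟨w, hw⟩ : ∃ w, w = 50 * y ^ 2 / a + (5 + 8 * AX X) * q * (CT2 * T ^ (-(1/16) : ℝ)) := ⟨_, rfl⟩
  have hAX0 := AX_nonneg X
  have hTm : 0 < T ^ (-(1/16) : ℝ) := Real.rpow_pos_of_pos hT0 _
  have hw0 : 0 ≤ w := by
    rw [hw]
    have hq0 : 0 ≤ q := by linarith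
    positivity
  have hpt : ∀ t, a ≤ t → t ≤ T - a → |bt T X t - PS X t - Yv T X t| ≤ w := by
    intro t ht1 ht2
    have hexpt : Real.exp (X / 2) ≤ t := by
      have : Real.exp (X / 2) ≤ Real.exp X := Real.exp_le_exp.mpr (by linarith)
      linarith
    have h1 := MT_bt (T := T) (X := X) (r := y) (t := t) hX0 hy1 hrX (by rw [← ha]; linarith) (by rw [← ha]; exact ht1) (by linarith) hexpt
    have h2 := Yv_approx (T := T) (X := X) (q := q) (t := t) hT1 (by rw [← ha]; linarith) hX0 hq1 hqX (by rw [← ha]; exact ht1) (by rw [← ha]; exact ht2)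
    rw [← ha] at h1
    have e : bt T X t - PS X t - Yv T X t = -(MT X t / X - bt T X t) + (MT X t / X - PS X t - Yv T X t) := by ring
    rw [e, hw]
    refine (abs_add_le _ _).trans ?_
    rw [abs_neg]
    exact add_le_add h1 h2
  have hbb := bt_bound hT1 (by rw [← ha]; linarith : 8 ≤ T ^ (3/4 : ℝ)) hL hB0 hL0 hX
  have hlip := bt_lip hT0 hX0
  rw [← ha] at hlip
  have hbc := bt_cont hT0 X
  obtain ⟨l, hl'⟩ : ∃ l, l = 1 / (a * X) := ⟨_, rfl⟩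
  have hl0 : 0 ≤ l := by rw [hl']; positivity
  have hlipd : ∀ d s t : ℝ, |bt T X (s + d) - bt T X (t + d)| ≤ l * |s - t| := by
    intro d s t
    have := hlip (s + d) (t + d)
    rw [add_sub_add_right_eq_sub] at this
    refine this.trans (le_of_eq ?_)
    rw [hl']; ring
  obtain ⟨lam, hlam⟩ : ∃ lam, lam = 40 * Real.exp X * (l * T + B) + w * B * T + 16 * AX X * q * Real.sqrt (2 * B * l) * Cc * NT T + 8 * AX X * q * B * kc := ⟨_, rfl⟩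
  have hq0 : 0 ≤ q := by linarith
  have hE0 := (Real.exp_pos X).le
  have hl1 : |(∫ t in Icc (a + |δ|) (T - a - |δ|), Yf (ZT T) X t * bt T X (t + δ)) - ∫ t in Icc (a + |δ|) (T - a - |δ|), bt T X t * bt T X (t + δ)| ≤ lam := by
    refine (lin_stat (g := fun t => bt T X (t + δ)) hX0 hq1 hqX hT0 hmid (hbc.comp (by fun_prop)) (fun t => hbb _) (hlipd δ) hl0
      (fun t ht => hpt t (by linarith [ht.1]) (by linarith [ht.2])) hk1).trans ?_
    rw [hlam]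
    exact lam_mono hE0 hl0 (by linarith) hw0 hB0.le hAX0 hq0 (Real.sqrt_nonneg _) (by rw [hCc]; linarith) hNT0
  have hl2 : |(∫ t in Icc (a + |δ| + δ) (T - a - |δ| + δ), Yf (ZT T) X t * bt T X (t + -δ)) - ∫ t in Icc (a + |δ| + δ) (T - a - |δ| + δ), bt T X t * bt T X (t + -δ)| ≤ lam := by
    refine (lin_stat (g := fun t => bt T X (t + -δ)) hX0 hq1 hqX hT0 (by linarith) (hbc.comp (by fun_prop)) (fun t => hbb _) (hlipd (-δ)) hl0
      (fun t ht => hpt t (by linarith [ht.1]) (by linarith [ht.2])) hk2).trans ?_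
    rw [hlam]
    exact lam_mono hE0 hl0 (by linarith) hw0 hB0.le hAX0 hq0 (Real.sqrt_nonneg _) (by rw [hCc]; linarith) hNT0
  have hY0 : ∀ t, Yf (ZT T) X t ≤ 5 * q * (4 * CLA * L) := by
    intro t
    refine (Yf_q hX0 hq1 hqX t).trans ?_
    have := KS_le_log hT3 hZT t
    rw [← hL] at this
    gcongr
  have hcorr := corr_v (T := T) (X := X) (q := q) (a := a) (b := T - a) (δ := δ) (η := K * (T / B ^ 2)) (p := 9 * T) (lam := lam) (kc := kc) (Y0 := 5 * q * (4 * CLA * L))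
    hX0 hq1 hqX hT0 g1' hPS hl1 hl2 hk1 hY0
  have hbt2 := btbt (T := T) (X := X) (L := L) (B := B) (δ := δ) hT1 (by rw [← ha]; linarith) hL hL1 hB0 hX (by rw [← ha]; exact hmid)
  rw [← ha] at hbt2
  have hPPc := PS_cross hX0 δ (a + |δ|) (T - a - |δ|)
  rw [intervalIntegral.integral_of_le hmid, ← integral_Icc_eq_integral_Ioc] at hPPc
  have hPx := PXc_abs hX0 (-δ)
  have hPe : PXc X (-δ) = 1 / 2 * ∑ n ∈ Finset.range (NX X + 1), ap X n ^ 2 * Real.cos (δ * Real.log n) := by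
    unfold PXc
    congr 1
    refine Finset.sum_congr rfl fun n _ => ?_
    rw [neg_mul, Real.cos_neg]
  -- bookkeeping
  have hs1 := small1 (L := L) (y := y) (D := D) (B := B) (E := Real.exp X) (w := w) (G := B) (l := l) (q := q) (A := AX X) (S := Real.sqrt (2 * B * l))
    (C := Cc) (N := NT T) (kc := kc) (Ck := Ck) (a := a) (T := T) hL1 hy1 hB0.le hBy hexpX rfl (by positivity) (by
      rw [hl']
      have e : 1 / (a * X) * T = 1 / X * (T / a) := by field_simp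
      rw [e]
      gcongr) pw11.symm hAX0 (by
      unfold AX
      have h1 : X / 2 ≤ L := by
        rw [hX, div_div]
        apply div_le_self hL0.le
        linarith
      have h2 : Real.exp (X / 2) ≤ y := by
        have : Real.exp (X / 2) ≤ Real.exp X := Real.exp_le_exp.mpr (by linarith)
        linarith
      gcongr) hCc0 (by positivity) (by
      rw [hl']
      exact SN_bd hB0 hBy hX0 hXy hT0 ha0 (by linarith) pw9 (by rw [pw5]; linarith) hNT0 g4) hkc0 hkcb pw1 hCk0 hD1 (by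
      rw [hw]
      have e : (50 * y ^ 2 / a + (5 + 8 * AX X) * q * (CT2 * T ^ (-(1/16) : ℝ))) * T = 50 * y ^ 2 * (T / a) + (5 + 8 * AX X) * q * (CT2 * (T ^ (-(1/16) : ℝ) * T)) := by ring
      rw [e, pw4, ← pw11]
      have : CT2 ≤ Cc := by rw [hCc]; linarith
      gcongr)
  rw [← hlam] at hs1
  have hs2 := small2 (L := L) (y := y) (D := D) (B := B) (q := q) (kc := kc) (Ck := Ck) (a := a) (X := X) (δ := δ) (T := T) (Cl := CLA)
    hL1 hy1 hD1 hB0.le hBy pw11.symm hkcb pw1 hCk0 hCLA.le hX0 ha0 hXy hδabs pw2 hT0.le pw3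
  have hZ : M0 * (L ^ 3 * y ^ 5 * D) ≤ T := by
    calc M0 * (L ^ 3 * y ^ 5 * D) = M0 * L ^ 3 * (y ^ 5 * D) := by ring
      _ = M0 * L ^ 3 * T ^ (79/80 : ℝ) := by rw [pw10]
      _ ≤ T := g5
  have hs3 : (2 * lam + ((5 * q * (4 * CLA * L)) * (5 * q * kc) + (B * (|δ| / (a * X)) * T + 12 * B ^ 2 * (a + |δ|)) + 40 * y + 8 * (a + |δ|))) ≤ T / B := by
    rw [le_div_iff₀ hB0]
    rw [hM0] at hZ
    linarith
  have hKT := sqrt_KT (K := K) (T := T) (B := B) hK.le hT0.le (by linarith)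
  set G := ∫ t, Yf (ZT T) X t * Yf (ZT T) X (t + δ)
  set Q := ∫ t in Icc (a + |δ|) (T - a - |δ|), bt T X t * bt T X (t + δ)
  set PP := ∫ t in Icc (a + |δ|) (T - a - |δ|), PS X t * PS X (t + δ)
  have hmain : T * (AT T * B ^ 2) = 1 / X ^ 2 * (T * ((L - Real.log (2 * Real.pi)) ^ 2 - 2 * (L - Real.log (2 * Real.pi)) + 2)) := by
    rw [hATd, hX]
    field_simp
  have hPP2 : |PP - T * PXc X (-δ)| ≤ 40 * y + 8 * (a + |δ|) := by
    have e : PP - T * PXc X (-δ) = (PP - (T - a - |δ| - (a + |δ|)) / 2 * ∑ n ∈ Finset.range (NX X + 1), ap X n ^ 2 * Real.cos (δ * Real.log n)) -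
        (2 * a + 2 * |δ|) * PXc X (-δ) := by
      rw [hPe]
      ring
    rw [e]
    refine (abs_sub _ _).trans ?_
    rw [abs_mul, abs_of_nonneg (by linarith : 0 ≤ 2 * a + 2 * |δ|)]
    have h1 : (2 * a + 2 * |δ|) * |PXc X (-δ)| ≤ (2 * a + 2 * |δ|) * 4 := by gcongr
    have h2 : 40 * Real.exp (3 * X) ≤ 40 * y := by gcongr
    linarith
  have a1 := abs_le.mp hcorr
  have a2 := abs_le.mp hbt2
  have a3 := abs_le.mp hPP2
  have e : G - T * (AT T * B ^ 2 + PXc X (-δ)) = (G - (Q + PP)) + (Q - T * (AT T * B ^ 2)) + (PP - T * PXc X (-δ)) := by ring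
  rw [e, hmain]
  have hfin : (6 * Real.sqrt K + K + 1) * (T / B) = (6 * Real.sqrt K + K) * (T / B) + T / B := by ring
  rw [hfin, abs_le]
  constructor <;> linarith [a1.1, a1.2, a2.1, a2.2, a3.1, a3.2]

end Pool.Agent.Helper57.UV
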