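import Pool.Agent.Helper57.UV.Osc
import Pool.Agent.Helper57.UV.EL2V

namespace Pool.Agent.Helper57.UV

open Set MeasureTheory Filter Topology
open Pool.Agent.Helper57.LH
open Pool.Agent.Helper57.Zeta
open Pool.Agent.Helper57.LS
open Pool.Agent.Helper57.US

/-- the sum with the true abscissae -/
noncomputable def Yv (T X t : ℝ) : ℝ := ∑ ρ ∈ ZT T, mx ρ * gs X ((ρ:ℂ).re - 1/2) (t - (ρ:ℂ).im)

lemma Yv_cont (T X : ℝ) : Continuous (Yv T X) := by
  unfold Yv
  apply continuous_finsetSum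
  intro ρ _
  exact continuous_const.mul ((gs_cont X _).comp (by fun_prop))

/-- maximal weight off the line -/
noncomputable def AX (X : ℝ) : ℝ := (X / 2) ^ 2 * Real.exp (X / 2)

lemma AX_nonneg (X : ℝ) : 0 ≤ AX X := by unfold AX; positivity

lemma AX_bound {X : ℝ} (hX : 0 < X) (ρ : ZS) : (|(ρ:ℂ).re - 1/2| * X) ^ 2 * Real.exp (|(ρ:ℂ).re - 1/2| * X) ≤ AX X := by
  have hr := zs_re ρ
  have h1 : |(ρ:ℂ).re - 1/2| ≤ 1/2 := by rw [abs_le]; constructor <;> linarith
  have h2 : |(ρ:ℂ).re - 1/2| * X ≤ X / 2 := by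
    calc |(ρ:ℂ).re - 1/2| * X ≤ 1/2 * X := by gcongr
      _ = X / 2 := by ring
  have h0 : 0 ≤ |(ρ:ℂ).re - 1/2| * X := by positivity
  unfold AX
  gcongr

lemma gsv_le {X q : ℝ} (hX : 0 < X) (hq1 : 1 ≤ q) (hqX : 1 ≤ q * X ^ 2) (ρ : ZS) (w : ℝ) :
    |gs X ((ρ:ℂ).re - 1/2) w| ≤ (5 + 8 * AX X) * q * Kd 1 w := by
  have h1 := gs_diff_bound hX ((ρ:ℂ).re - 1/2) w
  have h2 := gs_zero_decay hX w
  have h3 := gs_zero_nonneg hX w
  have h4 := Kd_q (w := w) hq1 hqX
  have hK := (Kd_pos X w).le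
  have h5 := AX_bound hX ρ
  have e : gs X ((ρ:ℂ).re - 1/2) w = gs X 0 w + (gs X ((ρ:ℂ).re - 1/2) w - gs X 0 w) := by ring
  rw [e]
  refine (abs_add_le _ _).trans ?_
  rw [abs_of_nonneg h3]
  have hA := AX_nonneg X
  calc gs X 0 w + |gs X ((ρ:ℂ).re - 1/2) w - gs X 0 w| ≤ 5 * Kd X w + 8 * AX X * Kd X w := by
        apply add_le_add h2
        refine h1.trans ?_
        gcongr
    _ = (5 + 8 * AX X) * Kd X w := by ring
    _ ≤ (5 + 8 * AX X) * (q * Kd 1 w) := by gcongr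
    _ = _ := by ring

/-- the explicit formula restricted to zeros in `[0,T]` -/
lemma Yv_approx {T X q t : ℝ} (hT : 1 ≤ T) (ha4 : 4 ≤ T ^ (3/4 : ℝ)) (hX : 0 < X) (hq1 : 1 ≤ q) (hqX : 1 ≤ q * X ^ 2)
    (ht : T ^ (3/4 : ℝ) ≤ t) (htT : t ≤ T - T ^ (3/4 : ℝ)) :
    |MT X t / X - PS X t - Yv T X t| ≤ (5 + 8 * AX X) * q * (CT2 * T ^ (-(1/16) : ℝ)) := by
  classical
  have hex := explicit hX t
  have h1 : Tendsto (fun F : Finset ZS => |(∑ ρ ∈ F, mx ρ * gs X ((ρ:ℂ).re - 1 / 2) (t - (ρ:ℂ).im)) - Yv T X t|) atTop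
      (𝓝 |MT X t / X - PS X t - Yv T X t|) := (Filter.Tendsto.sub_const hex _).abs
  apply le_of_tendsto h1
  filter_upwards [eventually_ge_atTop (ZT T)] with F hF
  have hsd : (∑ ρ ∈ F, mx ρ * gs X ((ρ:ℂ).re - 1 / 2) (t - (ρ:ℂ).im)) - Yv T X t = ∑ ρ ∈ F \ ZT T, mx ρ * gs X ((ρ:ℂ).re - 1 / 2) (t - (ρ:ℂ).im) := by
    unfold Yv
    rw [← Finset.sum_sdiff hF]
    ring
  rw [hsd]
  refine (Finset.abs_sum_le_sum_abs _ _).trans ?_
  have h2 : ∑ ρ ∈ F \ ZT T, |mx ρ * gs X ((ρ:ℂ).re - 1 / 2) (t - (ρ:ℂ).im)| ≤ (5 + 8 * AX X) * q * KS (F \ ZT T) t := by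
    unfold KS
    rw [Finset.mul_sum]
    refine Finset.sum_le_sum fun ρ _ => ?_
    have hm := mx_nonneg (ρ:ℂ)
    rw [abs_mul, abs_of_nonneg hm]
    calc mx ρ * |gs X ((ρ:ℂ).re - 1 / 2) (t - (ρ:ℂ).im)| ≤ mx ρ * ((5 + 8 * AX X) * q * Kd 1 (t - (ρ:ℂ).im)) := by
          gcongr
          exact gsv_le hX hq1 hqX ρ _
      _ = _ := by ring
  refine h2.trans ?_
  have hA := AX_nonneg X
  have hq0 : 0 ≤ q := by linarith
  have h3 := KS_tail hT ha4 ht htT (F \ ZT T) (fun ρ hρ => (Finset.mem_sdiff.mp hρ).2)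
  gcongr

/-- linear statistics of the zeros against a slowly varying weight -/
theorem lin_stat {T X q α β w0 G l kc : ℝ} (hX : 0 < X) (hq1 : 1 ≤ q) (hqX : 1 ≤ q * X ^ 2) (hT : 0 < T) (hαβ : α ≤ β)
    {g : ℝ → ℝ} (hg : Continuous g) (hG : ∀ t, |g t| ≤ G) (hl : ∀ s t, |g s - g t| ≤ l * |s - t|) (hl0 : 0 ≤ l)
    (hw : ∀ t ∈ Icc α β, |bt T X t - PS X t - Yv T X t| ≤ w0) (hkc : ∫ t in (Icc α β)ᶜ, KS (ZT T) t ≤ kc) :
    |(∫ t in Icc α β, Yf (ZT T) X t * g t) - ∫ t in Icc α β, bt T X t * g t| ≤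
      40 * Real.exp X * (l * (β - α) + G) + w0 * G * (β - α) + 16 * AX X * q * Real.sqrt (2 * G * l) * C1 * NT T + 8 * AX X * q * G * kc := by
  have hG0 : 0 ≤ G := (abs_nonneg _).trans (hG 0)
  have hA0 := AX_nonneg X
  have hq0 : 0 ≤ q := by linarith
  have hC1 := C1_nonneg
  set I := Icc α β with hI
  have hIm : MeasurableSet I := measurableSet_Icc
  have cY := Yf_cont (ZT T) X
  have cYv := Yv_cont T X
  have cb := bt_cont hT X
  have cP := PS_cont hX
  set D : ℝ → ℝ := fun t => Yv T X t - Yf (ZT T) X t with hD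
  have cD : Continuous D := cYv.sub cY
  have hDeq : ∀ t, D t = ∑ ρ ∈ ZT T, mx ρ * (gs X ((ρ:ℂ).re - 1/2) (t - (ρ:ℂ).im) - gs X 0 (t - (ρ:ℂ).im)) := by
    intro t
    rw [hD]
    simp only
    unfold Yv Yf
    rw [← Finset.sum_sub_distrib]
    refine Finset.sum_congr rfl fun ρ _ => ?_
    ring
  have hDle : ∀ t, |D t| ≤ 8 * AX X * q * KS (ZT T) t := by
    intro t
    rw [hDeq]
    refine (Finset.abs_sum_le_sum_abs _ _).trans ?_
    unfold KS
    rw [Finset.mul_sum]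
    refine Finset.sum_le_sum fun ρ _ => ?_
    have hm := mx_nonneg (ρ:ℂ)
    rw [abs_mul, abs_of_nonneg hm]
    have h1 := gs_diff_bound hX ((ρ:ℂ).re - 1/2) (t - (ρ:ℂ).im)
    have h4 := Kd_q (w := t - (ρ:ℂ).im) hq1 hqX
    have hK := (Kd_pos X (t - (ρ:ℂ).im)).le
    have h5 := AX_bound hX ρ
    have h6 : |gs X ((ρ:ℂ).re - 1/2) (t - (ρ:ℂ).im) - gs X 0 (t - (ρ:ℂ).im)| ≤ 8 * AX X * (q * Kd 1 (t - (ρ:ℂ).im)) := by
      refine h1.trans ?_
      gcongr
    calc mx ρ * |gs X ((ρ:ℂ).re - 1/2) (t - (ρ:ℂ).im) - gs X 0 (t - (ρ:ℂ).im)| ≤ mx ρ * (8 * AX X * (q * Kd 1 (t - (ρ:ℂ).im))) := by gcongr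
      _ = _ := by ring
  have iKS : Integrable (KS (ZT T)) := KS_integrable _
  have iD : Integrable D := (iKS.const_mul (8 * AX X * q)).mono' cD.aestronglyMeasurable (Eventually.of_forall fun t => by
    rw [Real.norm_eq_abs]; exact hDle t)
  have iDg : Integrable (fun t => D t * g t) := by
    refine (iD.norm.mul_const G).mono' (cD.mul hg).aestronglyMeasurable ?_
    filter_upwards with t
    rw [norm_mul]
    gcongr
    exact hG _
  -- full integral
  have hfull : |∫ t, D t * g t| ≤ 16 * AX X * q * Real.sqrt (2 * G * l) * C1 * NT T := by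
    have e1 : ∫ t, D t * g t = ∑ ρ ∈ ZT T, mx ρ * ∫ t, (gs X ((ρ:ℂ).re - 1/2) (t - (ρ:ℂ).im) - gs X 0 (t - (ρ:ℂ).im)) * g t := by
      have e2 : ∀ t, D t * g t = ∑ ρ ∈ ZT T, mx ρ * ((gs X ((ρ:ℂ).re - 1/2) (t - (ρ:ℂ).im) - gs X 0 (t - (ρ:ℂ).im)) * g t) := by
        intro t
        rw [hDeq, Finset.sum_mul]
        refine Finset.sum_congr rfl fun ρ _ => ?_
        ring
      simp_rw [e2]
      rw [integral_finsetSum]
      · refine Finset.sum_congr rfl fun ρ _ => ?_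
        rw [integral_const_mul]
      · intro ρ _
        apply Integrable.const_mul
        have i0 : Integrable (fun t => gs X ((ρ:ℂ).re - 1/2) (t - (ρ:ℂ).im) - gs X 0 (t - (ρ:ℂ).im)) :=
          (gsD_integrable hX ((ρ:ℂ).re - 1/2)).comp_sub_right _
        refine (i0.norm.mul_const G).mono' ?_ ?_
        · exact (((gs_cont X _).comp (by fun_prop)).sub ((gs_cont X _).comp (by fun_prop))).aestronglyMeasurable.mul hg.aestronglyMeasurable
        · filter_upwards with t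
          rw [norm_mul]
          gcongr
          exact hG _
    rw [e1]
    refine (Finset.abs_sum_le_sum_abs _ _).trans ?_
    rw [← sum_ZT_mx, Finset.mul_sum]
    refine Finset.sum_le_sum fun ρ _ => ?_
    have hm := mx_nonneg (ρ:ℂ)
    rw [abs_mul, abs_of_nonneg hm, mul_comm]
    gcongr
    exact gsD_lip hX hq1 hqX _ _ (AX_bound hX ρ) hg hG hl hl0
  have hcompl : |∫ t in Iᶜ, D t * g t| ≤ 8 * AX X * q * G * kc := by
    rw [← Real.norm_eq_abs]
    refine (norm_integral_le_integral_norm _).trans ?_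
    have h1 : ∫ t in Iᶜ, ‖D t * g t‖ ≤ ∫ t in Iᶜ, (8 * AX X * q * G) * KS (ZT T) t := by
      apply setIntegral_mono_on iDg.norm.integrableOn (iKS.const_mul _).integrableOn hIm.compl
      intro t _
      rw [norm_mul, Real.norm_eq_abs, Real.norm_eq_abs]
      have hKS := KS_nonneg (ZT T) t
      calc |D t| * |g t| ≤ (8 * AX X * q * KS (ZT T) t) * G := by
            gcongr
            · exact hDle t
            · exact hG t
        _ = _ := by ring
    rw [integral_const_mul] at h1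
    refine h1.trans ?_
    gcongr
  have hDI : |∫ t in I, D t * g t| ≤ 16 * AX X * q * Real.sqrt (2 * G * l) * C1 * NT T + 8 * AX X * q * G * kc := by
    have s1 := integral_add_compl (μ := volume) hIm iDg
    have e : ∫ t in I, D t * g t = (∫ t, D t * g t) - ∫ t in Iᶜ, D t * g t := by rw [← s1]; ring
    rw [e]
    exact (abs_sub _ _).trans (add_le_add hfull hcompl)
  have hPS : |∫ t in I, PS X t * g t| ≤ 40 * Real.exp X * (l * (β - α) + G) := by
    have := PS_osc hX hg hG hl hl0 hαβ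
    rwa [intervalIntegral.integral_of_le hαβ, ← integral_Icc_eq_integral_Ioc] at this
  have hW : |∫ t in I, (bt T X t - PS X t - Yv T X t) * g t| ≤ w0 * G * (β - α) := by
    have h := norm_setIntegral_le_of_norm_le_const (μ := volume) (s := I) (f := fun t => (bt T X t - PS X t - Yv T X t) * g t) (C := w0 * G)
      (by rw [hI, Real.volume_Icc]; exact ENNReal.ofReal_lt_top) (by
        intro t ht
        rw [norm_mul, Real.norm_eq_abs, Real.norm_eq_abs]
        have h1 := hw t ht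
        have h0 : 0 ≤ w0 := (abs_nonneg _).trans h1
        gcongr
        exact hG t)
    rw [Real.norm_eq_abs, hI, Real.volume_real_Icc_of_le hαβ] at h
    exact h
  have e : (∫ t in I, Yf (ZT T) X t * g t) - ∫ t in I, bt T X t * g t =
      -(∫ t in I, PS X t * g t) + (-(∫ t in I, (bt T X t - PS X t - Yv T X t) * g t) - ∫ t in I, D t * g t) := by
    have i1 : IntegrableOn (fun t => Yf (ZT T) X t * g t) I := ioc (cY.mul hg) _ _
    have i2 : IntegrableOn (fun t => bt T X t * g t) I := ioc (cb.mul hg) _ _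
    have i3 : IntegrableOn (fun t => -(PS X t * g t)) I := ioc (cP.mul hg).neg _ _
    have i4 : IntegrableOn (fun t => -((bt T X t - PS X t - Yv T X t) * g t)) I := ioc (((cb.sub cP).sub cYv).mul hg).neg _ _
    have i5 : IntegrableOn (fun t => D t * g t) I := ioc (cD.mul hg) _ _
    have i6 : IntegrableOn (fun t => -((bt T X t - PS X t - Yv T X t) * g t) - D t * g t) I := i4.sub i5
    rw [← integral_neg, ← integral_neg, ← integral_sub i1 i2, ← integral_sub i4 i5, ← integral_add i3 i6]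
    congr 1
    funext t
    rw [hD]
    ring
  rw [e]
  have a1 := abs_le.mp hPS
  have a2 := abs_le.mp hW
  have a3 := abs_le.mp hDI
  rw [abs_le]
  constructor <;> linarith [a1.1, a1.2, a2.1, a2.2, a3.1, a3.2]

end Pool.Agent.Helper57.UV
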