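import Pool.Agent.Helper57.UV.Ker
import Pool.Agent.Helper57.UV.GsInt
import Pool.Agent.Helper57.LS.PSCross

namespace Pool.Agent.Helper57.UV

open Set MeasureTheory Filter Topology
open Pool.Agent.Helper57.LH
open Pool.Agent.Helper57.Zeta
open Pool.Agent.Helper57.LS
open Pool.Agent.Helper57.US

/-- oscillation against a Lipschitz function -/
lemma osc {g : ℝ → ℝ} {G l c α β : ℝ} (hg : Continuous g) (hG : ∀ t, |g t| ≤ G) (hl : ∀ s t, |g s - g t| ≤ l * |s - t|)
    (hc : 0 < c) (hαβ : α ≤ β) : |∫ t in α..β, Real.cos (c * t) * g t| ≤ Real.pi / c * (l * (β - α) / 2 + G) := by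
  have hpi := Real.pi_pos
  obtain ⟨h, hh⟩ : ∃ h, h = Real.pi / c := ⟨_, rfl⟩
  have hh0 : 0 < h := by rw [hh]; positivity
  rw [← hh]
  have hcc : Continuous (fun t => Real.cos (c * t) * g t) := by fun_prop
  have hch : Continuous (fun t => Real.cos (c * t) * g (t + h)) := by fun_prop
  set I := ∫ t in α..β, Real.cos (c * t) * g t with hI
  have h1 : ∫ t in (α - h)..(β - h), Real.cos (c * t) * g (t + h) = -I := by
    have h2 := intervalIntegral.integral_comp_sub_right (a := α) (b := β) (fun t => Real.cos (c * t) * g (t + h)) h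
    rw [← h2, hI, ← intervalIntegral.integral_neg]
    apply intervalIntegral.integral_congr
    intro t _
    simp only
    have e : c * (t - h) = c * t - Real.pi := by rw [hh]; field_simp
    rw [e, Real.cos_sub_pi, sub_add_cancel]
    ring
  have h3 : ∫ t in (α - h)..(β - h), Real.cos (c * t) * g (t + h) =
      (∫ t in (α - h)..α, Real.cos (c * t) * g (t + h)) + (∫ t in α..β, Real.cos (c * t) * g (t + h)) - ∫ t in (β - h)..β, Real.cos (c * t) * g (t + h) := by
    rw [intervalIntegral.integral_add_adjacent_intervals (hch.intervalIntegrable _ _) (hch.intervalIntegrable _ _), eq_sub_iff_add_eq,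
      intervalIntegral.integral_add_adjacent_intervals (hch.intervalIntegrable _ _) (hch.intervalIntegrable _ _)]
  have h4 : ∫ t in α..β, Real.cos (c * t) * g (t + h) = I + ∫ t in α..β, Real.cos (c * t) * (g (t + h) - g t) := by
    rw [hI, ← intervalIntegral.integral_add (hcc.intervalIntegrable _ _) (by apply Continuous.intervalIntegrable; fun_prop)]
    apply intervalIntegral.integral_congr
    intro t _
    simp only
    ring
  have b1 : ∀ x : ℝ, |∫ t in (x - h)..x, Real.cos (c * t) * g (t + h)| ≤ G * h := by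
    intro x
    have := intervalIntegral.norm_integral_le_of_norm_le_const (a := x - h) (b := x) (C := G) (f := fun t => Real.cos (c * t) * g (t + h)) (by
      intro t _
      rw [Real.norm_eq_abs, abs_mul]
      calc |Real.cos (c * t)| * |g (t + h)| ≤ 1 * G := by
            gcongr
            · exact Real.abs_cos_le_one _
            · exact hG _
        _ = G := one_mul G)
    rw [Real.norm_eq_abs, sub_sub_cancel, abs_of_pos hh0] at this
    exact this
  have b2 : |∫ t in α..β, Real.cos (c * t) * (g (t + h) - g t)| ≤ (l * h) * (β - α) := by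
    have := intervalIntegral.norm_integral_le_of_norm_le_const (a := α) (b := β) (C := l * h) (f := fun t => Real.cos (c * t) * (g (t + h) - g t)) (by
      intro t _
      rw [Real.norm_eq_abs, abs_mul]
      have h5 := hl (t + h) t
      rw [add_sub_cancel_left, abs_of_pos hh0] at h5
      calc |Real.cos (c * t)| * |g (t + h) - g t| ≤ 1 * (l * h) := by
            gcongr
            exact Real.abs_cos_le_one _
        _ = l * h := one_mul _)
    rw [Real.norm_eq_abs, abs_of_nonneg (by linarith : 0 ≤ β - α)] at this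
    exact this
  have c1 := b1 α
  have c2 := b1 β
  rw [h1, h4] at h3
  set A1 := ∫ t in (α - h)..α, Real.cos (c * t) * g (t + h)
  set A2 := ∫ t in (β - h)..β, Real.cos (c * t) * g (t + h)
  set A3 := ∫ t in α..β, Real.cos (c * t) * (g (t + h) - g t)
  have e : I = -(A1 + A3 - A2) / 2 := by linarith
  rw [e]
  have d1 := abs_le.mp c1
  have d2 := abs_le.mp c2
  have d3 := abs_le.mp b2
  have e2 : h * (l * (β - α) / 2 + G) = (l * h * (β - α) + 2 * (G * h)) / 2 := by ring
  rw [e2, abs_le]
  constructor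
  · linarith [d1.1, d1.2, d2.1, d2.2, d3.1, d3.2]
  · linarith [d1.1, d1.2, d2.1, d2.2, d3.1, d3.2]

/-- the prime sum against a Lipschitz function -/
lemma PS_osc {X : ℝ} (hX : 0 < X) {g : ℝ → ℝ} {G l α β : ℝ} (hg : Continuous g) (hG : ∀ t, |g t| ≤ G) (hl : ∀ s t, |g s - g t| ≤ l * |s - t|)
    (hl0 : 0 ≤ l) (hαβ : α ≤ β) : |∫ t in α..β, PS X t * g t| ≤ 40 * Real.exp X * (l * (β - α) + G) := by
  have hpi4 := Real.pi_lt_four
  have hpi := Real.pi_pos
  have hG0 : 0 ≤ G := (abs_nonneg _).trans (hG 0)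
  have h1 : ∫ t in α..β, PS X t * g t = ∑ n ∈ Finset.range (NX X + 1), ap X n * ∫ t in α..β, Real.cos (Real.log n * t) * g t := by
    have e : ∀ t : ℝ, PS X t * g t = ∑ n ∈ Finset.range (NX X + 1), ap X n * (Real.cos (Real.log n * t) * g t) := by
      intro t
      rw [PS_eq hX, Finset.sum_mul]
      refine Finset.sum_congr rfl fun n _ => ?_
      ring
    simp_rw [e]
    rw [intervalIntegral.integral_finsetSum]
    · refine Finset.sum_congr rfl fun n _ => ?_
      rw [intervalIntegral.integral_const_mul]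
    · intro n _
      apply Continuous.intervalIntegrable
      fun_prop
  rw [h1]
  refine (Finset.abs_sum_le_sum_abs _ _).trans ?_
  have h2 : ∀ n ∈ Finset.range (NX X + 1), |ap X n * ∫ t in α..β, Real.cos (Real.log n * t) * g t| ≤ ap X n * (10 * (l * (β - α) + G)) := by
    intro n _
    rcases Nat.lt_or_ge n 2 with h3 | h3
    · rw [ap_zero_lt h3]; simp
    rw [abs_mul, abs_of_nonneg (ap_nonneg hX n)]
    apply mul_le_mul_of_nonneg_left _ (ap_nonneg hX n)
    have hlog : 1 / 2 ≤ Real.log n := by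
      have hn2 : (2:ℝ) ≤ n := by exact_mod_cast h3
      have := Real.log_le_log (by norm_num) hn2
      have := Real.log_two_gt_d9
      linarith
    refine (osc hg hG hl (by linarith) hαβ).trans ?_
    have h4 : Real.pi / Real.log n ≤ 10 := by
      rw [div_le_iff₀ (by linarith)]
      linarith
    have h5 : 0 ≤ l * (β - α) := mul_nonneg hl0 (by linarith)
    calc Real.pi / Real.log n * (l * (β - α) / 2 + G) ≤ 10 * (l * (β - α) + G) := by
          apply mul_le_mul h4 (by linarith) (by positivity) (by norm_num)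
      _ = _ := rfl
  refine (Finset.sum_le_sum h2).trans ?_
  rw [← Finset.sum_mul]
  have h6 := sum_ap_le hX
  have h7 : 0 ≤ 10 * (l * (β - α) + G) := by
    have h5 : 0 ≤ l * (β - α) := mul_nonneg hl0 (by linarith)
    positivity
  calc (∑ n ∈ Finset.range (NX X + 1), ap X n) * (10 * (l * (β - α) + G)) ≤ (4 * Real.exp X) * (10 * (l * (β - α) + G)) := by gcongr
    _ = _ := by ring

/-- pointwise majorant used for the single-zero integral -/
lemma wf_half (w : ℝ) : Kd 1 w * Real.sqrt |w| ≤ 2 * wf w := by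
  have h0 := abs_nonneg w
  have hp : 0 < 1 + |w| := by linarith
  have h1 : Kd 1 w ≤ 2 * (1 + |w|) ^ (-2 : ℝ) := by
    unfold Kd
    rw [one_mul, Real.rpow_neg hp.le, ← div_eq_mul_inv, inv_eq_one_div, div_le_div_iff₀ (by positivity) (by positivity)]
    have : (1 + |w|) ^ (2:ℝ) = (1 + |w|) ^ 2 := by norm_num
    rw [this, ← sq_abs w]
    nlinarith [sq_nonneg (1 - |w|)]
  have h2 : Real.sqrt |w| ≤ (1 + |w|) ^ (1/2 : ℝ) := by
    rw [Real.sqrt_eq_rpow]
    exact Real.rpow_le_rpow h0 (by linarith) (by norm_num)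
  have h3 : (1 + |w|) ^ (-2 : ℝ) * (1 + |w|) ^ (1/2 : ℝ) ≤ (1 + |w|) ^ (-(5/4) : ℝ) := by
    rw [← Real.rpow_add hp]
    exact Real.rpow_le_rpow_of_exponent_le (by linarith) (by norm_num)
  have hK := (Kd_pos 1 w).le
  calc Kd 1 w * Real.sqrt |w| ≤ (2 * (1 + |w|) ^ (-2 : ℝ)) * (1 + |w|) ^ (1/2 : ℝ) := by gcongr
    _ = 2 * ((1 + |w|) ^ (-2 : ℝ) * (1 + |w|) ^ (1/2 : ℝ)) := by ring
    _ ≤ 2 * wf w := by
        unfold wf
        rw [Real.norm_eq_abs]
        gcongr

/-- the single-zero integral -/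
lemma gsD_lip {X q : ℝ} (hX : 0 < X) (hq1 : 1 ≤ q) (hqX : 1 ≤ q * X ^ 2) (v γ : ℝ) {A : ℝ} (hA : (|v| * X) ^ 2 * Real.exp (|v| * X) ≤ A) {g : ℝ → ℝ} {G l : ℝ}
    (hg : Continuous g) (hG : ∀ t, |g t| ≤ G) (hl : ∀ s t, |g s - g t| ≤ l * |s - t|) (hl0 : 0 ≤ l) :
    |∫ t, (gs X v (t - γ) - gs X 0 (t - γ)) * g t| ≤ 16 * A * q * Real.sqrt (2 * G * l) * C1 := by
  have hG0 : 0 ≤ G := (abs_nonneg _).trans (hG 0)
  have hA0 : 0 ≤ A := le_trans (by positivity) hA
  have hDi := gsD_integrable hX v
  have hDc : Continuous (fun w => gs X v w - gs X 0 w) := (gs_cont X v).sub (gs_cont X 0)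
  have h1 : ∫ t, (gs X v (t - γ) - gs X 0 (t - γ)) * g t = ∫ w, (gs X v w - gs X 0 w) * g (w + γ) := by
    have h := integral_sub_right_eq_self (μ := volume) (fun w => (gs X v w - gs X 0 w) * g (w + γ)) γ
    rw [← h]
    congr 1
    funext t
    rw [sub_add_cancel]
  have hi1 : Integrable (fun w => (gs X v w - gs X 0 w) * g (w + γ)) := by
    refine (hDi.norm.mul_const G).mono' (hDc.mul (hg.comp (by fun_prop))).aestronglyMeasurable ?_
    filter_upwards with w
    rw [norm_mul]
    gcongr
    exact hG _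
  have h2 : ∫ w, (gs X v w - gs X 0 w) * g (w + γ) = ∫ w, (gs X v w - gs X 0 w) * (g (w + γ) - g γ) := by
    have e : ∀ w, (gs X v w - gs X 0 w) * (g (w + γ) - g γ) = (gs X v w - gs X 0 w) * g (w + γ) - (gs X v w - gs X 0 w) * g γ := fun w => by ring
    simp_rw [e]
    rw [integral_sub hi1 (hDi.mul_const _), integral_mul_const, gsD_integral hX v, zero_mul, sub_zero]
  rw [h1, h2]
  have hpt : ∀ w, ‖(gs X v w - gs X 0 w) * (g (w + γ) - g γ)‖ ≤ (16 * A * q * Real.sqrt (2 * G * l)) * wf w := by
    intro w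
    rw [norm_mul, Real.norm_eq_abs, Real.norm_eq_abs]
    have h3 := gs_diff_bound hX v w
    have h4 : |g (w + γ) - g γ| ≤ l * |w| := by
      have := hl (w + γ) γ
      rwa [add_sub_cancel_right] at this
    have h5 : |g (w + γ) - g γ| ≤ 2 * G := by
      refine (abs_sub _ _).trans ?_
      have := hG (w + γ)
      have := hG γ
      linarith
    have h6 : |g (w + γ) - g γ| ≤ Real.sqrt (2 * G * l) * Real.sqrt |w| := by
      rw [← Real.sqrt_mul (by positivity)]
      apply Real.le_sqrt_of_sq_le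
      calc |g (w + γ) - g γ| ^ 2 = |g (w + γ) - g γ| * |g (w + γ) - g γ| := sq _
        _ ≤ (2 * G) * (l * |w|) := by gcongr
        _ = 2 * G * l * |w| := by ring
    have h7 := wf_half w
    have h8 := Kd_q (w := w) hq1 hqX
    have hK := (Kd_pos X w).le
    have hs := Real.sqrt_nonneg (2 * G * l)
    have hq0 : 0 ≤ q := by linarith
    calc |gs X v w - gs X 0 w| * |g (w + γ) - g γ| ≤ (8 * A * (q * Kd 1 w)) * (Real.sqrt (2 * G * l) * Real.sqrt |w|) := by
          apply mul_le_mul _ h6 (abs_nonneg _) (by have := (Kd_pos 1 w).le; positivity)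
          refine h3.trans ?_
          have hE : 0 ≤ (|v| * X) ^ 2 * Real.exp (|v| * X) := by positivity
          gcongr
      _ = 8 * A * q * Real.sqrt (2 * G * l) * (Kd 1 w * Real.sqrt |w|) := by ring
      _ ≤ 8 * A * q * Real.sqrt (2 * G * l) * (2 * wf w) := by gcongr
      _ = _ := by ring
  rw [← Real.norm_eq_abs]
  refine (norm_integral_le_integral_norm _).trans ?_
  refine (integral_mono_of_nonneg (Eventually.of_forall fun w => norm_nonneg _) (wf_integrable.const_mul _) (Eventually.of_forall hpt)).trans ?_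
  rw [integral_const_mul]
  exact le_of_eq rfl

end Pool.Agent.Helper57.UV
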